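import Pool.Agent.H899SOA.Main

/-!
# Arithmetical definability toolkit
-/

namespace Pool.Agent.H899SOA

open Function

/-- Definability by an arithmetical formula whose only free set variable is `X₀`. -/
def Ar (P : (ℕ → ℕ) → Set ℕ → Prop) : Prop :=
  ∃ φ : Fm, φ.IsArith ∧ (∀ X, φ.FreeS X → X = 0) ∧ ∀ v V, φ.Sat v V ↔ P v (V 0)

namespace Ar

variable {P Q : (ℕ → ℕ) → Set ℕ → Prop}

theorem congr (h : Ar P) (e : ∀ v Z, P v Z ↔ Q v Z) : Ar Q := by
  obtain ⟨φ, h1, h2, h3⟩ := h
  exact ⟨φ, h1, h2, fun v V => (h3 v V).trans (e v (V 0))⟩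

theorem eq (s t : Tm) : Ar fun v _ => s.val v = t.val v :=
  ⟨.eq s t, trivial, fun X h => absurd h (by simp), fun v V => by simp⟩

theorem mem (t : Tm) : Ar fun v Z => t.val v ∈ Z :=
  ⟨.mem t 0, trivial, fun X h => by simpa using h.symm, fun v V => by simp⟩

theorem imp (h : Ar P) (h' : Ar Q) : Ar fun v Z => P v Z → Q v Z := by
  obtain ⟨φ, h1, h2, h3⟩ := h
  obtain ⟨ψ, g1, g2, g3⟩ := h'
  refine ⟨.imp φ ψ, by simp [h1, g1], ?_, fun v V => by simp [h3, g3]⟩
  intro X hX
  rcases hX with hX | hX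
  exacts [h2 X hX, g2 X hX]

theorem false : Ar fun _ _ => False :=
  ⟨.bot, trivial, fun X h => absurd h (by simp), fun v V => by simp⟩

theorem not (h : Ar P) : Ar fun v Z => ¬ P v Z := h.imp false

theorem and (h : Ar P) (h' : Ar Q) : Ar fun v Z => P v Z ∧ Q v Z :=
  (h.imp h'.not).not.congr fun v Z => by tauto

theorem or (h : Ar P) (h' : Ar Q) : Ar fun v Z => P v Z ∨ Q v Z :=
  (h.not.imp h').congr fun v Z => by tauto

theorem all (x : ℕ) (h : Ar P) : Ar fun v Z => ∀ n, P (update v x n) Z := by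
  obtain ⟨φ, h1, h2, h3⟩ := h
  exact ⟨.all x φ, by simp [h1], fun X h => h2 X h, fun v V => by simp [h3]⟩

theorem ex (x : ℕ) (h : Ar P) : Ar fun v Z => ∃ n, P (update v x n) Z :=
  ((h.not).all x).not.congr fun v Z => by simp

theorem lt (s t : Tm) (x : ℕ) (hs : ¬ s.Occ x) (ht : ¬ t.Occ x) :
    Ar fun v _ => s.val v < t.val v := by
  refine (ex x (eq (.add s (.succ (.var x))) t)).congr fun v Z => ?_
  have h1 : ∀ n, s.val (update v x n) = s.val v := fun n =>
    Tm.val_congr s fun y hy => update_of_ne (by rintro rfl; exact hs hy) _ _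
  have h2 : ∀ n, t.val (update v x n) = t.val v := fun n =>
    Tm.val_congr t fun y hy => update_of_ne (by rintro rfl; exact ht hy) _ _
  simp only [Tm.val, h1, h2, update_self]
  constructor
  · rintro ⟨n, hn⟩; omega
  · intro h; exact ⟨t.val v - s.val v - 1, by omega⟩

theorem pair (i j k : ℕ) : Ar fun v _ => v k = Nat.pair (v i) (v j) := by
  have hlt : Ar fun v _ => v i < v j :=
    (lt (.var i) (.var j) (i + j + 1) (by simp; omega) (by simp; omega)).congr fun v Z => by
      simp [Tm.val]
  refine ((hlt.and (eq (.var k) (.add (.mul (.var j) (.var j)) (.var i)))).or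
    (hlt.not.and (eq (.var k) (.add (.add (.mul (.var i) (.var i)) (.var i)) (.var j))))).congr
    fun v Z => ?_
  simp only [Tm.val, Nat.pair]
  split_ifs with h <;> simp [h]

end Ar

/-- Arithmetical definability of a predicate of a number and a set, for all variable names. -/
def UA (P : ℕ → Set ℕ → Prop) : Prop := ∀ i, Ar fun v Z => P (v i) Z

namespace UA

variable {P Q : ℕ → Set ℕ → Prop}

theorem congr (h : UA P) (e : ∀ v Z, P v Z ↔ Q v Z) : UA Q := fun i =>
  (h i).congr fun _ _ => e _ _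
theorem false : UA fun _ _ => False := fun _ => Ar.false
theorem imp (h : UA P) (h' : UA Q) : UA fun n Z => P n Z → Q n Z := fun i => (h i).imp (h' i)
theorem not (h : UA P) : UA fun n Z => ¬ P n Z := fun i => (h i).not
theorem and (h : UA P) (h' : UA Q) : UA fun n Z => P n Z ∧ Q n Z := fun i => (h i).and (h' i)
theorem or (h : UA P) (h' : UA Q) : UA fun n Z => P n Z ∨ Q n Z := fun i => (h i).or (h' i)
theorem iff (h : UA P) (h' : UA Q) : UA fun n Z => (P n Z ↔ Q n Z) :=
  ((h.imp h').and (h'.imp h)).congr fun _ _ => by tauto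

theorem ex {P : ℕ → ℕ → Set ℕ → Prop} (h : UA fun n Z => P n.unpair.1 n.unpair.2 Z) :
    UA fun n Z => ∃ m, P n m Z := fun i => by
  have := (((Ar.pair i (i + 1) (i + 2)).and (h (i + 2))).ex (i + 2)).ex (i + 1)
  refine this.congr fun v Z => ?_
  simp only [update_self, ne_eq, show ¬ (i = i + 1) by omega, show ¬ (i = i + 2) by omega,
    show ¬ (i + 1 = i + 2) by omega, not_false_eq_true, update_of_ne]
  constructor
  · rintro ⟨m, k, h1, h2⟩
    rw [h1] at h2
    exact ⟨m, by simpa using h2⟩
  · rintro ⟨m, hm⟩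
    exact ⟨m, _, rfl, by simpa using hm⟩

theorem all {P : ℕ → ℕ → Set ℕ → Prop} (h : UA fun n Z => P n.unpair.1 n.unpair.2 Z) :
    UA fun n Z => ∀ m, P n m Z :=
  (ex (P := fun n m Z => ¬ P n m Z) h.not).not.congr fun _ _ => by simp

end UA

/-- Arithmetical definability of the graph of a function, for all variable names. -/
def UG (f : ℕ → ℕ) : Prop := ∀ i j, Ar fun v _ => v j = f (v i)

theorem UA.comp {P : ℕ → Set ℕ → Prop} {f : ℕ → ℕ} (h : UA P) (hf : UG f) :
    UA fun n Z => P (f n) Z := fun i => by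
  refine (((hf i (i + 1)).and (h (i + 1))).ex (i + 1)).congr fun v Z => ?_
  simp only [update_self, ne_eq, show ¬ (i = i + 1) by omega, not_false_eq_true, update_of_ne]
  exact ⟨by rintro ⟨k, rfl, h⟩; exact h, fun h => ⟨_, rfl, h⟩⟩

theorem UA.eq {f g : ℕ → ℕ} (hf : UG f) (hg : UG g) : UA fun n _ => f n = g n := fun i => by
  refine (((hf i (i + 1)).and (hg i (i + 1))).ex (i + 1)).congr fun v Z => ?_
  simp only [update_self, ne_eq, show ¬ (i = i + 1) by omega, not_false_eq_true, update_of_ne]
  exact ⟨by rintro ⟨k, h1, h2⟩; exact h1.symm.trans h2, fun h => ⟨_, rfl, h⟩⟩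

theorem UA.mem {f : ℕ → ℕ} (hf : UG f) : UA fun n Z => f n ∈ Z := by
  have : UA fun n Z => n ∈ Z := fun i => (Ar.mem (.var i)).congr fun _ _ => by simp [Tm.val]
  exact this.comp hf

theorem UG.ofUA {f : ℕ → ℕ} (h : UA fun n _ => n.unpair.2 = f n.unpair.1) : UG f := fun i j => by
  have := ((Ar.pair i j (i + j + 1)).and (h (i + j + 1))).ex (i + j + 1)
  refine this.congr fun v Z => ?_
  simp only [update_self, ne_eq, show ¬ (i = i + j + 1) by omega, show ¬ (j = i + j + 1) by omega,
    not_false_eq_true, update_of_ne]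
  simp

namespace UG

variable {f g : ℕ → ℕ}

theorem ofEq (h : UG f) (e : ∀ n, f n = g n) : UG g := by
  have : f = g := funext e
  exact this ▸ h

theorem id : UG fun n => n := fun i j => (Ar.eq (.var j) (.var i)).congr fun _ _ => by simp [Tm.val]

theorem const (c : ℕ) : UG fun _ => c := fun i j =>
  (Ar.eq (.var j) (num c)).congr fun _ _ => by simp [Tm.val]

theorem succ₀ : UG fun n => n + 1 := fun i j =>
  (Ar.eq (.var j) (.succ (.var i))).congr fun _ _ => by simp [Tm.val]

theorem left₀ : UG fun n => n.unpair.1 := fun i j => by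
  refine ((Ar.pair j (i + j + 1) i).ex (i + j + 1)).congr fun v Z => ?_
  simp only [update_self, ne_eq, show ¬ (i = i + j + 1) by omega, show ¬ (j = i + j + 1) by omega,
    not_false_eq_true, update_of_ne]
  constructor
  · rintro ⟨k, h⟩; rw [h]; simp
  · intro h; exact ⟨(v i).unpair.2, by rw [h]; simp⟩

theorem right₀ : UG fun n => n.unpair.2 := fun i j => by
  refine ((Ar.pair (i + j + 1) j i).ex (i + j + 1)).congr fun v Z => ?_
  simp only [update_self, ne_eq, show ¬ (i = i + j + 1) by omega, show ¬ (j = i + j + 1) by omega,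
    not_false_eq_true, update_of_ne]
  constructor
  · rintro ⟨k, h⟩; rw [h]; simp
  · intro h; exact ⟨(v i).unpair.1, by rw [h]; simp⟩

theorem comp (hf : UG f) (hg : UG g) : UG fun n => f (g n) := fun i j => by
  refine (((hg i (i + j + 1)).and (hf (i + j + 1) j)).ex (i + j + 1)).congr fun v Z => ?_
  simp only [update_self, ne_eq, show ¬ (i = i + j + 1) by omega, show ¬ (j = i + j + 1) by omega,
    not_false_eq_true, update_of_ne]
  exact ⟨by rintro ⟨k, rfl, h⟩; exact h, fun h => ⟨_, rfl, h⟩⟩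

theorem bin {R : ℕ → ℕ → ℕ} (hR : ∀ a b c, Ar fun v _ => v c = R (v a) (v b)) (hf : UG f)
    (hg : UG g) : UG fun n => R (f n) (g n) := fun i j => by
  refine ((((hf i (i + j + 1)).and ((hg i (i + j + 2)).and
    (hR (i + j + 1) (i + j + 2) j))).ex (i + j + 1)).ex (i + j + 2)).congr fun v Z => ?_
  simp only [update_self, ne_eq, show ¬ (i = i + j + 1) by omega, show ¬ (j = i + j + 1) by omega,
    show ¬ (i = i + j + 2) by omega, show ¬ (j = i + j + 2) by omega,
    show ¬ (i + j + 2 = i + j + 1) by omega, not_false_eq_true, update_of_ne]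
  exact ⟨by rintro ⟨k, l, rfl, rfl, h⟩; exact h, fun h => ⟨_, _, rfl, rfl, h⟩⟩

theorem left (hf : UG f) : UG fun n => (f n).unpair.1 := left₀.comp hf
theorem right (hf : UG f) : UG fun n => (f n).unpair.2 := right₀.comp hf
theorem succ (hf : UG f) : UG fun n => f n + 1 := succ₀.comp hf
theorem pair (hf : UG f) (hg : UG g) : UG fun n => Nat.pair (f n) (g n) :=
  bin (fun a b c => Ar.pair a b c) hf hg
theorem add (hf : UG f) (hg : UG g) : UG fun n => f n + g n :=
  bin (R := fun a b => a + b)
    (fun a b c => (Ar.eq (.var c) (.add (.var a) (.var b))).congr fun _ _ => by simp [Tm.val]) hf hg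
theorem mul (hf : UG f) (hg : UG g) : UG fun n => f n * g n :=
  bin (R := fun a b => a * b)
    (fun a b c => (Ar.eq (.var c) (.mul (.var a) (.var b))).congr fun _ _ => by simp [Tm.val]) hf hg

end UG

theorem UA.lt {f g : ℕ → ℕ} (hf : UG f) (hg : UG g) : UA fun n _ => f n < g n := by
  refine (UA.ex (P := fun n m _ => f n + m + 1 = g n) ?_).congr fun n _ => ?_
  · exact UA.eq (((hf.comp UG.left₀).add UG.right₀).succ) (hg.comp UG.left₀)
  · constructor
    · rintro ⟨m, h⟩; omega
    · intro h; exact ⟨g n - f n - 1, by omega⟩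

theorem UG.mod {f g : ℕ → ℕ} (hf : UG f) (hg : UG g) : UG fun n => f n % g n := by
  have h : UG fun n => n.unpair.1 % n.unpair.2 := by
    refine UG.ofUA ?_
    have : UA fun n _ => (n.unpair.1.unpair.2 = 0 ∧ n.unpair.2 = n.unpair.1.unpair.1) ∨
        (n.unpair.2 < n.unpair.1.unpair.2 ∧
          ∃ q, n.unpair.1.unpair.1 = n.unpair.1.unpair.2 * q + n.unpair.2) := by
      refine UA.or (UA.and (UA.eq (UG.id.left.right) (UG.const 0))
        (UA.eq UG.id.right UG.id.left.left)) (UA.and (UA.lt UG.id.right UG.id.left.right) ?_)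
      refine UA.ex (P := fun n q _ => n.unpair.1.unpair.1 = n.unpair.1.unpair.2 * q + n.unpair.2) ?_
      exact UA.eq UG.id.left.left.left (UG.add (UG.mul UG.id.left.left.right UG.id.right)
        UG.id.left.right)
    refine this.congr fun n _ => ?_
    set a := n.unpair.1.unpair.1
    set c := n.unpair.1.unpair.2
    set y := n.unpair.2
    constructor
    · rintro (⟨h1, h2⟩ | ⟨h1, q, h2⟩)
      · rw [h1, h2]; simp
      · rw [h2, Nat.mul_add_mod, Nat.mod_eq_of_lt h1]
    · intro h
      rcases Nat.eq_zero_or_pos c with h0 | h0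
      · left; exact ⟨h0, by rw [h, h0]; simp⟩
      · right; exact ⟨by rw [h]; exact Nat.mod_lt _ h0, a / c, by
          rw [h]; exact (Nat.div_add_mod a c).symm⟩
  exact (h.comp (hf.pair hg)).ofEq fun n => by simp

theorem UG.beta {f g : ℕ → ℕ} (hf : UG f) (hg : UG g) : UG fun n => Nat.beta (f n) (g n) :=
  (hf.left.mod ((hg.succ.mul hf.right).succ)).ofEq fun _ => rfl

theorem exists_beta (F : ℕ → ℕ) (n : ℕ) : ∃ s, ∀ i ≤ n, Nat.beta s i = F i := by
  refine ⟨Nat.unbeta (List.ofFn fun i : Fin (n + 1) => F i), fun i hi => ?_⟩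
  have := Nat.beta_unbeta_coe (List.ofFn fun i : Fin (n + 1) => F i)
    ⟨i, by simpa using Nat.lt_succ_of_le hi⟩
  refine this.trans ?_
  simp only [Fin.getElem_fin, List.getElem_ofFn]

/-- Every primitive recursive function is arithmetically definable. -/
theorem UG.ofNatPrimrec {f : ℕ → ℕ} (hf : Nat.Primrec f) : UG f := by
  induction hf with
  | zero => exact UG.const 0
  | succ => exact UG.succ₀
  | left => exact UG.left₀
  | right => exact UG.right₀
  | pair _ _ ih1 ih2 => exact ih1.pair ih2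
  | comp _ _ ih1 ih2 => exact ih1.comp ih2
  | @prec f g _ _ ih1 ih2 =>
    refine UG.ofUA ?_
    have : UA fun n _ => ∃ s, Nat.beta s 0 = f n.unpair.1.unpair.1 ∧
        (∀ t, t < n.unpair.1.unpair.2 →
          Nat.beta s (t + 1) = g (Nat.pair n.unpair.1.unpair.1 (Nat.pair t (Nat.beta s t)))) ∧
        n.unpair.2 = Nat.beta s n.unpair.1.unpair.2 := by
      refine UA.ex (P := fun n s _ => Nat.beta s 0 = f n.unpair.1.unpair.1 ∧
        (∀ t, t < n.unpair.1.unpair.2 →
          Nat.beta s (t + 1) = g (Nat.pair n.unpair.1.unpair.1 (Nat.pair t (Nat.beta s t)))) ∧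
        n.unpair.2 = Nat.beta s n.unpair.1.unpair.2) ?_
      refine UA.and (UA.eq (UG.beta UG.id.right (UG.const 0)) (ih1.comp UG.id.left.left.left))
        (UA.and ?_ (UA.eq UG.id.left.right (UG.beta UG.id.right UG.id.left.left.right)))
      refine UA.all (P := fun n t _ => t < n.unpair.1.unpair.1.unpair.2 →
          Nat.beta n.unpair.2 (t + 1) = g (Nat.pair n.unpair.1.unpair.1.unpair.1
            (Nat.pair t (Nat.beta n.unpair.2 t)))) ?_
      refine UA.imp (UA.lt UG.id.right UG.id.left.left.left.right) (UA.eq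
        (UG.beta UG.id.left.right UG.id.right.succ) (ih2.comp (UG.pair UG.id.left.left.left.left
          (UG.pair UG.id.right (UG.beta UG.id.left.right UG.id.right)))))
    refine this.congr fun n _ => ?_
    simp only [Nat.unpaired]
    set z := n.unpair.1.unpair.1
    set m := n.unpair.1.unpair.2
    set y := n.unpair.2
    constructor
    · rintro ⟨s, h0, h1, h2⟩
      have : ∀ t, t ≤ m → Nat.beta s t =
          Nat.rec (f z) (fun y IH => g (Nat.pair z (Nat.pair y IH))) t := by
        intro t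
        induction t with
        | zero => intro _; exact h0
        | succ t ih => intro ht; rw [h1 t (by omega), ih (by omega)]
      rw [h2, this m le_rfl]
    · intro h
      obtain ⟨s, hs⟩ := exists_beta
        (fun t => Nat.rec (f z) (fun y IH => g (Nat.pair z (Nat.pair y IH))) t) m
      refine ⟨s, hs 0 (by omega), fun t ht => ?_, ?_⟩
      · rw [hs (t + 1) (by omega), hs t (by omega)]
      · rw [h, hs m le_rfl]

theorem UG.ofPrimrec {f : ℕ → ℕ} (hf : Primrec f) : UG f := UG.ofNatPrimrec (Primrec.nat_iff.1 hf)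

end Pool.Agent.H899SOA
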