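import Mathlib

/-!
# Second-order arithmetic: language, semantics, a Hilbert calculus, Σ¹₁-AC₀

Everything is for the two-sorted language with number variables `v₀, v₁, …`, set variables
`X₀, X₁, …`, the symbols `0, S, +, ·`, equality of numbers and membership of a number in a set.
-/

namespace Pool.Agent.H899SOA

/-- Number terms: variables, `0`, successor, sum, product. -/
inductive Tm : Type
  | var (x : ℕ) : Tm
  | zero : Tm
  | succ (t : Tm) : Tm
  | add (s t : Tm) : Tm
  | mul (s t : Tm) : Tm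
  deriving DecidableEq

/-- Formulas of second-order arithmetic. `all x φ` quantifies the number variable `x`, `All X φ`
quantifies the set variable `X`. -/
inductive Fm : Type
  | eq (s t : Tm) : Fm
  | mem (t : Tm) (X : ℕ) : Fm
  | bot : Fm
  | imp (φ ψ : Fm) : Fm
  | all (x : ℕ) (φ : Fm) : Fm
  | All (X : ℕ) (φ : Fm) : Fm
  deriving DecidableEq

namespace Fm

/-- Negation. -/
def neg (φ : Fm) : Fm := imp φ bot
/-- Conjunction. -/
def and (φ ψ : Fm) : Fm := neg (imp φ (neg ψ))
/-- Disjunction. -/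
def or (φ ψ : Fm) : Fm := imp (neg φ) ψ
/-- Equivalence. -/
def iff (φ ψ : Fm) : Fm := and (imp φ ψ) (imp ψ φ)
/-- Existential number quantifier. -/
def ex (x : ℕ) (φ : Fm) : Fm := neg (all x (neg φ))
/-- Existential set quantifier. -/
def Ex (X : ℕ) (φ : Fm) : Fm := neg (All X (neg φ))

end Fm

/-! ### Semantics in the standard model -/

/-- Value of a term under an assignment of the number variables. -/
def Tm.val (v : ℕ → ℕ) : Tm → ℕ
  | .var x => v x
  | .zero => 0
  | .succ t => t.val v + 1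
  | .add s t => s.val v + t.val v
  | .mul s t => s.val v * t.val v

/-- Satisfaction in the standard model `(ℕ, P(ℕ))` under the assignments `v` (numbers) and
`V` (sets). -/
def Fm.Sat : Fm → (ℕ → ℕ) → (ℕ → Set ℕ) → Prop
  | .eq s t, v, _ => s.val v = t.val v
  | .mem t X, v, V => t.val v ∈ V X
  | .bot, _, _ => False
  | .imp φ ψ, v, V => φ.Sat v V → ψ.Sat v V
  | .all x φ, v, V => ∀ n : ℕ, φ.Sat (Function.update v x n) V
  | .All X φ, v, V => ∀ A : Set ℕ, φ.Sat v (Function.update V X A)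

/-- Truth in the standard model (of the universal closure; we use it for sentences). -/
def Fm.True (φ : Fm) : Prop := ∀ v V, φ.Sat v V

/-! ### Variables -/

/-- The variable `x` occurs in the term. -/
def Tm.Occ (x : ℕ) : Tm → Prop
  | .var y => y = x
  | .zero => False
  | .succ t => t.Occ x
  | .add s t => s.Occ x ∨ t.Occ x
  | .mul s t => s.Occ x ∨ t.Occ x

/-- The number variable `x` is free in the formula. -/
def Fm.Free (x : ℕ) : Fm → Prop
  | .eq s t => s.Occ x ∨ t.Occ x
  | .mem t _ => t.Occ x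
  | .bot => False
  | .imp φ ψ => φ.Free x ∨ ψ.Free x
  | .all y φ => y ≠ x ∧ φ.Free x
  | .All _ φ => φ.Free x

/-- The set variable `X` is free in the formula. -/
def Fm.FreeS (X : ℕ) : Fm → Prop
  | .eq _ _ => False
  | .mem _ Y => Y = X
  | .bot => False
  | .imp φ ψ => φ.FreeS X ∨ ψ.FreeS X
  | .all _ φ => φ.FreeS X
  | .All Y φ => Y ≠ X ∧ φ.FreeS X

/-- Sentences: formulas without free variables of either sort. -/
def Fm.Sentence (φ : Fm) : Prop := (∀ x, ¬ φ.Free x) ∧ ∀ X, ¬ φ.FreeS X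

/-! ### Substitution -/

/-- `r.subst x t`: substitution of `t` for the variable `x` in the term `r`. -/
def Tm.subst : Tm → ℕ → Tm → Tm
  | .var y, x, t => if y = x then t else .var y
  | .zero, _, _ => .zero
  | .succ s, x, t => .succ (s.subst x t)
  | .add r s, x, t => .add (r.subst x t) (s.subst x t)
  | .mul r s, x, t => .mul (r.subst x t) (s.subst x t)

/-- `Sub x t φ ψ`: the term `t` is free for the number variable `x` in `φ`, and `ψ` is the result
of replacing every free occurrence of `x` in `φ` by `t`. -/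
inductive Sub (x : ℕ) (t : Tm) : Fm → Fm → Prop
  | same {φ : Fm} : ¬ φ.Free x → Sub x t φ φ
  | eq (r s : Tm) : Sub x t (.eq r s) (.eq (r.subst x t) (s.subst x t))
  | mem (s : Tm) (X : ℕ) : Sub x t (.mem s X) (.mem (s.subst x t) X)
  | imp {φ φ' ψ ψ' : Fm} : Sub x t φ φ' → Sub x t ψ ψ' → Sub x t (.imp φ ψ) (.imp φ' ψ')
  | all {y : ℕ} {φ φ' : Fm} : y ≠ x → ¬ t.Occ y → Sub x t φ φ' → Sub x t (.all y φ) (.all y φ')
  | All {Y : ℕ} {φ φ' : Fm} : Sub x t φ φ' → Sub x t (.All Y φ) (.All Y φ')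

/-- `SubS X Y φ ψ`: the set variable `Y` is free for the set variable `X` in `φ`, and `ψ` is the
result of replacing every free occurrence of `X` in `φ` by `Y`. -/
inductive SubS (X Y : ℕ) : Fm → Fm → Prop
  | same {φ : Fm} : ¬ φ.FreeS X → SubS X Y φ φ
  | mem (s : Tm) : SubS X Y (.mem s X) (.mem s Y)
  | imp {φ φ' ψ ψ' : Fm} : SubS X Y φ φ' → SubS X Y ψ ψ' → SubS X Y (.imp φ ψ) (.imp φ' ψ')
  | all {y : ℕ} {φ φ' : Fm} : SubS X Y φ φ' → SubS X Y (.all y φ) (.all y φ')
  | All {Z : ℕ} {φ φ' : Fm} : Z ≠ X → Z ≠ Y → SubS X Y φ φ' → SubS X Y (.All Z φ) (.All Z φ')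

/-! ### The calculus -/

/-- The logical axioms of the (two-sorted) Hilbert calculus. -/
inductive LogAx : Fm → Prop
  | k (φ ψ : Fm) : LogAx (.imp φ (.imp ψ φ))
  | s (φ ψ χ : Fm) : LogAx (.imp (.imp φ (.imp ψ χ)) (.imp (.imp φ ψ) (.imp φ χ)))
  | dne (φ : Fm) : LogAx (.imp (.imp (.imp φ .bot) .bot) φ)
  | inst {x : ℕ} {t : Tm} {φ ψ : Fm} : Sub x t φ ψ → LogAx (.imp (.all x φ) ψ)
  | dist {x : ℕ} {φ ψ : Fm} : ¬ φ.Free x → LogAx (.imp (.all x (.imp φ ψ)) (.imp φ (.all x ψ)))
  | instS {X Y : ℕ} {φ ψ : Fm} : SubS X Y φ ψ → LogAx (.imp (.All X φ) ψ)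
  | distS {X : ℕ} {φ ψ : Fm} : ¬ φ.FreeS X → LogAx (.imp (.All X (.imp φ ψ)) (.imp φ (.All X ψ)))
  | refl (t : Tm) : LogAx (.eq t t)
  | leibniz {x : ℕ} {s t : Tm} {φ ψ χ : Fm} : Sub x s φ ψ → Sub x t φ χ →
      LogAx (.imp (.eq s t) (.imp ψ χ))

/-- `Derives A φ`: the formula `φ` is provable from the set of sentences `A` (first-order
two-sorted logic with equality for numbers): logical axioms, modus ponens, generalisation. -/
inductive Derives (A : Set Fm) : Fm → Prop
  | ax {φ : Fm} : φ ∈ A → Derives A φ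
  | log {φ : Fm} : LogAx φ → Derives A φ
  | mp {φ ψ : Fm} : Derives A (.imp φ ψ) → Derives A φ → Derives A ψ
  | gen (x : ℕ) {φ : Fm} : Derives A φ → Derives A (.all x φ)
  | Gen (X : ℕ) {φ : Fm} : Derives A φ → Derives A (.All X φ)

/-! ### Classes of formulas -/

/-- Arithmetical formulas: no set quantifiers (free set variables are allowed). -/
def Fm.IsArith : Fm → Prop
  | .eq _ _ => _root_.True
  | .mem _ _ => _root_.True
  | .bot => _root_.True
  | .imp φ ψ => φ.IsArith ∧ ψ.IsArith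
  | .all _ φ => φ.IsArith
  | .All _ _ => False

/-- `Π¹₁` formulas: `∀X θ` with `θ` arithmetical. -/
def Fm.IsPi11 (φ : Fm) : Prop := ∃ X θ, Fm.IsArith θ ∧ φ = .All X θ

/-- `Σ¹₁` formulas: `∃X θ` with `θ` arithmetical. -/
def Fm.IsSigma11 (φ : Fm) : Prop := ∃ X θ, Fm.IsArith θ ∧ φ = .Ex X θ

/-! ### The theory `Σ¹₁-AC₀` -/

/-- The pairing term `(s + t)² + s`. -/
def pairTm (s t : Tm) : Tm := .add (.mul (.add s t) (.add s t)) s

/-- The axioms of `Σ¹₁-AC₀` before taking universal closures: the basic axioms of arithmetic,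
the induction axiom for sets, arithmetical comprehension, and the `Σ¹₁` axiom of choice
`∀n ∃X φ(n, X) → ∃Z ∀n φ(n, (Z)_n)`, where `(Z)_n = {i : (i + n)² + i ∈ Z}`; the conclusion is
written `∃Z ∀n ∃X (X = (Z)_n ∧ φ(n, X))`. -/
inductive Matrix : Fm → Prop
  | succ_ne : Matrix (.neg (.eq (.succ (.var 0)) .zero))
  | succ_inj : Matrix (.imp (.eq (.succ (.var 0)) (.succ (.var 1))) (.eq (.var 0) (.var 1)))
  | add_zero : Matrix (.eq (.add (.var 0) .zero) (.var 0))
  | add_succ : Matrix (.eq (.add (.var 0) (.succ (.var 1))) (.succ (.add (.var 0) (.var 1))))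
  | mul_zero : Matrix (.eq (.mul (.var 0) .zero) .zero)
  | mul_succ : Matrix (.eq (.mul (.var 0) (.succ (.var 1))) (.add (.mul (.var 0) (.var 1)) (.var 0)))
  | ind : Matrix (.imp (.mem .zero 0)
      (.imp (.all 0 (.imp (.mem (.var 0) 0) (.mem (.succ (.var 0)) 0))) (.all 0 (.mem (.var 0) 0))))
  | comp {x X : ℕ} {φ : Fm} : φ.IsArith → ¬ φ.FreeS X →
      Matrix (.Ex X (.all x (.iff (.mem (.var x) X) φ)))
  | choice {n i X Z : ℕ} {φ : Fm} : φ.IsArith ∨ φ.IsSigma11 → i ≠ n → X ≠ Z → ¬ φ.FreeS Z →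
      Matrix (.imp (.all n (.Ex X φ))
        (.Ex Z (.all n (.Ex X (.and
          (.all i (.iff (.mem (.var i) X) (.mem (pairTm (.var i) (.var n)) Z))) φ)))))

/-- `Closure φ ψ`: the formula `ψ` is `φ` preceded by a block of universal quantifiers. -/
inductive Closure (φ : Fm) : Fm → Prop
  | refl : Closure φ φ
  | all (x : ℕ) {ψ : Fm} : Closure φ ψ → Closure φ (.all x ψ)
  | All (X : ℕ) {ψ : Fm} : Closure φ ψ → Closure φ (.All X ψ)

/-- The axioms of `Σ¹₁-AC₀`: all sentences which are universal closures of the above. -/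
def Sigma11AC0 : Set Fm := {σ | σ.Sentence ∧ ∃ φ, Matrix φ ∧ Closure φ σ}

/-! ### Gödel numbers -/

/-- Gödel number of a term. -/
def Tm.code : Tm → ℕ
  | .var x => Nat.pair 0 x
  | .zero => Nat.pair 1 0
  | .succ t => Nat.pair 2 t.code
  | .add s t => Nat.pair 3 (Nat.pair s.code t.code)
  | .mul s t => Nat.pair 4 (Nat.pair s.code t.code)

/-- Gödel number of a formula. -/
def Fm.code : Fm → ℕ
  | .eq s t => Nat.pair 0 (Nat.pair s.code t.code)
  | .mem t X => Nat.pair 1 (Nat.pair t.code X)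
  | .bot => Nat.pair 2 0
  | .imp φ ψ => Nat.pair 3 (Nat.pair φ.code ψ.code)
  | .all x φ => Nat.pair 4 (Nat.pair x φ.code)
  | .All X φ => Nat.pair 5 (Nat.pair X φ.code)

/-- The assignment with `v₀ = a`, `v₁ = b`, `v₂ = c` and all other number variables `0`. -/
def env (a b c : ℕ) : ℕ → ℕ
  | 0 => a
  | 1 => b
  | 2 => c
  | _ => 0

/-- Truth in the standard model of a formula (without free set variables and with number
variables among `v₀, v₁, v₂`) at `v₀ = a`, `v₁ = b`, `v₂ = c`. -/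
def Fm.Holds (φ : Fm) (a b c : ℕ) : Prop := φ.Sat (env a b c) fun _ => ∅

/-- An arithmetised provability predicate and `Π¹₁` truth predicate.
* `prf` (with free variables `v₁, v₂`) and `use` (with free variables `v₀, v₁`) are arithmetical
  formulas, `prf` read as: `v₁` codes a proof of `v₂`, and `use` read as: `v₀` is a non-logical
  axiom used in the proof `v₁`; every proof uses finitely many axioms, and for every set `A` of sentences and every
  formula `φ`, `φ` is provable from `A` iff some proof of `φ` uses only axioms from `A`.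
* `pi` (with free variable `v₂`) is an arithmetical formula defining the set of codes of
  `Π¹₁` sentences.
* `tr = ∀X trM` is a `Π¹₁` formula with free variable `v₂`, and it is a truth predicate for
  `Π¹₁` sentences. -/
structure Arithmetization where
  prf : Fm
  use : Fm
  pi : Fm
  trX : ℕ
  trM : Fm
  prf_arith : prf.IsArith
  prf_free : ∀ x, prf.Free x → x = 1 ∨ x = 2
  prf_freeS : ∀ X, ¬ prf.FreeS X
  use_arith : use.IsArith
  use_free : ∀ x, use.Free x → x = 0 ∨ x = 1
  use_freeS : ∀ X, ¬ use.FreeS X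
  pi_arith : pi.IsArith
  pi_free : ∀ x, pi.Free x → x = 2
  pi_freeS : ∀ X, ¬ pi.FreeS X
  trM_arith : trM.IsArith
  trM_free : ∀ x, trM.Free x → x = 2
  trM_freeS : ∀ X, trM.FreeS X → X = trX
  use_finite : ∀ p, {a | use.Holds a p 0}.Finite
  prf_correct : ∀ A : Set Fm, (∀ φ ∈ A, φ.Sentence) → ∀ φ : Fm,
    (Derives A φ ↔ ∃ p, prf.Holds 0 p φ.code ∧ ∀ a, use.Holds a p 0 → ∃ ψ ∈ A, a = ψ.code)
  pi_correct : ∀ n, pi.Holds 0 0 n ↔ ∃ φ : Fm, φ.IsPi11 ∧ φ.Sentence ∧ n = φ.code
  tr_correct : ∀ φ : Fm, φ.IsPi11 → φ.Sentence →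
    ((Fm.All trX trM).Holds 0 0 φ.code ↔ φ.True)

/-- The `Π¹₁` truth predicate of an arithmetisation. -/
def Arithmetization.tr (R : Arithmetization) : Fm := .All R.trX R.trM

/-- The provability predicate `Pr_τ(v₂)` for the theory whose axioms are defined by the formula
`τ(v₀)`: there is a proof `v₁` of `v₂` such that every non-logical axiom used in it satisfies
`τ`. -/
def Arithmetization.Pr (R : Arithmetization) (τ : Fm) : Fm :=
  .ex 1 (.and R.prf (.all 0 (.imp R.use τ)))

/-- The sentence saying that every `Π¹₁` sentence provable from the axioms defined by `τ` is true: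
`∀v₂ (Π¹₁(v₂) → (Pr_τ(v₂) → Tr(v₂)))`. -/
def Arithmetization.Reflection (R : Arithmetization) (τ : Fm) : Fm :=
  .all 2 (.imp R.pi (.imp (R.Pr τ) R.tr))

end Pool.Agent.H899SOA
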