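import Pool.Agent.H899SOA.Ar

/-!
# Inductively generated sets are arithmetical
-/

namespace Pool.Agent.H899SOA

theorem UA.le {f g : ℕ → ℕ} (hf : UG f) (hg : UG g) : UA fun n _ => f n ≤ g n :=
  (UA.lt hg hf).not.congr fun _ _ => by simp

theorem UA.ne {f g : ℕ → ℕ} (hf : UG f) (hg : UG g) : UA fun n _ => f n ≠ g n := (UA.eq hf hg).not

/-- `POK Q l`: every element of the list satisfies `Q` relative to the set of the elements after
it. -/
def POK (Q : ℕ → (ℕ → Prop) → Prop) : List ℕ → Prop
  | [] => True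
  | e :: l => Q e (· ∈ l) ∧ POK Q l

theorem POK.append {Q : ℕ → (ℕ → Prop) → Prop}
    (mono : ∀ e S S', (∀ a, S a → S' a) → Q e S → Q e S') :
    ∀ {l l' : List ℕ}, POK Q l → POK Q l' → POK Q (l ++ l')
  | [], _, _, h' => h'
  | _ :: _, _, h, h' =>
    ⟨mono _ _ _ (fun _ ha => List.mem_append_left _ ha) h.1, POK.append mono h.2 h'⟩

theorem POK_iff {Q : ℕ → (ℕ → Prop) → Prop} : ∀ {l : List ℕ},
    POK Q l ↔ ∀ i < l.length, Q (l.getD i 0) fun a => ∃ j, i < j ∧ j < l.length ∧ l.getD j 0 = a
  | [] => by simp [POK]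
  | e :: l => by
    have e1 : (fun a => ∃ j, 0 < j ∧ j < (e :: l).length ∧ (e :: l).getD j 0 = a) = (· ∈ l) := by
      funext a
      apply propext
      rw [List.mem_iff_getElem]
      constructor
      · rintro ⟨j, h0, hj, h⟩
        obtain ⟨j, rfl⟩ : ∃ k, j = k + 1 := ⟨j - 1, by omega⟩
        have hj' : j < l.length := by simpa using hj
        exact ⟨j, hj', by rw [List.getD_cons_succ, List.getD_eq_getElem _ _ hj'] at h; exact h⟩
      · rintro ⟨j, hj, h⟩
        exact ⟨j + 1, by omega, by simpa using hj, by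
          rw [List.getD_cons_succ, List.getD_eq_getElem _ _ hj]; exact h⟩
    have e2 : ∀ i, (fun a => ∃ j, i + 1 < j ∧ j < (e :: l).length ∧ (e :: l).getD j 0 = a) =
        fun a => ∃ j, i < j ∧ j < l.length ∧ l.getD j 0 = a := by
      intro i
      funext a
      apply propext
      constructor
      · rintro ⟨j, h0, hj, h⟩
        obtain ⟨j, rfl⟩ : ∃ k, j = k + 1 := ⟨j - 1, by omega⟩
        exact ⟨j, by omega, by simpa using hj, by simpa using h⟩
      · rintro ⟨j, h0, hj, h⟩
        exact ⟨j + 1, by omega, by simpa using hj, by simpa using h⟩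
    rw [POK, POK_iff (l := l)]
    constructor
    · rintro ⟨h1, h2⟩ i hi
      cases i with
      | zero => rw [e1]; simpa using h1
      | succ i => rw [e2]; simpa using h2 i (by simpa using hi)
    · intro h
      refine ⟨?_, fun i hi => ?_⟩
      · have := h 0 (by simp)
        rw [e1] at this
        simpa using this
      · have := h (i + 1) (by simpa using hi)
        rw [e2] at this
        simpa using this

/-- Membership in a list satisfying `POK`, in terms of the `β` function. -/
theorem exists_POK_iff {Q : ℕ → (ℕ → Prop) → Prop} {x : ℕ} :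
    (∃ l, POK Q l ∧ x ∈ l) ↔ ∃ s n, (∃ i, i < n ∧ Nat.beta s i = x) ∧
      ∀ i, i < n → Q (Nat.beta s i) fun a => ∃ j, i < j ∧ j < n ∧ Nat.beta s j = a := by
  constructor
  · rintro ⟨l, h1, h2⟩
    obtain ⟨s, hs⟩ := exists_beta (fun i => l.getD i 0) l.length
    refine ⟨s, l.length, ?_, ?_⟩
    · obtain ⟨i, hi, h⟩ := List.mem_iff_getElem.1 h2
      exact ⟨i, hi, by rw [hs i (by omega), List.getD_eq_getElem _ _ hi, h]⟩
    · intro i hi
      rw [POK_iff] at h1
      have := h1 i hi
      rw [hs i (by omega)]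
      have e : (fun a => ∃ j, i < j ∧ j < l.length ∧ Nat.beta s j = a) =
          fun a => ∃ j, i < j ∧ j < l.length ∧ l.getD j 0 = a := by
        funext a
        refine propext (exists_congr fun j => and_congr_right fun _ => and_congr_right fun hj => ?_)
        rw [hs j (by omega)]
      rw [e]; exact this
  · rintro ⟨s, n, ⟨i, hi, h1⟩, h2⟩
    refine ⟨List.ofFn fun k : Fin n => Nat.beta s k, ?_, ?_⟩
    · rw [POK_iff]
      intro k hk
      have hk' : k < n := by simpa using hk
      have e : ∀ j, j < n → (List.ofFn fun k : Fin n => Nat.beta s k).getD j 0 = Nat.beta s j := by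
        intro j hj
        rw [List.getD_eq_getElem _ _ (by simpa using hj)]
        simp
      rw [e k hk']
      have e' : (fun a => ∃ j, k < j ∧ j < (List.ofFn fun k : Fin n => Nat.beta s k).length ∧
          (List.ofFn fun k : Fin n => Nat.beta s k).getD j 0 = a) =
          fun a => ∃ j, k < j ∧ j < n ∧ Nat.beta s j = a := by
        funext a
        rw [List.length_ofFn]
        refine propext (exists_congr fun j => and_congr_right fun _ => and_congr_right fun hj => ?_)
        rw [e j hj]
      rw [e']; exact h2 k hk'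
    · rw [List.mem_ofFn]
      exact ⟨⟨i, hi⟩, h1⟩

/-- The set generated from `B` by a rule with two premises. -/
inductive Gen (B : ℕ → Prop) (R : ℕ → ℕ → ℕ → Prop) : ℕ → Prop
  | base {x : ℕ} : B x → Gen B R x
  | step {a b x : ℕ} : Gen B R a → Gen B R b → R a b x → Gen B R x

theorem Gen.elim {B : ℕ → Prop} {R : ℕ → ℕ → ℕ → Prop} {C : ℕ → Prop} {n : ℕ} (h : Gen B R n)
    (hB : ∀ x, B x → C x) (hR : ∀ a b x, C a → C b → R a b x → C x) : C n := by
  induction h with
  | base h => exact hB _ h
  | step _ _ h ih1 ih2 => exact hR _ _ _ ih1 ih2 h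

/-- The step relation of `Gen`. -/
def GenQ (B : ℕ → Prop) (R : ℕ → ℕ → ℕ → Prop) (e : ℕ) (S : ℕ → Prop) : Prop :=
  B e ∨ ∃ a b, S a ∧ S b ∧ R a b e

theorem Gen.iff {B : ℕ → Prop} {R : ℕ → ℕ → ℕ → Prop} {x : ℕ} :
    Gen B R x ↔ ∃ l, POK (GenQ B R) l ∧ x ∈ l := by
  have mono : ∀ e S S', (∀ a, S a → S' a) → GenQ B R e S → GenQ B R e S' := by
    rintro e S S' h (h' | ⟨a, b, ha, hb, h'⟩)
    · exact Or.inl h'
    · exact Or.inr ⟨a, b, h a ha, h b hb, h'⟩
  constructor
  · intro h
    induction h with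
    | @base x h => exact ⟨[x], ⟨Or.inl h, trivial⟩, by simp⟩
    | @step a b x _ _ hR ih1 ih2 =>
      obtain ⟨l1, h1, m1⟩ := ih1
      obtain ⟨l2, h2, m2⟩ := ih2
      refine ⟨x :: (l1 ++ l2), ⟨Or.inr ⟨a, b, List.mem_append_left _ m1,
        List.mem_append_right _ m2, hR⟩, POK.append mono h1 h2⟩, by simp⟩
  · rintro ⟨l, h, hx⟩
    induction l generalizing x with
    | nil => simp at hx
    | cons e l ih =>
      rcases List.mem_cons.1 hx with rfl | hx
      · rcases h.1 with h' | ⟨a, b, ha, hb, h'⟩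
        · exact .base h'
        · exact .step (ih h.2 ha) (ih h.2 hb) h'
      · exact ih h.2 hx

theorem Gen.ua {B : ℕ → Prop} {R : ℕ → ℕ → ℕ → Prop} (hB : UA fun n _ => B n)
    (hR : UA fun n _ => R n.unpair.1 n.unpair.2.unpair.1 n.unpair.2.unpair.2) {f : ℕ → ℕ}
    (hf : UG f) : UA fun n _ => Gen B R (f n) := by
  have hB' : ∀ {f : ℕ → ℕ}, UG f → UA fun n _ => B (f n) := fun hf => hB.comp hf
  have hR' : ∀ {f g h : ℕ → ℕ}, UG f → UG g → UG h → UA fun n _ => R (f n) (g n) (h n) :=
    fun hf hg hh => (hR.comp (hf.pair (hg.pair hh))).congr fun n _ => by simp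
  have : UA fun x _ => ∃ s n, (∃ i, i < n ∧ Nat.beta s i = x) ∧
      ∀ i, i < n → (B (Nat.beta s i) ∨ ∃ a b, (∃ j, i < j ∧ j < n ∧ Nat.beta s j = a) ∧
        (∃ j, i < j ∧ j < n ∧ Nat.beta s j = b) ∧ R a b (Nat.beta s i)) := by
    (repeat' with_reducible first
        | apply hB' | apply hR' | apply UA.ex | apply UA.all | apply UA.eq | apply UA.mem | apply UA.ne | apply UA.le
        | apply UA.lt | apply UA.and | apply UA.or | apply UA.iff | apply UA.not
        | apply UA.imp | apply UA.false) <;>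
      (repeat' with_reducible first
        | exact UG.id | apply UG.const | apply UG.left | apply UG.right | apply UG.pair
        | apply UG.add | apply UG.mul | apply UG.beta | apply UG.succ)
  refine UA.comp (P := fun n _ => Gen B R n) (this.congr fun x _ => ?_) hf
  rw [Gen.iff, exists_POK_iff]
  rfl

end Pool.Agent.H899SOA
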