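import Pool.Agent.H899SOA.Sem

namespace Pool.Agent.H899SOA

open Function

/-! ### Identity substitutions -/

theorem Tm.subst_self (x : ℕ) : ∀ r : Tm, r.subst x (.var x) = r
  | .var y => by
      by_cases h : y = x
      · subst h; simp [Tm.subst]
      · simp [Tm.subst, h]
  | .zero => rfl
  | .succ s => by simp only [Tm.subst, Tm.subst_self x s]
  | .add r s => by simp only [Tm.subst, Tm.subst_self x s, Tm.subst_self x r]
  | .mul r s => by simp only [Tm.subst, Tm.subst_self x s, Tm.subst_self x r]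

theorem Sub.self (x : ℕ) : ∀ φ : Fm, Sub x (.var x) φ φ
  | .eq s t => by
      have := Sub.eq (x := x) (t := .var x) s t
      rwa [Tm.subst_self, Tm.subst_self] at this
  | .mem t X => by
      have := Sub.mem (x := x) (t := .var x) t X
      rwa [Tm.subst_self] at this
  | .bot => Sub.same fun h => h
  | .imp φ ψ => Sub.imp (Sub.self x φ) (Sub.self x ψ)
  | .all y φ => by
      by_cases h : y = x
      · exact Sub.same fun h' => h'.1 h
      · exact Sub.all h (fun h' => h h'.symm) (Sub.self x φ)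
  | .All Y φ => Sub.All (Sub.self x φ)

theorem SubS.self (X : ℕ) : ∀ φ : Fm, SubS X X φ φ
  | .eq s t => SubS.same fun h => h
  | .mem t Y => by
      by_cases h : Y = X
      · subst h; exact SubS.mem t
      · exact SubS.same h
  | .bot => SubS.same fun h => h
  | .imp φ ψ => SubS.imp (SubS.self X φ) (SubS.self X ψ)
  | .all y φ => SubS.all (SubS.self X φ)
  | .All Y φ => by
      by_cases h : Y = X
      · exact SubS.same fun h' => h'.1 h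
      · exact SubS.All h h (SubS.self X φ)

/-! ### Derivations from hypotheses -/

/-- `Ent A Γ φ`: `φ` is derivable from `A` under the hypotheses `Γ`. -/
def Ent (A : Set Fm) : List Fm → Fm → Prop
  | [], φ => Derives A φ
  | γ :: Γ, φ => Ent A Γ (.imp γ φ)

variable {A : Set Fm}

theorem Ent.thm {φ : Fm} (h : Derives A φ) : ∀ (Γ : List Fm), Ent A Γ φ
  | [] => h
  | γ :: Γ => Ent.thm (Derives.mp (Derives.log (.k φ γ)) h) Γ

theorem Ent.mp : ∀ {Γ : List Fm} {φ ψ : Fm}, Ent A Γ (.imp φ ψ) → Ent A Γ φ → Ent A Γ ψ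
  | [], _, _, h1, h2 => Derives.mp h1 h2
  | γ :: Γ, φ, ψ, h1, h2 =>
    Ent.mp (Γ := Γ) (Ent.mp (Γ := Γ) (Ent.thm (Derives.log (.s γ φ ψ)) Γ) h1) h2

theorem Ent.intro {Γ : List Fm} {φ ψ : Fm} (h : Ent A (φ :: Γ) ψ) : Ent A Γ (.imp φ ψ) := h

theorem Ent.weak {Γ : List Fm} {φ ψ : Fm} (h : Ent A Γ ψ) : Ent A (φ :: Γ) ψ :=
  Ent.mp (Γ := Γ) (Ent.thm (Derives.log (.k ψ φ)) Γ) h

theorem Derives.imp_self (φ : Fm) : Derives A (.imp φ φ) :=
  Derives.mp (Derives.mp (Derives.log (.s φ (.imp φ φ) φ)) (Derives.log (.k φ (.imp φ φ))))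
    (Derives.log (.k φ φ))

theorem Ent.hyp : ∀ {Γ : List Fm} {φ : Fm}, φ ∈ Γ → Ent A Γ φ
  | γ :: Γ, φ, h => by
    rcases List.mem_cons.1 h with rfl | h
    · exact Ent.thm (Derives.imp_self _) Γ
    · exact Ent.weak (Ent.hyp h)

theorem Ent.allI {x : ℕ} : ∀ {Γ : List Fm} {φ : Fm}, (∀ γ ∈ Γ, ¬ γ.Free x) → Ent A Γ φ →
    Ent A Γ (.all x φ)
  | [], _, _, h => Derives.gen x h
  | γ :: Γ, φ, hΓ, h => by
    have h1 : Ent A Γ (.all x (.imp γ φ)) :=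
      Ent.allI (fun δ hδ => hΓ δ (List.mem_cons_of_mem _ hδ)) h
    exact Ent.mp (Γ := Γ)
      (Ent.thm (Derives.log (.dist (hΓ γ List.mem_cons_self))) Γ) h1

theorem Ent.AllI {X : ℕ} : ∀ {Γ : List Fm} {φ : Fm}, (∀ γ ∈ Γ, ¬ γ.FreeS X) → Ent A Γ φ →
    Ent A Γ (.All X φ)
  | [], _, _, h => Derives.Gen X h
  | γ :: Γ, φ, hΓ, h => by
    have h1 : Ent A Γ (.All X (.imp γ φ)) :=
      Ent.AllI (fun δ hδ => hΓ δ (List.mem_cons_of_mem _ hδ)) h
    exact Ent.mp (Γ := Γ)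
      (Ent.thm (Derives.log (.distS (hΓ γ List.mem_cons_self))) Γ) h1

theorem Ent.allE {x : ℕ} {Γ : List Fm} {φ : Fm} (h : Ent A Γ (.all x φ)) : Ent A Γ φ :=
  Ent.mp (Ent.thm (Derives.log (.inst (Sub.self x φ))) Γ) h

theorem Ent.AllE {X : ℕ} {Γ : List Fm} {φ : Fm} (h : Ent A Γ (.All X φ)) : Ent A Γ φ :=
  Ent.mp (Ent.thm (Derives.log (.instS (SubS.self X φ))) Γ) h

theorem Ent.raa {Γ : List Fm} {φ : Fm} (h : Ent A (φ.neg :: Γ) .bot) : Ent A Γ φ :=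
  Ent.mp (Ent.thm (Derives.log (.dne φ)) Γ) (Ent.intro h)

theorem Ent.exfalso {Γ : List Fm} {φ : Fm} (h : Ent A Γ .bot) : Ent A Γ φ := Ent.raa (Ent.weak h)

theorem Ent.andL {Γ : List Fm} {φ ψ : Fm} (h : Ent A Γ (φ.and ψ)) : Ent A Γ φ := by
  refine Ent.raa (Ent.mp (Ent.weak h) (Ent.intro ?_))
  exact Ent.exfalso (Ent.mp (φ := φ) (Ent.hyp (by simp [Fm.neg])) (Ent.hyp (by simp)))

theorem Ent.andR {Γ : List Fm} {φ ψ : Fm} (h : Ent A Γ (φ.and ψ)) : Ent A Γ ψ := by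
  refine Ent.raa (Ent.mp (Ent.weak h) (Ent.intro ?_))
  exact Ent.hyp (by simp)

theorem Ent.andI {Γ : List Fm} {φ ψ : Fm} (h1 : Ent A Γ φ) (h2 : Ent A Γ ψ) :
    Ent A Γ (φ.and ψ) := by
  refine Ent.intro (φ := φ.imp ψ.neg) ?_
  exact Ent.mp (φ := ψ) (Ent.mp (φ := φ) (Ent.hyp (by simp [Fm.neg])) (Ent.weak h1)) (Ent.weak h2)

theorem Ent.cases {Γ : List Fm} {φ ψ : Fm} (h1 : Ent A (φ :: Γ) ψ) (h2 : Ent A (φ.neg :: Γ) ψ) :
    Ent A Γ ψ := by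
  refine Ent.raa ?_
  have h3 : Ent A (ψ.neg :: Γ) φ.neg := by
    refine Ent.intro (φ := φ) ?_
    refine Ent.mp (φ := ψ) (Ent.hyp (by simp [Fm.neg])) ?_
    exact Ent.mp (φ := φ) (Ent.weak (Ent.weak (Ent.intro h1))) (Ent.hyp (by simp))
  exact Ent.mp (φ := ψ) (Ent.hyp (by simp [Fm.neg])) (Ent.mp (Ent.weak (Ent.intro h2)) h3)

theorem Ent.exI {x : ℕ} {Γ : List Fm} {φ : Fm} (h : Ent A Γ φ) : Ent A Γ (.ex x φ) := by
  refine Ent.intro (φ := .all x φ.neg) ?_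
  exact Ent.mp (φ := φ) (Ent.allE (x := x) (Ent.hyp (by simp [Fm.neg]))) (Ent.weak h)

theorem Ent.exE {x : ℕ} {Γ : List Fm} {φ ψ : Fm} (hΓ : ∀ γ ∈ Γ, ¬ γ.Free x) (hψ : ¬ ψ.Free x)
    (h : Ent A Γ (.ex x φ)) (h' : Ent A (φ :: Γ) ψ) : Ent A Γ ψ := by
  refine Ent.raa ?_
  refine Ent.mp (Ent.weak h) ?_
  refine Ent.allI ?_ ?_
  · intro γ hγ
    rcases List.mem_cons.1 hγ with rfl | hγ
    · simpa [Fm.neg, Fm.Free] using hψ
    · exact hΓ γ hγ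
  · refine Ent.intro (φ := φ) ?_
    refine Ent.mp (φ := ψ) (Ent.hyp (by simp [Fm.neg])) ?_
    exact Ent.mp (φ := φ) (Ent.weak (Ent.weak (Ent.intro h'))) (Ent.hyp (by simp))

end Pool.Agent.H899SOA
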