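import Pool.Agent.H899SOA.Logic

namespace Pool.Agent.H899SOA

open Function

section free
variable {x X : ℕ} {φ ψ : Fm} {s t : Tm} {y Y : ℕ}
@[simp] theorem free_eq : (Fm.eq s t).Free x ↔ s.Occ x ∨ t.Occ x := Iff.rfl
@[simp] theorem free_mem : (Fm.mem t X).Free x ↔ t.Occ x := Iff.rfl
@[simp] theorem free_bot : Fm.bot.Free x ↔ False := Iff.rfl
@[simp] theorem free_imp : (φ.imp ψ).Free x ↔ φ.Free x ∨ ψ.Free x := Iff.rfl
@[simp] theorem free_all : (φ.all y).Free x ↔ y ≠ x ∧ φ.Free x := Iff.rfl
@[simp] theorem free_All : (φ.All Y).Free x ↔ φ.Free x := Iff.rfl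
@[simp] theorem free_neg : φ.neg.Free x ↔ φ.Free x := by simp [Fm.neg]
@[simp] theorem free_and : (φ.and ψ).Free x ↔ φ.Free x ∨ ψ.Free x := by simp [Fm.and]
@[simp] theorem free_or : (φ.or ψ).Free x ↔ φ.Free x ∨ ψ.Free x := by simp [Fm.or]
@[simp] theorem free_iff : (φ.iff ψ).Free x ↔ φ.Free x ∨ ψ.Free x := by simp [Fm.iff]; tauto
@[simp] theorem free_ex : (φ.ex y).Free x ↔ y ≠ x ∧ φ.Free x := by simp [Fm.ex]
@[simp] theorem free_Ex : (φ.Ex Y).Free x ↔ φ.Free x := by simp [Fm.Ex]
@[simp] theorem freeS_eq : (Fm.eq s t).FreeS X ↔ False := Iff.rfl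
@[simp] theorem freeS_mem : (Fm.mem t Y).FreeS X ↔ Y = X := Iff.rfl
@[simp] theorem freeS_bot : Fm.bot.FreeS X ↔ False := Iff.rfl
@[simp] theorem freeS_imp : (φ.imp ψ).FreeS X ↔ φ.FreeS X ∨ ψ.FreeS X := Iff.rfl
@[simp] theorem freeS_all : (φ.all y).FreeS X ↔ φ.FreeS X := Iff.rfl
@[simp] theorem freeS_All : (φ.All Y).FreeS X ↔ Y ≠ X ∧ φ.FreeS X := Iff.rfl
@[simp] theorem freeS_neg : φ.neg.FreeS X ↔ φ.FreeS X := by simp [Fm.neg]
@[simp] theorem freeS_and : (φ.and ψ).FreeS X ↔ φ.FreeS X ∨ ψ.FreeS X := by simp [Fm.and]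
@[simp] theorem freeS_or : (φ.or ψ).FreeS X ↔ φ.FreeS X ∨ ψ.FreeS X := by simp [Fm.or]
@[simp] theorem freeS_iff : (φ.iff ψ).FreeS X ↔ φ.FreeS X ∨ ψ.FreeS X := by
  simp [Fm.iff]; tauto
@[simp] theorem freeS_ex : (φ.ex y).FreeS X ↔ φ.FreeS X := by simp [Fm.ex]
@[simp] theorem freeS_Ex : (φ.Ex Y).FreeS X ↔ Y ≠ X ∧ φ.FreeS X := by simp [Fm.Ex]
@[simp] theorem occ_var : (Tm.var y).Occ x ↔ y = x := Iff.rfl
@[simp] theorem occ_zero : Tm.zero.Occ x ↔ False := Iff.rfl
@[simp] theorem occ_succ : t.succ.Occ x ↔ t.Occ x := Iff.rfl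
@[simp] theorem occ_add : (s.add t).Occ x ↔ s.Occ x ∨ t.Occ x := Iff.rfl
@[simp] theorem occ_mul : (s.mul t).Occ x ↔ s.Occ x ∨ t.Occ x := Iff.rfl
@[simp] theorem arith_eq : (Fm.eq s t).IsArith := trivial
@[simp] theorem arith_mem : (Fm.mem s X).IsArith := trivial
@[simp] theorem arith_bot : Fm.bot.IsArith := trivial
@[simp] theorem arith_imp : (φ.imp ψ).IsArith ↔ φ.IsArith ∧ ψ.IsArith := Iff.rfl
@[simp] theorem arith_all : (φ.all y).IsArith ↔ φ.IsArith := Iff.rfl
@[simp] theorem arith_All : (φ.All y).IsArith ↔ False := Iff.rfl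
@[simp] theorem arith_neg : φ.neg.IsArith ↔ φ.IsArith := by simp [Fm.neg]
@[simp] theorem arith_and : (φ.and ψ).IsArith ↔ φ.IsArith ∧ ψ.IsArith := by simp [Fm.and]
@[simp] theorem arith_or : (φ.or ψ).IsArith ↔ φ.IsArith ∧ ψ.IsArith := by simp [Fm.or]
@[simp] theorem arith_iff : (φ.iff ψ).IsArith ↔ φ.IsArith ∧ ψ.IsArith := by
  simp [Fm.iff]; tauto
@[simp] theorem arith_ex : (φ.ex y).IsArith ↔ φ.IsArith := by simp [Fm.ex]
end free

/-- Numerals. -/
def num : ℕ → Tm
  | 0 => .zero
  | n + 1 => .succ (num n)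

@[simp] theorem num_val (v : ℕ → ℕ) : ∀ n, (num n).val v = n
  | 0 => rfl
  | n + 1 => by simp [num, Tm.val, num_val v n]

@[simp] theorem num_occ (x : ℕ) : ∀ n, (num n).Occ x ↔ False
  | 0 => Iff.rfl
  | n + 1 => by simp [num, num_occ x n]

/-- `v₀ ≤ v₃`. -/
def le03 : Fm := .ex 4 (.eq (.add (.var 0) (.var 4)) (.var 3))

theorem le03_sat (v V) : le03.Sat v V ↔ v 0 ≤ v 3 := by
  simp only [le03, Fm.sat_ex, Fm.sat_eq, Tm.val]
  constructor
  · rintro ⟨n, hn⟩
    simp at hn; omega
  · intro h
    exact ⟨v 3 - v 0, by simp; omega⟩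

@[simp] theorem le03_free {x : ℕ} : le03.Free x ↔ x = 0 ∨ x = 3 := by
  simp only [le03, free_ex, free_eq, occ_add, occ_var]; omega
@[simp] theorem le03_freeS {X : ℕ} : le03.FreeS X ↔ False := by simp [le03]
@[simp] theorem le03_arith : le03.IsArith := by simp [le03]

namespace Arithmetization

variable (R : Arithmetization)

/-- The sentence saying that every proof using a non-logical axiom uses a largest one. -/
def MaxUse : Fm :=
  .all 1 (.imp (.ex 0 R.use) (.ex 3 (.and (.ex 0 (.and (.eq (.var 3) (.var 0)) R.use))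
    (.all 0 (.imp R.use le03)))))

/-- The body of the Feferman-style definition: `τ₀(v₀)`, and every `Π¹₁` sentence with a proof
all of whose axioms satisfy `τ₀` and are `≤ v₀` is true. -/
def body (τ₀ : Fm) : Fm :=
  .and τ₀ (.all 3 (.imp (.eq (.var 3) (.var 0)) (.all 1 (.all 2 (.imp R.pi (.imp R.prf
    (.imp (.all 0 (.imp R.use (.and τ₀ le03))) R.trM)))))))

/-- The Feferman-style `Π¹₁` definition. -/
def tau (τ₀ : Fm) : Fm := .All R.trX (R.body τ₀)

variable {R}

theorem derives_reflection {A : Set Fm} {τ₀ : Fm} (hτ : ∀ x, τ₀.Free x → x = 0)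
    (h1 : R.MaxUse ∈ A) (h2 : R.Reflection .bot ∈ A) :
    Derives A (R.Reflection (R.tau τ₀)) := by
  -- free variable facts
  have hpi1 : ¬ R.pi.Free 1 := fun h => by have := R.pi_free _ h; omega
  have hpi3 : ¬ R.pi.Free 3 := fun h => by have := R.pi_free _ h; omega
  have hpi0 : ¬ R.pi.Free 0 := fun h => by have := R.pi_free _ h; omega
  have hprf3 : ¬ R.prf.Free 3 := fun h => by have := R.prf_free _ h; omega
  have hprf0 : ¬ R.prf.Free 0 := fun h => by have := R.prf_free _ h; omega
  have huse3 : ¬ R.use.Free 3 := fun h => by have := R.use_free _ h; omega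
  have htr1 : ¬ R.trM.Free 1 := fun h => by have := R.trM_free _ h; omega
  have htr3 : ¬ R.trM.Free 3 := fun h => by have := R.trM_free _ h; omega
  have htr0 : ¬ R.trM.Free 0 := fun h => by have := R.trM_free _ h; omega
  have hτ1 : ¬ τ₀.Free 1 := fun h => by have := hτ _ h; omega
  have hτ2 : ¬ τ₀.Free 2 := fun h => by have := hτ _ h; omega
  have hτ3 : ¬ τ₀.Free 3 := fun h => by have := hτ _ h; omega
  -- the hypotheses in force
  set H : Fm := .all 0 (.imp R.use (R.tau τ₀)) with hH
  have hH0 : ¬ H.Free 0 := by simp [hH]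
  have hH3 : ¬ H.Free 3 := by
    simp [hH, tau, body, huse3, hτ3]
  have hHS : ¬ H.FreeS R.trX := by
    simp [hH, tau, R.use_freeS]
  set M : Fm := .all 0 (.imp R.use le03) with hM
  have hM0 : ¬ M.Free 0 := by simp [hM]
  have hMS : ¬ M.FreeS R.trX := by simp [hM, R.use_freeS]
  set L : Fm := .all 0 (.imp R.use (.and τ₀ le03)) with hL
  have base : Ent A [] (R.Reflection (R.tau τ₀)) := by
    unfold Reflection
    refine Ent.allI (by simp) ?_
    refine Ent.intro (φ := R.pi) (Ent.intro (φ := R.Pr (R.tau τ₀)) ?_)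
    refine Ent.exE (x := 1) (φ := .and R.prf H) ?_ ?_ (Ent.hyp (by simp [Pr, hH])) ?_
    · intro γ hγ
      simp only [List.mem_cons, List.not_mem_nil, or_false] at hγ
      rcases hγ with rfl | rfl
      · simp [Pr]
      · exact hpi1
    · simpa [tr] using htr1
    -- context: prf ∧ H, Pr, pi
    -- replace the context by [H, prf, pi]
    have key : Ent A [H, R.prf, R.pi] R.tr := by
      refine Ent.cases (φ := .ex 0 R.use) ?_ ?_
      · -- some axiom is used
        have hmax : Ent A [.ex 0 R.use, H, R.prf, R.pi] (.ex 3 (.and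
            (.ex 0 (.and (.eq (.var 3) (.var 0)) R.use)) M)) := by
          refine Ent.mp (φ := .ex 0 R.use) ?_ (Ent.hyp (by simp))
          exact Ent.allE (x := 1) (Ent.thm (Derives.ax h1) _)
        refine Ent.exE (x := 3) ?_ ?_ hmax ?_
        · intro γ hγ
          simp only [List.mem_cons, List.not_mem_nil, or_false] at hγ
          rcases hγ with rfl | rfl | rfl | rfl
          · simp [huse3]
          · exact hH3
          · exact hprf3
          · exact hpi3
        · simpa [tr] using htr3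
        -- split the conjunction
        have key2 : Ent A [M, .ex 0 (.and (.eq (.var 3) (.var 0)) R.use), H, R.prf, R.pi]
            R.tr := by
          have hLd : Ent A [M, .ex 0 (.and (.eq (.var 3) (.var 0)) R.use), H, R.prf, R.pi] L := by
            refine Ent.allI ?_ ?_
            · intro γ hγ
              simp only [List.mem_cons, List.not_mem_nil, or_false] at hγ
              rcases hγ with rfl | rfl | rfl | rfl | rfl
              · exact hM0
              · simp
              · exact hH0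
              · exact hprf0
              · exact hpi0
            · refine Ent.intro (φ := R.use) (Ent.andI ?_ ?_)
              · have : Ent A [R.use, M, .ex 0 (.and (.eq (.var 3) (.var 0)) R.use), H, R.prf,
                    R.pi] (R.tau τ₀) := by
                  refine Ent.mp (φ := R.use) ?_ (Ent.hyp (by simp))
                  exact Ent.allE (x := 0) (Ent.hyp (by simp [hH]))
                exact Ent.andL (Ent.AllE this)
              · refine Ent.mp (φ := R.use) ?_ (Ent.hyp (by simp))
                exact Ent.allE (x := 0) (Ent.hyp (by simp [hM]))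
          refine Ent.exE (x := 0) (φ := .and (.eq (.var 3) (.var 0)) R.use) ?_ ?_
            (Ent.hyp (by simp)) ?_
          · intro γ hγ
            simp only [List.mem_cons, List.not_mem_nil, or_false] at hγ
            rcases hγ with rfl | rfl | rfl | rfl | rfl
            · exact hM0
            · simp
            · exact hH0
            · exact hprf0
            · exact hpi0
          · simpa [tr] using htr0
          · refine Ent.AllI ?_ ?_
            · intro γ hγ
              simp only [List.mem_cons, List.not_mem_nil, or_false] at hγ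
              rcases hγ with rfl | rfl | rfl | rfl | rfl | rfl
              · simp [R.use_freeS]
              · exact hMS
              · simp [R.use_freeS]
              · exact hHS
              · exact R.prf_freeS _
              · exact R.pi_freeS _
            · set Γ : List Fm := [.and (.eq (.var 3) (.var 0)) R.use, M,
                .ex 0 (.and (.eq (.var 3) (.var 0)) R.use), H, R.prf, R.pi] with hΓ
              have g0 : Ent A Γ (.and (.eq (.var 3) (.var 0)) R.use) := Ent.hyp (by simp [hΓ])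
              have g1 : Ent A Γ (R.tau τ₀) := by
                refine Ent.mp (φ := R.use) ?_ (Ent.andR g0)
                exact Ent.allE (x := 0) (Ent.hyp (by simp [hH, hΓ]))
              have g2 := Ent.andR (Ent.AllE g1)
              have g3 := Ent.mp (Ent.allE g2) (Ent.andL g0)
              have g4 := Ent.allE (Ent.allE g3)
              have g5 := Ent.mp g4 (Ent.hyp (by simp [hΓ]))
              have g6 := Ent.mp g5 (Ent.hyp (by simp [hΓ]))
              exact Ent.mp g6 (Ent.weak hLd)
        refine Ent.mp (φ := M) (Ent.mp (φ := .ex 0 (.and (.eq (.var 3) (.var 0)) R.use)) ?_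
          (Ent.andL (Ent.hyp (by simp; left; rfl)))) (Ent.andR (Ent.hyp (by simp; left; rfl)))
        refine Ent.intro (Ent.intro ?_)
        -- weakening
        have : Ent A [] (.imp R.pi (.imp R.prf (.imp H (.imp (.ex 0 (.and (.eq (.var 3) (.var 0))
            R.use)) (.imp M R.tr))))) := key2
        have this' : Ent A [M, .ex 0 (.and (.eq (.var 3) (.var 0)) R.use),
            .and (.ex 0 (.and (.eq (.var 3) (.var 0)) R.use)) M, .ex 0 R.use, H, R.prf, R.pi]
            (.imp R.pi (.imp R.prf (.imp H (.imp (.ex 0 (.and (.eq (.var 3) (.var 0))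
            R.use)) (.imp M R.tr))))) := Ent.thm this _
        exact Ent.mp (Ent.mp (Ent.mp (Ent.mp (Ent.mp this' (Ent.hyp (by simp)))
          (Ent.hyp (by simp))) (Ent.hyp (by simp))) (Ent.hyp (by simp))) (Ent.hyp (by simp))
      · -- no axiom is used
        have hr : Ent A [(Fm.ex 0 R.use).neg, H, R.prf, R.pi] (.imp R.pi (.imp (R.Pr .bot) R.tr)) :=
          Ent.allE (x := 2) (Ent.thm (Derives.ax h2) _)
        refine Ent.mp (Ent.mp hr (Ent.hyp (by simp))) ?_
        unfold Pr
        refine Ent.exI (Ent.andI (Ent.hyp (by simp)) ?_)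
        refine Ent.allI ?_ ?_
        · intro γ hγ
          simp only [List.mem_cons, List.not_mem_nil, or_false] at hγ
          rcases hγ with rfl | rfl | rfl | rfl
          · simp
          · exact hH0
          · exact hprf0
          · exact hpi0
        · refine Ent.intro (φ := R.use) ?_
          refine Ent.mp (φ := .ex 0 R.use) (Ent.hyp (by simp [Fm.neg])) ?_
          exact Ent.exI (Ent.hyp (by simp))
    have this : Ent A [] (.imp R.pi (.imp R.prf (.imp H R.tr))) := key
    have this' : Ent A [.and R.prf H, R.Pr (R.tau τ₀), R.pi]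
        (.imp R.pi (.imp R.prf (.imp H R.tr))) := Ent.thm this _
    exact Ent.mp (Ent.mp (Ent.mp this' (Ent.hyp (by simp)))
      (Ent.andL (Ent.hyp (List.mem_cons_self)))) (Ent.andR (Ent.hyp (List.mem_cons_self)))
  exact base

theorem prf_sat (v V) : R.prf.Sat v V ↔ R.prf.Holds 0 (v 1) (v 2) :=
  R.prf.sat_congr (fun x hx => by rcases R.prf_free x hx with rfl | rfl <;> rfl)
    fun X hX => absurd hX (R.prf_freeS X)

theorem use_sat (v V) : R.use.Sat v V ↔ R.use.Holds (v 0) (v 1) 0 :=
  R.use.sat_congr (fun x hx => by rcases R.use_free x hx with rfl | rfl <;> rfl)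
    fun X hX => absurd hX (R.use_freeS X)

theorem pi_sat (v V) : R.pi.Sat v V ↔ R.pi.Holds 0 0 (v 2) :=
  R.pi.sat_congr (fun x hx => by rw [R.pi_free x hx]; rfl) fun X hX => absurd hX (R.pi_freeS X)

theorem tr_sat (v V) : R.tr.Sat v V ↔ R.tr.Holds 0 0 (v 2) := by
  refine R.tr.sat_congr (fun x hx => ?_) fun X hX => ?_
  · have := R.trM_free x (by simpa [tr] using hx)
    rw [this]; rfl
  · exfalso
    simp only [tr, freeS_All] at hX
    exact hX.1 (R.trM_freeS X hX.2).symm

/-- Truth of the sentence `Reflection ⊥`: pure logic is `Π¹₁`-sound. -/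
theorem reflection_bot_true : (R.Reflection .bot).True := by
  intro v V
  simp only [Reflection, Pr, Fm.sat_all, Fm.sat_imp, Fm.sat_ex, Fm.sat_and, Fm.sat_bot]
  intro n hn
  rintro ⟨p, hp, hu⟩
  rw [pi_sat] at hn
  rw [prf_sat] at hp
  simp only [update_self] at hn
  obtain ⟨φ, h1, h2, h3⟩ := (R.pi_correct n).1 hn
  have hd : Derives ∅ φ := by
    rw [R.prf_correct ∅ (by simp)]
    refine ⟨p, ?_, ?_⟩
    · simpa [h3] using hp
    · intro a ha
      have := hu a
      rw [use_sat] at this
      exact absurd (by simpa using ha) this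
  rw [tr_sat]
  have := (R.tr_correct φ h1 h2).2 (hd.true (by simp))
  simpa [tr, h3] using this

theorem maxUse_true : R.MaxUse.True := by
  intro v V
  simp only [MaxUse, Fm.sat_all, Fm.sat_imp, Fm.sat_ex, Fm.sat_and, Fm.sat_eq, le03_sat, use_sat,
    Tm.val]
  intro p
  rintro ⟨a, ha⟩
  have ha' : R.use.Holds a p 0 := by simpa using ha
  obtain ⟨m, hm, hmax⟩ := (R.use_finite p).exists_le_maximal ha'
  refine ⟨m, ⟨m, by simp, by simpa using hmax.1⟩, ?_⟩
  intro b hb
  have hb' : R.use.Holds b p 0 := by simpa using hb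
  have : b ≤ m := by
    by_contra hlt
    exact absurd (hmax.2 hb' (by omega)) hlt
  simpa using this

theorem Fm.Holds_def (φ : Fm) (a b c : ℕ) : φ.Holds a b c ↔ φ.Sat (env a b c) fun _ => ∅ := Iff.rfl

variable (R) in
/-- The theory. -/
def Th : Set Fm := Sigma11AC0 ∪ {R.MaxUse, R.Reflection .bot}

theorem maxUse_sentence : R.MaxUse.Sentence := by
  constructor
  · intro x
    simp only [MaxUse, free_all, free_imp, free_ex, free_and, free_eq, occ_var, le03_free]
    rintro ⟨h1, (⟨h0, h⟩ | ⟨h3, (⟨h0, h | h⟩ | ⟨h0, h | h⟩)⟩)⟩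
    · rcases R.use_free x h with h | h <;> omega
    · omega
    · rcases R.use_free x h with h | h <;> omega
    · rcases R.use_free x h with h | h <;> omega
    · omega
  · intro X
    simp [MaxUse, R.use_freeS]

theorem reflection_sentence {τ : Fm} (h0 : ∀ x, τ.Free x → x = 0) (hS : ∀ X, ¬ τ.FreeS X) :
    (R.Reflection τ).Sentence := by
  constructor
  · intro x
    simp only [Reflection, Pr, tr, free_all, free_imp, free_ex, free_and, free_All]
    rintro ⟨h2, h | ⟨h1, h | ⟨h0', h | h⟩⟩ | h⟩
    · exact h2 (R.pi_free x h).symm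
    · rcases R.prf_free x h with h | h <;> omega
    · rcases R.use_free x h with h | h <;> omega
    · exact h0' (h0 x h).symm
    · exact h2 (R.trM_free x h).symm
  · intro X
    simp only [Reflection, Pr, tr, freeS_all, freeS_imp, freeS_ex, freeS_and, freeS_All]
    rintro (h | (h | h | h) | ⟨h, h'⟩)
    · exact R.pi_freeS X h
    · exact R.prf_freeS X h
    · exact R.use_freeS X h
    · exact hS X h
    · exact h (R.trM_freeS X h').symm

theorem Th_sentence {φ : Fm} (h : φ ∈ R.Th) : φ.Sentence := by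
  rcases h with h | rfl | rfl
  · exact h.1
  · exact maxUse_sentence
  · exact reflection_sentence (by simp) (by simp)

theorem Th_true {φ : Fm} (h : φ ∈ R.Th) : φ.True := by
  rcases h with h | rfl | rfl
  · exact sigma11AC0_true h
  · exact maxUse_true
  · exact reflection_bot_true

variable (R) in
/-- The arithmetical definition of the theory, from one of `Σ¹₁-AC₀`. -/
def tau0 (ax : Fm) : Fm :=
  .or ax (.or (.eq (.var 0) (num R.MaxUse.code)) (.eq (.var 0) (num (R.Reflection .bot).code)))

theorem main {ax : Fm} (h1 : ax.IsArith) (h2 : ∀ x, ax.Free x → x = 0) (h3 : ∀ X, ¬ ax.FreeS X)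
    (h4 : ∀ n, ax.Holds n 0 0 ↔ ∃ φ ∈ Sigma11AC0, n = φ.code) :
    ∃ (T : Set Fm) (τ : Fm), (∀ φ ∈ T, φ.Sentence) ∧ Sigma11AC0 ⊆ T ∧ (T \ Sigma11AC0).Finite ∧
      (∀ φ, Derives T φ → φ.True) ∧
      τ.IsPi11 ∧ (∀ x, τ.Free x → x = 0) ∧ (∀ X, ¬ τ.FreeS X) ∧
      (∀ n, τ.Holds n 0 0 ↔ ∃ φ ∈ T, n = φ.code) ∧
      Derives T (R.Reflection τ) := by
  have t1 : (R.tau0 ax).IsArith := by simp [tau0, h1]
  have t2 : ∀ x, (R.tau0 ax).Free x → x = 0 := by
    intro x hx
    simp only [tau0, free_or, free_eq, occ_var, num_occ, or_false] at hx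
    rcases hx with h | h | h
    · exact h2 x h
    · exact h.symm
    · exact h.symm
  have t3 : ∀ X, ¬ (R.tau0 ax).FreeS X := by
    intro X hX
    simp only [tau0, freeS_or, freeS_eq, or_false] at hX
    exact h3 X hX
  have t4 : ∀ v V, (R.tau0 ax).Sat v V ↔ ∃ φ ∈ R.Th, v 0 = φ.code := by
    intro v V
    have : ax.Sat v V ↔ ax.Holds (v 0) 0 0 :=
      ax.sat_congr (fun x hx => by rw [h2 x hx]; rfl) fun X hX => absurd hX (h3 X)
    simp only [tau0, Fm.sat_or, Fm.sat_eq, num_val, Tm.val, this, h4, Th]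
    constructor
    · rintro (⟨φ, hφ, h⟩ | h | h)
      · exact ⟨φ, Or.inl hφ, h⟩
      · exact ⟨_, Or.inr (Or.inl rfl), h⟩
      · exact ⟨_, Or.inr (Or.inr rfl), h⟩
    · rintro ⟨φ, hφ | rfl | rfl, h⟩
      · exact Or.inl ⟨φ, hφ, h⟩
      · exact Or.inr (Or.inl h)
      · exact Or.inr (Or.inr h)
  refine ⟨R.Th, R.tau (R.tau0 ax), fun φ => Th_sentence, Set.subset_union_left,
    (Set.toFinite {R.MaxUse, R.Reflection .bot}).subset ?_,
    fun φ h => h.true fun ψ => Th_true, ?_, ?_, ?_, ?_, ?_⟩
  · rintro φ ⟨h | h, h'⟩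
    · exact absurd h h'
    · exact h
  · refine ⟨R.trX, _, ?_, rfl⟩
    simp [body, t1, R.pi_arith, R.prf_arith, R.use_arith, R.trM_arith]
  · intro x hx
    simp only [tau, body, free_All, free_and, free_all, free_imp, free_eq, occ_var, le03_free] at hx
    rcases hx with h | ⟨h3', (h | h) | ⟨h1', h2', h | h | ⟨h0', h | h | h⟩ | h⟩⟩
    · exact t2 x h
    · omega
    · exact h.symm
    · have := R.pi_free x h; omega
    · have := R.prf_free x h; omega
    · have := R.use_free x h; omega
    · exact t2 x h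
    · omega
    · have := R.trM_free x h; omega
  · intro X hX
    simp only [tau, body, freeS_All, freeS_and, freeS_all, freeS_imp, freeS_eq, le03_freeS] at hX
    obtain ⟨hne, h | h | h | h | (h | h | h) | h⟩ := hX
    · exact t3 X h
    · exact h
    · exact R.pi_freeS X h
    · exact R.prf_freeS X h
    · exact R.use_freeS X h
    · exact t3 X h
    · exact h
    · exact hne (R.trM_freeS X h).symm
  · intro n
    have h0 : (R.tau0 ax).Holds n 0 0 ↔ ∃ φ ∈ R.Th, n = φ.code := t4 _ _
    rw [← h0]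
    constructor
    · intro h
      have := h ∅
      rw [body, Fm.sat_and] at this
      rw [t4] at this
      rw [h0]
      exact this.1
    · intro h A
      rw [body, Fm.sat_and]
      refine ⟨by rw [t4]; rwa [h0] at h, ?_⟩
      simp only [Fm.sat_all, Fm.sat_imp, Fm.sat_eq, Fm.sat_and, Tm.val, prf_sat, pi_sat, use_sat,
        t4, le03_sat]
      intro a ha p x hx hp hu
      simp only [update_self] at hx
      obtain ⟨φ, q1, q2, q3⟩ := (R.pi_correct x).1 hx
      have hd : Derives R.Th φ := by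
        rw [R.prf_correct _ fun φ => Th_sentence]
        refine ⟨p, by simpa [q3] using hp, ?_⟩
        intro b hb
        have := (hu b (by simpa using hb)).1
        simpa using this
      have htr := (R.tr_correct φ q1 q2).2 (hd.true fun ψ => Th_true)
      have htr2 := htr A
      refine (R.trM.sat_congr (fun y hy => ?_) fun Y hY => ?_).1 htr2
      · rw [R.trM_free y hy]
        simp [env, q3]
      · rw [R.trM_freeS Y hY]
  · exact derives_reflection t2 (Or.inr (Or.inl rfl)) (Or.inr (Or.inr rfl))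

end Arithmetization

end Pool.Agent.H899SOA
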