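import Pool.Agent.H899SOA.Defs

namespace Pool.Agent.H899SOA

open Function

theorem Tm.val_congr {v w : ℕ → ℕ} : ∀ t : Tm, (∀ x, t.Occ x → v x = w x) → t.val v = t.val w
  | .var x, h => h x rfl
  | .zero, _ => rfl
  | .succ t, h => by simp only [Tm.val, Tm.val_congr t fun x hx => h x hx]
  | .add s t, h => by
      simp only [Tm.val, Tm.val_congr s fun x hx => h x (Or.inl hx),
        Tm.val_congr t fun x hx => h x (Or.inr hx)]
  | .mul s t, h => by
      simp only [Tm.val, Tm.val_congr s fun x hx => h x (Or.inl hx),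
        Tm.val_congr t fun x hx => h x (Or.inr hx)]

theorem Fm.sat_congr : ∀ (φ : Fm) {v w : ℕ → ℕ} {V W : ℕ → Set ℕ},
    (∀ x, φ.Free x → v x = w x) → (∀ X, φ.FreeS X → V X = W X) → (φ.Sat v V ↔ φ.Sat w W)
  | .eq s t, v, w, V, W, h, _ => by
      simp only [Fm.Sat, Tm.val_congr s fun x hx => h x (Or.inl hx),
        Tm.val_congr t fun x hx => h x (Or.inr hx)]
  | .mem t X, v, w, V, W, h, H => by
      simp only [Fm.Sat, Tm.val_congr t fun x hx => h x hx, H X rfl]
  | .bot, _, _, _, _, _, _ => Iff.rfl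
  | .imp φ ψ, v, w, V, W, h, H => by
      simp only [Fm.Sat, Fm.sat_congr φ (fun x hx => h x (Or.inl hx)) fun X hX => H X (Or.inl hX),
        Fm.sat_congr ψ (fun x hx => h x (Or.inr hx)) fun X hX => H X (Or.inr hX)]
  | .all y φ, v, w, V, W, h, H => by
      refine forall_congr' fun n => Fm.sat_congr φ (fun x hx => ?_) H
      by_cases hxy : x = y
      · subst hxy; simp
      · simp [update_of_ne hxy]; exact h x ⟨fun h => hxy h.symm, hx⟩
  | .All Y φ, v, w, V, W, h, H => by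
      refine forall_congr' fun A => Fm.sat_congr φ h (fun X hX => ?_)
      by_cases hxy : X = Y
      · subst hxy; simp
      · simp [update_of_ne hxy]; exact H X ⟨fun h => hxy h.symm, hX⟩

theorem Fm.Sentence.sat_iff {φ : Fm} (h : φ.Sentence) {v w : ℕ → ℕ} {V W : ℕ → Set ℕ} :
    φ.Sat v V ↔ φ.Sat w W :=
  φ.sat_congr (fun x hx => absurd hx (h.1 x)) fun X hX => absurd hX (h.2 X)

theorem Fm.Sentence.true_iff {φ : Fm} (h : φ.Sentence) (v : ℕ → ℕ) (V : ℕ → Set ℕ) :
    φ.True ↔ φ.Sat v V :=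
  ⟨fun H => H v V, fun H _ _ => h.sat_iff.1 H⟩

theorem Fm.sat_update_of_not_free {φ : Fm} {x : ℕ} (h : ¬ φ.Free x) {v : ℕ → ℕ} {V : ℕ → Set ℕ}
    (n : ℕ) : φ.Sat (update v x n) V ↔ φ.Sat v V := by
  refine φ.sat_congr (fun y hy => update_of_ne ?_ _ _) fun _ _ => rfl
  rintro rfl; exact h hy

theorem Fm.sat_update_of_not_freeS {φ : Fm} {X : ℕ} (h : ¬ φ.FreeS X) {v : ℕ → ℕ}
    {V : ℕ → Set ℕ} (A : Set ℕ) : φ.Sat v (update V X A) ↔ φ.Sat v V := by
  refine φ.sat_congr (fun _ _ => rfl) fun Y hY => update_of_ne ?_ _ _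
  rintro rfl; exact h hY

@[simp] theorem Fm.sat_neg {φ : Fm} {v V} : (φ.neg).Sat v V ↔ ¬ φ.Sat v V := Iff.rfl
@[simp] theorem Fm.sat_imp {φ ψ : Fm} {v V} : (φ.imp ψ).Sat v V ↔ (φ.Sat v V → ψ.Sat v V) := Iff.rfl
@[simp] theorem Fm.sat_bot {v V} : Fm.bot.Sat v V ↔ False := Iff.rfl
@[simp] theorem Fm.sat_and {φ ψ : Fm} {v V} : (φ.and ψ).Sat v V ↔ φ.Sat v V ∧ ψ.Sat v V := by
  simp [Fm.and]
@[simp] theorem Fm.sat_or {φ ψ : Fm} {v V} : (φ.or ψ).Sat v V ↔ φ.Sat v V ∨ ψ.Sat v V := by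
  simp [Fm.or]; tauto
@[simp] theorem Fm.sat_iff {φ ψ : Fm} {v V} : (φ.iff ψ).Sat v V ↔ (φ.Sat v V ↔ ψ.Sat v V) := by
  simp [Fm.iff]; tauto
@[simp] theorem Fm.sat_all {x : ℕ} {φ : Fm} {v V} :
    (φ.all x).Sat v V ↔ ∀ n, φ.Sat (update v x n) V := Iff.rfl
@[simp] theorem Fm.sat_All {X : ℕ} {φ : Fm} {v V} :
    (φ.All X).Sat v V ↔ ∀ A, φ.Sat v (update V X A) := Iff.rfl
@[simp] theorem Fm.sat_ex {x : ℕ} {φ : Fm} {v V} :
    (φ.ex x).Sat v V ↔ ∃ n, φ.Sat (update v x n) V := by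
  simp [Fm.ex]
@[simp] theorem Fm.sat_Ex {X : ℕ} {φ : Fm} {v V} :
    (φ.Ex X).Sat v V ↔ ∃ A, φ.Sat v (update V X A) := by
  simp [Fm.Ex]
@[simp] theorem Fm.sat_eq {s t : Tm} {v V} : (Fm.eq s t).Sat v V ↔ s.val v = t.val v := Iff.rfl
@[simp] theorem Fm.sat_mem {t : Tm} {X : ℕ} {v V} : (Fm.mem t X).Sat v V ↔ t.val v ∈ V X := Iff.rfl

theorem Tm.val_subst (x : ℕ) (t : Tm) (v : ℕ → ℕ) :
    ∀ r : Tm, (r.subst x t).val v = r.val (update v x (t.val v))
  | .var y => by
      by_cases h : y = x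
      · subst h; simp [Tm.subst, Tm.val]
      · simp [Tm.subst, h, Tm.val]
  | .zero => rfl
  | .succ s => by simp only [Tm.subst, Tm.val, Tm.val_subst x t v s]
  | .add r s => by simp only [Tm.subst, Tm.val, Tm.val_subst x t v s, Tm.val_subst x t v r]
  | .mul r s => by simp only [Tm.subst, Tm.val, Tm.val_subst x t v s, Tm.val_subst x t v r]

theorem Sub.sat {x : ℕ} {t : Tm} {φ ψ : Fm} (h : Sub x t φ ψ) :
    ∀ (v : ℕ → ℕ) (V : ℕ → Set ℕ), ψ.Sat v V ↔ φ.Sat (update v x (t.val v)) V := by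
  induction h with
  | same h => intro v V; exact (Fm.sat_update_of_not_free h _).symm
  | eq r s => intro v V; simp [Tm.val_subst]
  | mem s X => intro v V; simp [Tm.val_subst]
  | imp _ _ ih1 ih2 => intro v V; simp [ih1, ih2]
  | @all y φ φ' hyx hy _ ih =>
    intro v V
    simp only [Fm.sat_all]
    refine forall_congr' fun n => ?_
    rw [ih, update_comm hyx]
    have : t.val (update v y n) = t.val v := by
      refine Tm.val_congr t fun z hz => update_of_ne ?_ _ _
      rintro rfl; exact hy hz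
    rw [this]
  | All _ ih => intro v V; simp only [Fm.sat_All, ih]

theorem SubS.sat {X Y : ℕ} {φ ψ : Fm} (h : SubS X Y φ ψ) :
    ∀ (v : ℕ → ℕ) (V : ℕ → Set ℕ), ψ.Sat v V ↔ φ.Sat v (update V X (V Y)) := by
  induction h with
  | same h => intro v V; exact (Fm.sat_update_of_not_freeS h _).symm
  | mem s => intro v V; simp
  | imp _ _ ih1 ih2 => intro v V; simp [ih1, ih2]
  | all _ ih => intro v V; simp only [Fm.sat_all, ih]
  | @All Z φ φ' hZX hZY _ ih =>
    intro v V
    simp only [Fm.sat_All]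
    refine forall_congr' fun A => ?_
    rw [ih, update_comm hZX, update_of_ne (Ne.symm hZY)]

theorem LogAx.true {φ : Fm} (h : LogAx φ) : φ.True := by
  intro v V
  cases h with
  | k φ ψ => exact fun h _ => h
  | s φ ψ χ => exact fun h1 h2 h3 => h1 h3 (h2 h3)
  | dne φ => exact fun h => by_contra fun h' => h h'
  | inst h => exact fun H => (h.sat v V).2 (H _)
  | dist h => exact fun H hφ n => H n ((Fm.sat_update_of_not_free h n).2 hφ)
  | instS h => exact fun H => (h.sat v V).2 (H _)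
  | distS h => exact fun H hφ A => H A ((Fm.sat_update_of_not_freeS h A).2 hφ)
  | refl t => exact rfl
  | leibniz h1 h2 =>
    intro he hψ
    have he' : Tm.val v _ = Tm.val v _ := he
    rw [h1.sat, he'] at hψ
    exact (h2.sat v V).2 hψ

theorem Derives.true {A : Set Fm} (hA : ∀ φ ∈ A, φ.True) {φ : Fm} (h : Derives A φ) : φ.True := by
  induction h with
  | ax h => exact hA _ h
  | log h => exact h.true
  | mp _ _ ih1 ih2 => exact fun v V => ih1 v V (ih2 v V)
  | gen x _ ih => exact fun v V n => ih _ _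
  | Gen X _ ih => exact fun v V A => ih _ _

theorem Closure.true {φ ψ : Fm} (h : Closure φ ψ) (hφ : φ.True) : ψ.True := by
  induction h with
  | refl => exact hφ
  | all x _ ih => exact fun v V n => ih _ _
  | All X _ ih => exact fun v V A => ih _ _

theorem pair_inj {a b c d : ℕ} (h : (a + b) * (a + b) + a = (c + d) * (c + d) + c) :
    a = c ∧ b = d := by
  have h1 : a + b = c + d := by
    rcases lt_trichotomy (a + b) (c + d) with h' | h' | h'
    · have : (a + b + 1) * (a + b + 1) ≤ (c + d) * (c + d) := Nat.mul_le_mul h' h'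
      nlinarith
    · exact h'
    · have : (c + d + 1) * (c + d + 1) ≤ (a + b) * (a + b) := Nat.mul_le_mul h' h'
      nlinarith
  rw [h1] at h
  omega

theorem Matrix.true {φ : Fm} (h : Matrix φ) : φ.True := by
  intro v V
  cases h with
  | succ_ne => simp [Tm.val]
  | succ_inj => simp [Tm.val]
  | add_zero => simp [Tm.val]
  | add_succ => simp [Tm.val]; omega
  | mul_zero => simp [Tm.val]
  | mul_succ => simp [Tm.val]; ring
  | ind =>
    intro h0 hs n
    have hs' : ∀ n, n ∈ V 0 → n + 1 ∈ V 0 := by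
      intro n hn
      have := hs n
      simpa [Tm.val, Fm.Sat] using this (by simpa [Tm.val, Fm.Sat] using hn)
    have : ∀ n, n ∈ V 0 := fun n => by
      induction n with
      | zero => simpa [Tm.val, Fm.Sat] using h0
      | succ n ih => exact hs' n ih
    simpa [Tm.val, Fm.Sat] using this n
  | @comp x X φ _ hX =>
    rw [Fm.sat_Ex]
    refine ⟨{n | φ.Sat (update v x n) V}, ?_⟩
    intro n
    rw [Fm.sat_iff, Fm.sat_update_of_not_freeS hX]
    simp [Tm.val]
  | @choice n i X Z φ _ hin hXZ hZ =>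
    rw [Fm.sat_imp]
    intro H
    simp only [Fm.sat_all, Fm.sat_Ex] at H
    choose F hF using H
    rw [Fm.sat_Ex]
    refine ⟨{m | ∃ a b, a ∈ F b ∧ m = (a + b) * (a + b) + a}, ?_⟩
    simp only [Fm.sat_all, Fm.sat_Ex, Fm.sat_and, Fm.sat_iff]
    intro m
    refine ⟨F m, ?_, ?_⟩
    · intro j
      have hni : n ≠ i := fun e => hin e.symm
      simp only [Fm.sat_mem, Tm.val, pairTm, update_self, update_of_ne hni,
        update_of_ne (Ne.symm hXZ)]
      constructor
      · intro hj; exact ⟨j, m, hj, rfl⟩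
      · rintro ⟨a, b, hab, he⟩
        obtain ⟨rfl, rfl⟩ := pair_inj he
        exact hab
    · rw [update_comm hXZ.symm, Fm.sat_update_of_not_freeS hZ]
      exact hF m

theorem sigma11AC0_true {φ : Fm} (h : φ ∈ Sigma11AC0) : φ.True := by
  obtain ⟨_, ψ, hψ, hc⟩ := h
  exact hc.true hψ.true

end Pool.Agent.H899SOA
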