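import Pool.Agent.H899SOA.Gen

/-!
# Syntactic relations are arithmetical
-/

namespace Pool.Agent.H899SOA

open Nat (pair)

theorem Tm.code_inj : ∀ {s t : Tm}, s.code = t.code → s = t
  | .var x, .var y, h => by simpa [Tm.code] using h
  | .zero, .zero, _ => rfl
  | .succ s, .succ t, h => by
      simp only [Tm.code, Nat.pair_eq_pair, true_and] at h; rw [Tm.code_inj h]
  | .add s s', .add t t', h => by
      simp only [Tm.code, Nat.pair_eq_pair, true_and] at h; rw [Tm.code_inj h.1, Tm.code_inj h.2]
  | .mul s s', .mul t t', h => by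
      simp only [Tm.code, Nat.pair_eq_pair, true_and] at h; rw [Tm.code_inj h.1, Tm.code_inj h.2]
  | .var _, .zero, h => by simp [Tm.code] at h
  | .var _, .succ _, h => by simp [Tm.code] at h
  | .var _, .add _ _, h => by simp [Tm.code] at h
  | .var _, .mul _ _, h => by simp [Tm.code] at h
  | .zero, .var _, h => by simp [Tm.code] at h
  | .zero, .succ _, h => by simp [Tm.code] at h
  | .zero, .add _ _, h => by simp [Tm.code] at h
  | .zero, .mul _ _, h => by simp [Tm.code] at h
  | .succ _, .var _, h => by simp [Tm.code] at h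
  | .succ _, .zero, h => by simp [Tm.code] at h
  | .succ _, .add _ _, h => by simp [Tm.code] at h
  | .succ _, .mul _ _, h => by simp [Tm.code] at h
  | .add _ _, .var _, h => by simp [Tm.code] at h
  | .add _ _, .zero, h => by simp [Tm.code] at h
  | .add _ _, .succ _, h => by simp [Tm.code] at h
  | .add _ _, .mul _ _, h => by simp [Tm.code] at h
  | .mul _ _, .var _, h => by simp [Tm.code] at h
  | .mul _ _, .zero, h => by simp [Tm.code] at h
  | .mul _ _, .succ _, h => by simp [Tm.code] at h
  | .mul _ _, .add _ _, h => by simp [Tm.code] at h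

theorem Fm.code_inj : ∀ {φ ψ : Fm}, φ.code = ψ.code → φ = ψ := by
  intro φ
  induction φ with
  | eq s t =>
    intro ψ h
    cases ψ <;> simp only [Fm.code, Nat.pair_eq_pair, true_and, reduceCtorEq, false_and] at h <;>
      first
      | (rw [Tm.code_inj h.1, Tm.code_inj h.2])
      | (exact absurd h.1 (by decide))
  | mem t X =>
    intro ψ h
    cases ψ <;> simp only [Fm.code, Nat.pair_eq_pair, true_and, reduceCtorEq, false_and] at h <;>
      first
      | (rw [Tm.code_inj h.1, h.2])
      | (exact absurd h.1 (by decide))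
  | bot =>
    intro ψ h
    cases ψ <;> simp only [Fm.code, Nat.pair_eq_pair, true_and, reduceCtorEq, false_and] at h <;>
      first
      | rfl
      | (exact absurd h.1 (by decide))
  | imp φ1 φ2 ih1 ih2 =>
    intro ψ h
    cases ψ <;> simp only [Fm.code, Nat.pair_eq_pair, true_and, reduceCtorEq, false_and] at h <;>
      first
      | (rw [ih1 h.1, ih2 h.2])
      | (exact absurd h.1 (by decide))
  | all x φ ih =>
    intro ψ h
    cases ψ <;> simp only [Fm.code, Nat.pair_eq_pair, true_and, reduceCtorEq, false_and] at h <;>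
      first
      | (rw [h.1, ih h.2])
      | (exact absurd h.1 (by decide))
  | All X φ ih =>
    intro ψ h
    cases ψ <;> simp only [Fm.code, Nat.pair_eq_pair, true_and, reduceCtorEq, false_and] at h <;>
      first
      | (rw [h.1, ih h.2])
      | (exact absurd h.1 (by decide))

theorem Tm.code_eq {s t : Tm} : s.code = t.code ↔ s = t := ⟨Tm.code_inj, fun h => h ▸ rfl⟩
theorem Fm.code_eq {φ ψ : Fm} : φ.code = ψ.code ↔ φ = ψ := ⟨Fm.code_inj, fun h => h ▸ rfl⟩

/-! ### Terms -/

def IsTmC (c : ℕ) : Prop := ∃ t : Tm, c = t.code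

theorem IsTmC.iff {c : ℕ} : IsTmC c ↔ Gen (fun c => (∃ x, c = pair 0 x) ∨ c = pair 1 0)
    (fun a b c => c = pair 2 a ∨ c = pair 3 (pair a b) ∨ c = pair 4 (pair a b)) c := by
  constructor
  · rintro ⟨t, rfl⟩
    induction t with
    | var x => exact .base (Or.inl ⟨x, rfl⟩)
    | zero => exact .base (Or.inr rfl)
    | succ t ih => exact .step ih ih (Or.inl rfl)
    | add s t ih1 ih2 => exact .step ih1 ih2 (Or.inr (Or.inl rfl))
    | mul s t ih1 ih2 => exact .step ih1 ih2 (Or.inr (Or.inr rfl))
  · intro h
    induction h with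
    | base h =>
      rcases h with ⟨x, rfl⟩ | rfl
      · exact ⟨.var x, rfl⟩
      · exact ⟨.zero, rfl⟩
    | step _ _ h ih1 ih2 =>
      obtain ⟨s, rfl⟩ := ih1
      obtain ⟨t, rfl⟩ := ih2
      rcases h with rfl | rfl | rfl
      · exact ⟨.succ s, rfl⟩
      · exact ⟨.add s t, rfl⟩
      · exact ⟨.mul s t, rfl⟩

theorem IsTmC.ua {f : ℕ → ℕ} (hf : UG f) : UA fun n _ => IsTmC (f n) := by
  refine (Gen.ua ?_ ?_ hf).congr fun n _ => IsTmC.iff.symm
  · (repeat' with_reducible first
        | apply UA.ex | apply UA.all | apply UA.eq | apply UA.mem | apply UA.ne | apply UA.le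
        | apply UA.lt | apply UA.and | apply UA.or | apply UA.iff | apply UA.not
        | apply UA.imp | apply UA.false) <;>
      (repeat' with_reducible first
        | exact UG.id | apply UG.const | apply UG.left | apply UG.right | apply UG.pair
        | apply UG.add | apply UG.mul | apply UG.beta | apply UG.succ)
  · (repeat' with_reducible first
        | apply UA.ex | apply UA.all | apply UA.eq | apply UA.mem | apply UA.ne | apply UA.le
        | apply UA.lt | apply UA.and | apply UA.or | apply UA.iff | apply UA.not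
        | apply UA.imp | apply UA.false) <;>
      (repeat' with_reducible first
        | exact UG.id | apply UG.const | apply UG.left | apply UG.right | apply UG.pair
        | apply UG.add | apply UG.mul | apply UG.beta | apply UG.succ)

@[simp] theorem isTmC_code (t : Tm) : IsTmC t.code := ⟨t, rfl⟩

def OccC (x c : ℕ) : Prop := ∃ t : Tm, c = t.code ∧ t.Occ x

theorem occC_code {x : ℕ} {t : Tm} : OccC x t.code ↔ t.Occ x := by
  constructor
  · rintro ⟨s, h1, h2⟩
    rw [Tm.code_inj h1]; exact h2
  · exact fun h => ⟨t, rfl, h⟩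

theorem OccC.iff {x c : ℕ} : OccC x c ↔ Gen (fun n => n.unpair.2 = pair 0 n.unpair.1)
    (fun a _ n => n = pair a.unpair.1 (pair 2 a.unpair.2) ∨ ∃ d, IsTmC d ∧
      (n = pair a.unpair.1 (pair 3 (pair a.unpair.2 d)) ∨
       n = pair a.unpair.1 (pair 3 (pair d a.unpair.2)) ∨
       n = pair a.unpair.1 (pair 4 (pair a.unpair.2 d)) ∨
       n = pair a.unpair.1 (pair 4 (pair d a.unpair.2)))) (pair x c) := by
  constructor
  · rintro ⟨t, rfl, h⟩
    induction t with
    | var y => rw [show y = x from h]; exact .base (by simp [Tm.code])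
    | zero => exact h.elim
    | succ t ih => exact .step (ih h) (ih h) (Or.inl (by simp [Tm.code]))
    | add s t ih1 ih2 =>
      rcases h with h | h
      · exact .step (ih1 h) (ih1 h) (Or.inr ⟨t.code, by simp, Or.inl (by simp [Tm.code])⟩)
      · exact .step (ih2 h) (ih2 h) (Or.inr ⟨s.code, by simp, Or.inr (Or.inl (by simp [Tm.code]))⟩)
    | mul s t ih1 ih2 =>
      rcases h with h | h
      · exact .step (ih1 h) (ih1 h)
          (Or.inr ⟨t.code, by simp, Or.inr (Or.inr (Or.inl (by simp [Tm.code])))⟩)
      · exact .step (ih2 h) (ih2 h)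
          (Or.inr ⟨s.code, by simp, Or.inr (Or.inr (Or.inr (by simp [Tm.code])))⟩)
  · intro h
    have key := h.elim (C := fun n => OccC n.unpair.1 n.unpair.2)
      (fun n h => by simp only [h]; exact ⟨.var _, rfl, rfl⟩) (fun a b n ih1 ih2 h => by
        obtain ⟨t, h1, h2⟩ := ih1
        rcases h with rfl | ⟨d, ⟨s, rfl⟩, rfl | rfl | rfl | rfl⟩ <;>
          simp only [Nat.unpair_pair, h1]
        · exact ⟨.succ t, rfl, h2⟩
        · exact ⟨.add t s, rfl, Or.inl h2⟩
        · exact ⟨.add s t, rfl, Or.inr h2⟩
        · exact ⟨.mul t s, rfl, Or.inl h2⟩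
        · exact ⟨.mul s t, rfl, Or.inr h2⟩)
    simpa using key

theorem OccC.ua {f g : ℕ → ℕ} (hf : UG f) (hg : UG g) : UA fun n _ => OccC (f n) (g n) := by
  refine (Gen.ua ?_ ?_ (hf.pair hg)).congr fun n _ => OccC.iff.symm
  · (repeat' with_reducible first
        | apply IsTmC.ua | apply UA.ex | apply UA.all | apply UA.eq | apply UA.mem
        | apply UA.ne | apply UA.le | apply UA.lt | apply UA.and | apply UA.or | apply UA.iff
        | apply UA.not | apply UA.imp | apply UA.false) <;>
      (repeat' with_reducible first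
        | exact UG.id | apply UG.const | apply UG.left | apply UG.right | apply UG.pair
        | apply UG.add | apply UG.mul | apply UG.beta | apply UG.succ)
  · (repeat' with_reducible first
        | apply IsTmC.ua | apply UA.ex | apply UA.all | apply UA.eq | apply UA.mem
        | apply UA.ne | apply UA.le | apply UA.lt | apply UA.and | apply UA.or | apply UA.iff
        | apply UA.not | apply UA.imp | apply UA.false) <;>
      (repeat' with_reducible first
        | exact UG.id | apply UG.const | apply UG.left | apply UG.right | apply UG.pair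
        | apply UG.add | apply UG.mul | apply UG.beta | apply UG.succ)

def SubTmC (x u c d : ℕ) : Prop :=
  ∃ t r : Tm, u = t.code ∧ c = r.code ∧ d = (r.subst x t).code

theorem SubTmC.iff {x u c d : ℕ} : SubTmC x u c d ↔ Gen
    (fun n => IsTmC n.unpair.1.unpair.2 ∧
      ((n.unpair.2.unpair.1 = pair 0 n.unpair.1.unpair.1 ∧ n.unpair.2.unpair.2 = n.unpair.1.unpair.2)
      ∨ (∃ y, y ≠ n.unpair.1.unpair.1 ∧ n.unpair.2.unpair.1 = pair 0 y ∧
          n.unpair.2.unpair.2 = pair 0 y) ∨
      (n.unpair.2.unpair.1 = pair 1 0 ∧ n.unpair.2.unpair.2 = pair 1 0)))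
    (fun a b n => a.unpair.1 = b.unpair.1 ∧
      (n = pair a.unpair.1 (pair (pair 2 a.unpair.2.unpair.1) (pair 2 a.unpair.2.unpair.2)) ∨
       n = pair a.unpair.1 (pair (pair 3 (pair a.unpair.2.unpair.1 b.unpair.2.unpair.1))
        (pair 3 (pair a.unpair.2.unpair.2 b.unpair.2.unpair.2))) ∨
       n = pair a.unpair.1 (pair (pair 4 (pair a.unpair.2.unpair.1 b.unpair.2.unpair.1))
        (pair 4 (pair a.unpair.2.unpair.2 b.unpair.2.unpair.2)))))
    (pair (pair x u) (pair c d)) := by
  constructor
  · rintro ⟨t, r, rfl, rfl, rfl⟩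
    induction r with
    | var y =>
      by_cases h : y = x
      · subst h
        exact .base ⟨by simp, Or.inl ⟨by simp [Tm.code], by simp [Tm.subst]⟩⟩
      · exact .base ⟨by simp, Or.inr (Or.inl ⟨y, by simpa using h, by simp [Tm.code],
          by simp [Tm.subst, h, Tm.code]⟩)⟩
    | zero =>
      exact .base ⟨by simp, Or.inr (Or.inr ⟨by simp [Tm.code], by simp [Tm.subst, Tm.code]⟩)⟩
    | succ s ih => exact .step ih ih ⟨rfl, Or.inl (by simp [Tm.subst, Tm.code])⟩
    | add r s ih1 ih2 =>
      exact .step ih1 ih2 ⟨by simp, Or.inr (Or.inl (by simp [Tm.subst, Tm.code]))⟩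
    | mul r s ih1 ih2 =>
      exact .step ih1 ih2 ⟨by simp, Or.inr (Or.inr (by simp [Tm.subst, Tm.code]))⟩
  · intro h
    have key := h.elim (C := fun n => SubTmC n.unpair.1.unpair.1 n.unpair.1.unpair.2
        n.unpair.2.unpair.1 n.unpair.2.unpair.2) (fun n h => by
        obtain ⟨⟨t, ht⟩, ⟨h1, h2⟩ | ⟨y, hy, h1, h2⟩ | ⟨h1, h2⟩⟩ := h
        · exact ⟨t, .var _, ht, h1, by rw [h2, ht]; simp [Tm.subst]⟩
        · exact ⟨t, .var y, ht, h1, by rw [h2]; simp [Tm.subst, hy, Tm.code]⟩
        · exact ⟨t, .zero, ht, h1, by rw [h2]; simp [Tm.subst, Tm.code]⟩) (fun a b n ih1 ih2 h => by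
        obtain ⟨h0, h⟩ := h
        obtain ⟨t, r, e1, e2, e3⟩ := ih1
        obtain ⟨t', r', e1', e2', e3'⟩ := ih2
        rw [← h0] at e1' e3'
        obtain rfl : t = t' := Tm.code_inj (e1.symm.trans e1')
        rcases h with rfl | rfl | rfl <;>
          simp only [Nat.unpair_pair, e2, e3, e2', e3']
        · exact ⟨t, .succ r, e1, rfl, rfl⟩
        · exact ⟨t, .add r r', e1, rfl, rfl⟩
        · exact ⟨t, .mul r r', e1, rfl, rfl⟩)
    simpa using key

theorem SubTmC.ua {f g h k : ℕ → ℕ} (hf : UG f) (hg : UG g) (hh : UG h) (hk : UG k) :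
    UA fun n _ => SubTmC (f n) (g n) (h n) (k n) := by
  refine (Gen.ua ?_ ?_ ((hf.pair hg).pair (hh.pair hk))).congr fun n _ => SubTmC.iff.symm
  · (repeat' with_reducible first
        | apply OccC.ua | apply IsTmC.ua | apply UA.ex | apply UA.all | apply UA.eq
        | apply UA.mem | apply UA.ne | apply UA.le | apply UA.lt | apply UA.and | apply UA.or
        | apply UA.iff | apply UA.not | apply UA.imp | apply UA.false) <;>
      (repeat' with_reducible first
        | exact UG.id | apply UG.const | apply UG.left | apply UG.right | apply UG.pair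
        | apply UG.add | apply UG.mul | apply UG.beta | apply UG.succ)
  · (repeat' with_reducible first
        | apply OccC.ua | apply IsTmC.ua | apply UA.ex | apply UA.all | apply UA.eq
        | apply UA.mem | apply UA.ne | apply UA.le | apply UA.lt | apply UA.and | apply UA.or
        | apply UA.iff | apply UA.not | apply UA.imp | apply UA.false) <;>
      (repeat' with_reducible first
        | exact UG.id | apply UG.const | apply UG.left | apply UG.right | apply UG.pair
        | apply UG.add | apply UG.mul | apply UG.beta | apply UG.succ)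

end Pool.Agent.H899SOA
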