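import Pool.Agent.H899SOA.Syn

namespace Pool.Agent.H899SOA

open Nat (pair)

/-! ### Formulas -/

def IsFmC (c : ℕ) : Prop := ∃ φ : Fm, c = φ.code

@[simp] theorem isFmC_code (φ : Fm) : IsFmC φ.code := ⟨φ, rfl⟩

theorem IsFmC.iff {c : ℕ} : IsFmC c ↔ Gen
    (fun c => (∃ s t, IsTmC s ∧ IsTmC t ∧ c = pair 0 (pair s t)) ∨
      (∃ t X, IsTmC t ∧ c = pair 1 (pair t X)) ∨ c = pair 2 0)
    (fun a b c => c = pair 3 (pair a b) ∨ (∃ x, c = pair 4 (pair x a)) ∨
      ∃ X, c = pair 5 (pair X a)) c := by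
  constructor
  · rintro ⟨φ, rfl⟩
    induction φ with
    | eq s t => exact .base (Or.inl ⟨_, _, isTmC_code s, isTmC_code t, rfl⟩)
    | mem t X => exact .base (Or.inr (Or.inl ⟨_, X, isTmC_code t, rfl⟩))
    | bot => exact .base (Or.inr (Or.inr rfl))
    | imp φ ψ ih1 ih2 => exact .step ih1 ih2 (Or.inl rfl)
    | all x φ ih => exact .step ih ih (Or.inr (Or.inl ⟨x, rfl⟩))
    | All X φ ih => exact .step ih ih (Or.inr (Or.inr ⟨X, rfl⟩))
  · intro h
    refine h.elim (C := IsFmC) (fun n h => ?_) (fun a b n ih1 ih2 h => ?_)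
    · rcases h with ⟨_, _, ⟨s, rfl⟩, ⟨t, rfl⟩, rfl⟩ | ⟨_, X, ⟨t, rfl⟩, rfl⟩ | rfl
      · exact ⟨.eq s t, rfl⟩
      · exact ⟨.mem t X, rfl⟩
      · exact ⟨.bot, rfl⟩
    · obtain ⟨φ, rfl⟩ := ih1
      obtain ⟨ψ, rfl⟩ := ih2
      rcases h with rfl | ⟨x, rfl⟩ | ⟨X, rfl⟩
      · exact ⟨.imp φ ψ, rfl⟩
      · exact ⟨.all x φ, rfl⟩
      · exact ⟨.All X φ, rfl⟩

theorem IsFmC.ua {f : ℕ → ℕ} (hf : UG f) : UA fun n _ => IsFmC (f n) := by
  refine (Gen.ua ?_ ?_ hf).congr fun n _ => IsFmC.iff.symm
  · (repeat' with_reducible first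
        | apply SubTmC.ua | apply OccC.ua | apply IsTmC.ua | apply UA.ex | apply UA.all
        | apply UA.eq | apply UA.mem | apply UA.ne | apply UA.le | apply UA.lt | apply UA.and
        | apply UA.or | apply UA.iff | apply UA.not | apply UA.imp | apply UA.false) <;>
      (repeat' with_reducible first
        | exact UG.id | apply UG.const | apply UG.left | apply UG.right | apply UG.pair
        | apply UG.add | apply UG.mul | apply UG.beta | apply UG.succ)
  · (repeat' with_reducible first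
        | apply SubTmC.ua | apply OccC.ua | apply IsTmC.ua | apply UA.ex | apply UA.all
        | apply UA.eq | apply UA.mem | apply UA.ne | apply UA.le | apply UA.lt | apply UA.and
        | apply UA.or | apply UA.iff | apply UA.not | apply UA.imp | apply UA.false) <;>
      (repeat' with_reducible first
        | exact UG.id | apply UG.const | apply UG.left | apply UG.right | apply UG.pair
        | apply UG.add | apply UG.mul | apply UG.beta | apply UG.succ)

def ArithC (c : ℕ) : Prop := ∃ φ : Fm, c = φ.code ∧ φ.IsArith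

theorem arithC_code {φ : Fm} : ArithC φ.code ↔ φ.IsArith := by
  constructor
  · rintro ⟨s, h1, h2⟩
    rw [Fm.code_inj h1]; exact h2
  · exact fun h => ⟨φ, rfl, h⟩

theorem ArithC.iff {c : ℕ} : ArithC c ↔ Gen
    (fun c => (∃ s t, IsTmC s ∧ IsTmC t ∧ c = pair 0 (pair s t)) ∨
      (∃ t X, IsTmC t ∧ c = pair 1 (pair t X)) ∨ c = pair 2 0)
    (fun a b c => c = pair 3 (pair a b) ∨ (∃ x, c = pair 4 (pair x a))) c := by
  constructor
  · rintro ⟨φ, rfl, h⟩
    induction φ with
    | eq s t => exact .base (Or.inl ⟨_, _, isTmC_code s, isTmC_code t, rfl⟩)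
    | mem t X => exact .base (Or.inr (Or.inl ⟨_, X, isTmC_code t, rfl⟩))
    | bot => exact .base (Or.inr (Or.inr rfl))
    | imp φ ψ ih1 ih2 => exact .step (ih1 h.1) (ih2 h.2) (Or.inl rfl)
    | all x φ ih => exact .step (ih h) (ih h) (Or.inr ⟨x, rfl⟩)
    | All X φ ih => exact h.elim
  · intro h
    refine h.elim (C := ArithC) (fun n h => ?_) (fun a b n ih1 ih2 h => ?_)
    · rcases h with ⟨_, _, ⟨s, rfl⟩, ⟨t, rfl⟩, rfl⟩ | ⟨_, X, ⟨t, rfl⟩, rfl⟩ | rfl
      · exact ⟨.eq s t, rfl, trivial⟩
      · exact ⟨.mem t X, rfl, trivial⟩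
      · exact ⟨.bot, rfl, trivial⟩
    · obtain ⟨φ, rfl, h1⟩ := ih1
      obtain ⟨ψ, rfl, h2⟩ := ih2
      rcases h with rfl | ⟨x, rfl⟩
      · exact ⟨.imp φ ψ, rfl, h1, h2⟩
      · exact ⟨.all x φ, rfl, h1⟩

theorem ArithC.ua {f : ℕ → ℕ} (hf : UG f) : UA fun n _ => ArithC (f n) := by
  refine (Gen.ua ?_ ?_ hf).congr fun n _ => ArithC.iff.symm
  · (repeat' with_reducible first
        | apply IsFmC.ua | apply SubTmC.ua | apply OccC.ua | apply IsTmC.ua | apply UA.ex
        | apply UA.all | apply UA.eq | apply UA.mem | apply UA.ne | apply UA.le | apply UA.lt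
        | apply UA.and | apply UA.or | apply UA.iff | apply UA.not | apply UA.imp
        | apply UA.false) <;>
      (repeat' with_reducible first
        | exact UG.id | apply UG.const | apply UG.left | apply UG.right | apply UG.pair
        | apply UG.add | apply UG.mul | apply UG.beta | apply UG.succ)
  · (repeat' with_reducible first
        | apply IsFmC.ua | apply SubTmC.ua | apply OccC.ua | apply IsTmC.ua | apply UA.ex
        | apply UA.all | apply UA.eq | apply UA.mem | apply UA.ne | apply UA.le | apply UA.lt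
        | apply UA.and | apply UA.or | apply UA.iff | apply UA.not | apply UA.imp
        | apply UA.false) <;>
      (repeat' with_reducible first
        | exact UG.id | apply UG.const | apply UG.left | apply UG.right | apply UG.pair
        | apply UG.add | apply UG.mul | apply UG.beta | apply UG.succ)

def FreeC (x c : ℕ) : Prop := ∃ φ : Fm, c = φ.code ∧ φ.Free x

theorem freeC_code {x : ℕ} {φ : Fm} : FreeC x φ.code ↔ φ.Free x := by
  constructor
  · rintro ⟨s, h1, h2⟩
    rw [Fm.code_inj h1]; exact h2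
  · exact fun h => ⟨φ, rfl, h⟩

theorem FreeC.iff {x c : ℕ} : FreeC x c ↔ Gen
    (fun n => (∃ s t, IsTmC s ∧ IsTmC t ∧ (OccC n.unpair.1 s ∨ OccC n.unpair.1 t) ∧
        n.unpair.2 = pair 0 (pair s t)) ∨
      (∃ t X, OccC n.unpair.1 t ∧ n.unpair.2 = pair 1 (pair t X)))
    (fun a _ n => (∃ d, IsFmC d ∧ (n = pair a.unpair.1 (pair 3 (pair a.unpair.2 d)) ∨
        n = pair a.unpair.1 (pair 3 (pair d a.unpair.2)))) ∨
      (∃ y, y ≠ a.unpair.1 ∧ n = pair a.unpair.1 (pair 4 (pair y a.unpair.2))) ∨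
      ∃ Y, n = pair a.unpair.1 (pair 5 (pair Y a.unpair.2))) (pair x c) := by
  constructor
  · rintro ⟨φ, rfl, h⟩
    induction φ with
    | eq s t =>
      refine .base (Or.inl ⟨s.code, t.code, by simp, by simp, ?_, by simp [Fm.code]⟩)
      rcases h with h | h
      · exact Or.inl (by simpa using occC_code.2 h)
      · exact Or.inr (by simpa using occC_code.2 h)
    | mem t X =>
      exact .base (Or.inr ⟨t.code, X, by simpa using occC_code.2 h, by simp [Fm.code]⟩)
    | bot => exact h.elim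
    | imp φ ψ ih1 ih2 =>
      rcases h with h | h
      · exact .step (ih1 h) (ih1 h) (Or.inl ⟨ψ.code, by simp, Or.inl (by simp [Fm.code])⟩)
      · exact .step (ih2 h) (ih2 h) (Or.inl ⟨φ.code, by simp, Or.inr (by simp [Fm.code])⟩)
    | all y φ ih =>
      exact .step (ih h.2) (ih h.2) (Or.inr (Or.inl ⟨y, by simpa using h.1, by simp [Fm.code]⟩))
    | All Y φ ih => exact .step (ih h) (ih h) (Or.inr (Or.inr ⟨Y, by simp [Fm.code]⟩))
  · intro h
    have key := h.elim (C := fun n => FreeC n.unpair.1 n.unpair.2)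
      (fun n h => by
        rcases h with ⟨_, _, ⟨s, rfl⟩, ⟨t, rfl⟩, h, e⟩ | ⟨_, X, ⟨t, rfl, h⟩, e⟩
        · exact ⟨.eq s t, e, by simpa [occC_code] using h⟩
        · exact ⟨.mem t X, e, h⟩) (fun a b n ih1 ih2 h => by
        obtain ⟨φ, h1, h2⟩ := ih1
        rcases h with ⟨d, ⟨ψ, rfl⟩, rfl | rfl⟩ | ⟨y, hy, rfl⟩ | ⟨Y, rfl⟩ <;>
          simp only [Nat.unpair_pair, h1]
        · exact ⟨.imp φ ψ, rfl, Or.inl h2⟩
        · exact ⟨.imp ψ φ, rfl, Or.inr h2⟩
        · exact ⟨.all y φ, rfl, hy, h2⟩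
        · exact ⟨.All Y φ, rfl, h2⟩)
    simpa using key

theorem FreeC.ua {f g : ℕ → ℕ} (hf : UG f) (hg : UG g) : UA fun n _ => FreeC (f n) (g n) := by
  refine (Gen.ua ?_ ?_ (hf.pair hg)).congr fun n _ => FreeC.iff.symm
  · (repeat' with_reducible first
        | apply ArithC.ua | apply IsFmC.ua | apply SubTmC.ua | apply OccC.ua | apply IsTmC.ua
        | apply UA.ex | apply UA.all | apply UA.eq | apply UA.mem | apply UA.ne | apply UA.le
        | apply UA.lt | apply UA.and | apply UA.or | apply UA.iff | apply UA.not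
        | apply UA.imp | apply UA.false) <;>
      (repeat' with_reducible first
        | exact UG.id | apply UG.const | apply UG.left | apply UG.right | apply UG.pair
        | apply UG.add | apply UG.mul | apply UG.beta | apply UG.succ)
  · (repeat' with_reducible first
        | apply ArithC.ua | apply IsFmC.ua | apply SubTmC.ua | apply OccC.ua | apply IsTmC.ua
        | apply UA.ex | apply UA.all | apply UA.eq | apply UA.mem | apply UA.ne | apply UA.le
        | apply UA.lt | apply UA.and | apply UA.or | apply UA.iff | apply UA.not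
        | apply UA.imp | apply UA.false) <;>
      (repeat' with_reducible first
        | exact UG.id | apply UG.const | apply UG.left | apply UG.right | apply UG.pair
        | apply UG.add | apply UG.mul | apply UG.beta | apply UG.succ)

def FreeSC (X c : ℕ) : Prop := ∃ φ : Fm, c = φ.code ∧ φ.FreeS X

theorem freeSC_code {x : ℕ} {φ : Fm} : FreeSC x φ.code ↔ φ.FreeS x := by
  constructor
  · rintro ⟨s, h1, h2⟩
    rw [Fm.code_inj h1]; exact h2
  · exact fun h => ⟨φ, rfl, h⟩

theorem FreeSC.iff {x c : ℕ} : FreeSC x c ↔ Gen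
    (fun n => ∃ t, IsTmC t ∧ n.unpair.2 = pair 1 (pair t n.unpair.1))
    (fun a _ n => (∃ d, IsFmC d ∧ (n = pair a.unpair.1 (pair 3 (pair a.unpair.2 d)) ∨
        n = pair a.unpair.1 (pair 3 (pair d a.unpair.2)))) ∨
      (∃ y, n = pair a.unpair.1 (pair 4 (pair y a.unpair.2))) ∨
      ∃ Y, Y ≠ a.unpair.1 ∧ n = pair a.unpair.1 (pair 5 (pair Y a.unpair.2))) (pair x c) := by
  constructor
  · rintro ⟨φ, rfl, h⟩
    induction φ with
    | eq s t => exact h.elim
    | mem t X =>
      rw [show X = x from h]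
      exact .base ⟨t.code, by simp, by simp [Fm.code]⟩
    | bot => exact h.elim
    | imp φ ψ ih1 ih2 =>
      rcases h with h | h
      · exact .step (ih1 h) (ih1 h) (Or.inl ⟨ψ.code, by simp, Or.inl (by simp [Fm.code])⟩)
      · exact .step (ih2 h) (ih2 h) (Or.inl ⟨φ.code, by simp, Or.inr (by simp [Fm.code])⟩)
    | all y φ ih =>
      exact .step (ih h) (ih h) (Or.inr (Or.inl ⟨y, by simp [Fm.code]⟩))
    | All Y φ ih =>
      exact .step (ih h.2) (ih h.2) (Or.inr (Or.inr ⟨Y, by simpa using h.1, by simp [Fm.code]⟩))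
  · intro h
    have key := h.elim (C := fun n => FreeSC n.unpair.1 n.unpair.2)
      (fun n h => by
        rcases h with ⟨_, ⟨t, rfl⟩, e⟩
        exact ⟨.mem t _, e, rfl⟩) (fun a b n ih1 ih2 h => by
        obtain ⟨φ, h1, h2⟩ := ih1
        rcases h with ⟨d, ⟨ψ, rfl⟩, rfl | rfl⟩ | ⟨y, rfl⟩ | ⟨Y, hY, rfl⟩ <;>
          simp only [Nat.unpair_pair, h1]
        · exact ⟨.imp φ ψ, rfl, Or.inl h2⟩
        · exact ⟨.imp ψ φ, rfl, Or.inr h2⟩
        · exact ⟨.all y φ, rfl, h2⟩
        · exact ⟨.All Y φ, rfl, hY, h2⟩)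
    simpa using key

theorem FreeSC.ua {f g : ℕ → ℕ} (hf : UG f) (hg : UG g) : UA fun n _ => FreeSC (f n) (g n) := by
  refine (Gen.ua ?_ ?_ (hf.pair hg)).congr fun n _ => FreeSC.iff.symm
  · (repeat' with_reducible first
        | apply FreeC.ua | apply ArithC.ua | apply IsFmC.ua | apply SubTmC.ua | apply OccC.ua
        | apply IsTmC.ua | apply UA.ex | apply UA.all | apply UA.eq | apply UA.mem
        | apply UA.ne | apply UA.le | apply UA.lt | apply UA.and | apply UA.or | apply UA.iff
        | apply UA.not | apply UA.imp | apply UA.false) <;>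
      (repeat' with_reducible first
        | exact UG.id | apply UG.const | apply UG.left | apply UG.right | apply UG.pair
        | apply UG.add | apply UG.mul | apply UG.beta | apply UG.succ)
  · (repeat' with_reducible first
        | apply FreeC.ua | apply ArithC.ua | apply IsFmC.ua | apply SubTmC.ua | apply OccC.ua
        | apply IsTmC.ua | apply UA.ex | apply UA.all | apply UA.eq | apply UA.mem
        | apply UA.ne | apply UA.le | apply UA.lt | apply UA.and | apply UA.or | apply UA.iff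
        | apply UA.not | apply UA.imp | apply UA.false) <;>
      (repeat' with_reducible first
        | exact UG.id | apply UG.const | apply UG.left | apply UG.right | apply UG.pair
        | apply UG.add | apply UG.mul | apply UG.beta | apply UG.succ)

/-! ### Substitution -/

def SubC (x u c d : ℕ) : Prop :=
  ∃ (t : Tm) (φ ψ : Fm), u = t.code ∧ c = φ.code ∧ d = ψ.code ∧ Sub x t φ ψ

theorem subTmC_code (x : ℕ) (t r : Tm) : SubTmC x t.code r.code (r.subst x t).code :=
  ⟨t, r, rfl, rfl, rfl⟩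

theorem SubC.iff {x u c d : ℕ} : SubC x u c d ↔ Gen
    (fun n => IsTmC n.unpair.1.unpair.2 ∧
      ((IsFmC n.unpair.2.unpair.1 ∧ ¬ FreeC n.unpair.1.unpair.1 n.unpair.2.unpair.1 ∧
        n.unpair.2.unpair.2 = n.unpair.2.unpair.1) ∨
      (∃ r s r' s', SubTmC n.unpair.1.unpair.1 n.unpair.1.unpair.2 r r' ∧
        SubTmC n.unpair.1.unpair.1 n.unpair.1.unpair.2 s s' ∧
        n.unpair.2.unpair.1 = pair 0 (pair r s) ∧ n.unpair.2.unpair.2 = pair 0 (pair r' s')) ∨
      (∃ s s' X, SubTmC n.unpair.1.unpair.1 n.unpair.1.unpair.2 s s' ∧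
        n.unpair.2.unpair.1 = pair 1 (pair s X) ∧ n.unpair.2.unpair.2 = pair 1 (pair s' X))))
    (fun a b n => a.unpair.1 = b.unpair.1 ∧
      (n = pair a.unpair.1 (pair (pair 3 (pair a.unpair.2.unpair.1 b.unpair.2.unpair.1))
        (pair 3 (pair a.unpair.2.unpair.2 b.unpair.2.unpair.2))) ∨
      (∃ y, y ≠ a.unpair.1.unpair.1 ∧ ¬ OccC y a.unpair.1.unpair.2 ∧
        n = pair a.unpair.1 (pair (pair 4 (pair y a.unpair.2.unpair.1))
          (pair 4 (pair y a.unpair.2.unpair.2)))) ∨
      (∃ Y, n = pair a.unpair.1 (pair (pair 5 (pair Y a.unpair.2.unpair.1))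
          (pair 5 (pair Y a.unpair.2.unpair.2))))))
    (pair (pair x u) (pair c d)) := by
  constructor
  · rintro ⟨t, φ, ψ, rfl, rfl, rfl, h⟩
    induction h with
    | @same φ h =>
      refine .base ⟨by simp, Or.inl ⟨by simp, ?_, by simp⟩⟩
      simpa [freeC_code] using h
    | eq r s =>
      refine .base ⟨by simp, Or.inr (Or.inl ⟨r.code, s.code, (r.subst x t).code,
        (s.subst x t).code, ?_, ?_, by simp [Fm.code], by simp [Fm.code]⟩)⟩
      · simpa using subTmC_code x t r
      · simpa using subTmC_code x t s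
    | mem s X =>
      refine .base ⟨by simp, Or.inr (Or.inr ⟨s.code, (s.subst x t).code, X, ?_,
        by simp [Fm.code], by simp [Fm.code]⟩)⟩
      simpa using subTmC_code x t s
    | imp _ _ ih1 ih2 => exact .step ih1 ih2 ⟨by simp, Or.inl (by simp [Fm.code])⟩
    | @all y φ φ' h1 h2 _ ih =>
      exact .step ih ih ⟨rfl, Or.inr (Or.inl ⟨y, by simpa using h1, by simpa [occC_code] using h2,
        by simp [Fm.code]⟩)⟩
    | @All Y φ φ' _ ih =>
      exact .step ih ih ⟨rfl, Or.inr (Or.inr ⟨Y, by simp [Fm.code]⟩)⟩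
  · intro h
    have key := h.elim (C := fun n => SubC n.unpair.1.unpair.1 n.unpair.1.unpair.2
        n.unpair.2.unpair.1 n.unpair.2.unpair.2) (fun n h => by
        obtain ⟨⟨t, ht⟩, ⟨⟨φ, hφ⟩, h1, h2⟩ | ⟨r, s, r', s', h1, h2, h3, h4⟩ |
          ⟨s, s', X, h1, h2, h3⟩⟩ := h
        · exact ⟨t, φ, φ, ht, hφ, h2.trans hφ, .same fun h => h1 ⟨φ, hφ, h⟩⟩
        · obtain ⟨t1, r1, e1, rfl, rfl⟩ := h1
          obtain ⟨t2, r2, e2, rfl, rfl⟩ := h2
          obtain rfl : t = t1 := Tm.code_inj (ht.symm.trans e1)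
          obtain rfl : t = t2 := Tm.code_inj (ht.symm.trans e2)
          exact ⟨t, .eq r1 r2, .eq (r1.subst _ t) (r2.subst _ t), ht, h3, h4, .eq r1 r2⟩
        · obtain ⟨t1, r1, e1, rfl, rfl⟩ := h1
          obtain rfl : t = t1 := Tm.code_inj (ht.symm.trans e1)
          exact ⟨t, .mem r1 X, .mem (r1.subst _ t) X, ht, h2, h3, .mem r1 X⟩) (fun a b n ih1 ih2 h => by
        obtain ⟨h0, h⟩ := h
        obtain ⟨t, φ, ψ, e1, e2, e3, e4⟩ := ih1
        obtain ⟨t', φ', ψ', e1', e2', e3', e4'⟩ := ih2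
        rw [← h0] at e1' e4'
        obtain rfl : t = t' := Tm.code_inj (e1.symm.trans e1')
        rcases h with rfl | ⟨y, hy, hy', rfl⟩ | ⟨Y, rfl⟩ <;>
          simp only [Nat.unpair_pair, e2, e3, e2', e3']
        · exact ⟨t, .imp φ φ', .imp ψ ψ', e1, rfl, rfl, .imp e4 e4'⟩
        · exact ⟨t, .all y φ, .all y ψ, e1, rfl, rfl, .all hy (fun h => hy' ⟨t, e1, h⟩) e4⟩
        · exact ⟨t, .All Y φ, .All Y ψ, e1, rfl, rfl, .All e4⟩)
    simpa using key

theorem SubC.ua {f g h k : ℕ → ℕ} (hf : UG f) (hg : UG g) (hh : UG h) (hk : UG k) :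
    UA fun n _ => SubC (f n) (g n) (h n) (k n) := by
  refine (Gen.ua ?_ ?_ ((hf.pair hg).pair (hh.pair hk))).congr fun n _ => SubC.iff.symm
  · (repeat' with_reducible first
        | apply FreeSC.ua | apply FreeC.ua | apply ArithC.ua | apply IsFmC.ua
        | apply SubTmC.ua | apply OccC.ua | apply IsTmC.ua | apply UA.ex | apply UA.all
        | apply UA.eq | apply UA.mem | apply UA.ne | apply UA.le | apply UA.lt | apply UA.and
        | apply UA.or | apply UA.iff | apply UA.not | apply UA.imp | apply UA.false) <;>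
      (repeat' with_reducible first
        | exact UG.id | apply UG.const | apply UG.left | apply UG.right | apply UG.pair
        | apply UG.add | apply UG.mul | apply UG.beta | apply UG.succ)
  · (repeat' with_reducible first
        | apply FreeSC.ua | apply FreeC.ua | apply ArithC.ua | apply IsFmC.ua
        | apply SubTmC.ua | apply OccC.ua | apply IsTmC.ua | apply UA.ex | apply UA.all
        | apply UA.eq | apply UA.mem | apply UA.ne | apply UA.le | apply UA.lt | apply UA.and
        | apply UA.or | apply UA.iff | apply UA.not | apply UA.imp | apply UA.false) <;>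
      (repeat' with_reducible first
        | exact UG.id | apply UG.const | apply UG.left | apply UG.right | apply UG.pair
        | apply UG.add | apply UG.mul | apply UG.beta | apply UG.succ)

def SubSC (X Y c d : ℕ) : Prop :=
  ∃ (φ ψ : Fm), c = φ.code ∧ d = ψ.code ∧ SubS X Y φ ψ

theorem SubSC.iff {X Y c d : ℕ} : SubSC X Y c d ↔ Gen
    (fun n => (IsFmC n.unpair.2.unpair.1 ∧ ¬ FreeSC n.unpair.1.unpair.1 n.unpair.2.unpair.1 ∧
        n.unpair.2.unpair.2 = n.unpair.2.unpair.1) ∨
      (∃ s, IsTmC s ∧ n.unpair.2.unpair.1 = pair 1 (pair s n.unpair.1.unpair.1) ∧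
        n.unpair.2.unpair.2 = pair 1 (pair s n.unpair.1.unpair.2)))
    (fun a b n => a.unpair.1 = b.unpair.1 ∧
      (n = pair a.unpair.1 (pair (pair 3 (pair a.unpair.2.unpair.1 b.unpair.2.unpair.1))
        (pair 3 (pair a.unpair.2.unpair.2 b.unpair.2.unpair.2))) ∨
      (∃ y, n = pair a.unpair.1 (pair (pair 4 (pair y a.unpair.2.unpair.1))
          (pair 4 (pair y a.unpair.2.unpair.2)))) ∨
      (∃ Z, Z ≠ a.unpair.1.unpair.1 ∧ Z ≠ a.unpair.1.unpair.2 ∧
        n = pair a.unpair.1 (pair (pair 5 (pair Z a.unpair.2.unpair.1))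
          (pair 5 (pair Z a.unpair.2.unpair.2))))))
    (pair (pair X Y) (pair c d)) := by
  constructor
  · rintro ⟨φ, ψ, rfl, rfl, h⟩
    induction h with
    | @same φ h =>
      refine .base (Or.inl ⟨by simp, ?_, by simp⟩)
      simpa [freeSC_code] using h
    | mem s => exact .base (Or.inr ⟨s.code, by simp, by simp [Fm.code], by simp [Fm.code]⟩)
    | imp _ _ ih1 ih2 => exact .step ih1 ih2 ⟨by simp, Or.inl (by simp [Fm.code])⟩
    | @all y φ φ' _ ih =>
      exact .step ih ih ⟨rfl, Or.inr (Or.inl ⟨y, by simp [Fm.code]⟩)⟩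
    | @All Z φ φ' h1 h2 _ ih =>
      exact .step ih ih ⟨rfl, Or.inr (Or.inr ⟨Z, by simpa using h1, by simpa using h2,
        by simp [Fm.code]⟩)⟩
  · intro h
    have key := h.elim (C := fun n => SubSC n.unpair.1.unpair.1 n.unpair.1.unpair.2
        n.unpair.2.unpair.1 n.unpair.2.unpair.2) (fun n h => by
        obtain ⟨⟨φ, hφ⟩, h1, h2⟩ | ⟨s, ⟨s, rfl⟩, h1, h2⟩ := h
        · exact ⟨φ, φ, hφ, h2.trans hφ, .same fun h => h1 ⟨φ, hφ, h⟩⟩
        · exact ⟨.mem s _, .mem s _, h1, h2, .mem s⟩) (fun a b n ih1 ih2 h => by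
        obtain ⟨h0, h⟩ := h
        obtain ⟨φ, ψ, e2, e3, e4⟩ := ih1
        obtain ⟨φ', ψ', e2', e3', e4'⟩ := ih2
        rw [← h0] at e4'
        rcases h with rfl | ⟨y, rfl⟩ | ⟨Y, hY, hY', rfl⟩ <;>
          simp only [Nat.unpair_pair, e2, e3, e2', e3']
        · exact ⟨.imp φ φ', .imp ψ ψ', rfl, rfl, .imp e4 e4'⟩
        · exact ⟨.all y φ, .all y ψ, rfl, rfl, .all e4⟩
        · exact ⟨.All Y φ, .All Y ψ, rfl, rfl, .All hY hY' e4⟩)
    simpa using key

theorem SubSC.ua {f g h k : ℕ → ℕ} (hf : UG f) (hg : UG g) (hh : UG h) (hk : UG k) :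
    UA fun n _ => SubSC (f n) (g n) (h n) (k n) := by
  refine (Gen.ua ?_ ?_ ((hf.pair hg).pair (hh.pair hk))).congr fun n _ => SubSC.iff.symm
  · (repeat' with_reducible first
        | apply SubC.ua | apply FreeSC.ua | apply FreeC.ua | apply ArithC.ua | apply IsFmC.ua
        | apply SubTmC.ua | apply OccC.ua | apply IsTmC.ua | apply UA.ex | apply UA.all
        | apply UA.eq | apply UA.mem | apply UA.ne | apply UA.le | apply UA.lt | apply UA.and
        | apply UA.or | apply UA.iff | apply UA.not | apply UA.imp | apply UA.false) <;>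
      (repeat' with_reducible first
        | exact UG.id | apply UG.const | apply UG.left | apply UG.right | apply UG.pair
        | apply UG.add | apply UG.mul | apply UG.beta | apply UG.succ)
  · (repeat' with_reducible first
        | apply SubC.ua | apply FreeSC.ua | apply FreeC.ua | apply ArithC.ua | apply IsFmC.ua
        | apply SubTmC.ua | apply OccC.ua | apply IsTmC.ua | apply UA.ex | apply UA.all
        | apply UA.eq | apply UA.mem | apply UA.ne | apply UA.le | apply UA.lt | apply UA.and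
        | apply UA.or | apply UA.iff | apply UA.not | apply UA.imp | apply UA.false) <;>
      (repeat' with_reducible first
        | exact UG.id | apply UG.const | apply UG.left | apply UG.right | apply UG.pair
        | apply UG.add | apply UG.mul | apply UG.beta | apply UG.succ)

/-! ### Universal closures -/

def ClosC (c d : ℕ) : Prop := ∃ φ ψ : Fm, c = φ.code ∧ d = ψ.code ∧ Closure φ ψ

theorem ClosC.iff {c d : ℕ} : ClosC c d ↔ Gen
    (fun n => IsFmC n.unpair.1 ∧ n.unpair.2 = n.unpair.1)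
    (fun a _ n => (∃ x, n = pair a.unpair.1 (pair 4 (pair x a.unpair.2))) ∨
      ∃ X, n = pair a.unpair.1 (pair 5 (pair X a.unpair.2))) (pair c d) := by
  constructor
  · rintro ⟨φ, ψ, rfl, rfl, h⟩
    induction h with
    | refl => exact .base ⟨by simp, by simp⟩
    | all x _ ih => exact .step ih ih (Or.inl ⟨x, by simp [Fm.code]⟩)
    | All X _ ih => exact .step ih ih (Or.inr ⟨X, by simp [Fm.code]⟩)
  · intro h
    have key := h.elim (C := fun n => ClosC n.unpair.1 n.unpair.2)
      (fun n h => by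
        obtain ⟨⟨φ, h⟩, h'⟩ := h
        exact ⟨φ, φ, h, h'.trans h, .refl⟩) (fun a b n ih1 ih2 h => by
        obtain ⟨φ, ψ, h1, h2, h3⟩ := ih1
        rcases h with ⟨x, rfl⟩ | ⟨X, rfl⟩ <;> simp only [Nat.unpair_pair, h2]
        · exact ⟨φ, .all x ψ, h1, rfl, .all x h3⟩
        · exact ⟨φ, .All X ψ, h1, rfl, .All X h3⟩)
    simpa using key

theorem ClosC.ua {f g : ℕ → ℕ} (hf : UG f) (hg : UG g) : UA fun n _ => ClosC (f n) (g n) := by
  refine (Gen.ua ?_ ?_ (hf.pair hg)).congr fun n _ => ClosC.iff.symm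
  · (repeat' with_reducible first
        | apply SubSC.ua | apply SubC.ua | apply FreeSC.ua | apply FreeC.ua | apply ArithC.ua
        | apply IsFmC.ua | apply SubTmC.ua | apply OccC.ua | apply IsTmC.ua | apply UA.ex
        | apply UA.all | apply UA.eq | apply UA.mem | apply UA.ne | apply UA.le | apply UA.lt
        | apply UA.and | apply UA.or | apply UA.iff | apply UA.not | apply UA.imp
        | apply UA.false) <;>
      (repeat' with_reducible first
        | exact UG.id | apply UG.const | apply UG.left | apply UG.right | apply UG.pair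
        | apply UG.add | apply UG.mul | apply UG.beta | apply UG.succ)
  · (repeat' with_reducible first
        | apply SubSC.ua | apply SubC.ua | apply FreeSC.ua | apply FreeC.ua | apply ArithC.ua
        | apply IsFmC.ua | apply SubTmC.ua | apply OccC.ua | apply IsTmC.ua | apply UA.ex
        | apply UA.all | apply UA.eq | apply UA.mem | apply UA.ne | apply UA.le | apply UA.lt
        | apply UA.and | apply UA.or | apply UA.iff | apply UA.not | apply UA.imp
        | apply UA.false) <;>
      (repeat' with_reducible first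
        | exact UG.id | apply UG.const | apply UG.left | apply UG.right | apply UG.pair
        | apply UG.add | apply UG.mul | apply UG.beta | apply UG.succ)

def SentC (c : ℕ) : Prop := IsFmC c ∧ (∀ x, ¬ FreeC x c) ∧ ∀ X, ¬ FreeSC X c

theorem sentC_iff {c : ℕ} : SentC c ↔ ∃ φ : Fm, φ.Sentence ∧ c = φ.code := by
  constructor
  · rintro ⟨⟨φ, rfl⟩, h1, h2⟩
    exact ⟨φ, ⟨fun x => by simpa [freeC_code] using h1 x,
      fun X => by simpa [freeSC_code] using h2 X⟩, rfl⟩
  · rintro ⟨φ, h, rfl⟩
    exact ⟨⟨φ, rfl⟩, fun x => by simpa [freeC_code] using h.1 x,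
      fun X => by simpa [freeSC_code] using h.2 X⟩

theorem SentC.ua {f : ℕ → ℕ} (hf : UG f) : UA fun n _ => SentC (f n) := by
  have : UA fun n _ => SentC n := by
    unfold SentC
    (repeat' with_reducible first
        | apply ClosC.ua | apply SubSC.ua | apply SubC.ua | apply FreeSC.ua | apply FreeC.ua
        | apply ArithC.ua | apply IsFmC.ua | apply SubTmC.ua | apply OccC.ua | apply IsTmC.ua
        | apply UA.ex | apply UA.all | apply UA.eq | apply UA.mem | apply UA.ne | apply UA.le
        | apply UA.lt | apply UA.and | apply UA.or | apply UA.iff | apply UA.not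
        | apply UA.imp | apply UA.false) <;>
      (repeat' with_reducible first
        | exact UG.id | apply UG.const | apply UG.left | apply UG.right | apply UG.pair
        | apply UG.add | apply UG.mul | apply UG.beta | apply UG.succ)
  exact this.comp hf

end Pool.Agent.H899SOA
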