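import Pool.Agent.H899SOA.Syn2

namespace Pool.Agent.H899SOA

open Nat (pair)

abbrev impC (a b : ℕ) : ℕ := pair 3 (pair a b)
abbrev allC (x a : ℕ) : ℕ := pair 4 (pair x a)
abbrev AllC (x a : ℕ) : ℕ := pair 5 (pair x a)
abbrev botC : ℕ := pair 2 0
abbrev negC (a : ℕ) : ℕ := impC a botC
abbrev andC (a b : ℕ) : ℕ := negC (impC a (negC b))
abbrev iffC (a b : ℕ) : ℕ := andC (impC a b) (impC b a)
abbrev exC (x a : ℕ) : ℕ := negC (allC x (negC a))
abbrev ExC (x a : ℕ) : ℕ := negC (AllC x (negC a))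
abbrev eqC (s t : ℕ) : ℕ := pair 0 (pair s t)
abbrev memC (s X : ℕ) : ℕ := pair 1 (pair s X)
abbrev varC (x : ℕ) : ℕ := pair 0 x
abbrev addC (s t : ℕ) : ℕ := pair 3 (pair s t)
abbrev mulC (s t : ℕ) : ℕ := pair 4 (pair s t)
abbrev pairC (s t : ℕ) : ℕ := addC (mulC (addC s t) (addC s t)) s

def LogAxC (c : ℕ) : Prop := ∃ φ : Fm, c = φ.code ∧ LogAx φ

theorem LogAxC.iff {c : ℕ} : LogAxC c ↔
    (∃ a b, IsFmC a ∧ IsFmC b ∧ c = impC a (impC b a)) ∨
    (∃ a b d, IsFmC a ∧ IsFmC b ∧ IsFmC d ∧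
      c = impC (impC a (impC b d)) (impC (impC a b) (impC a d))) ∨
    (∃ a, IsFmC a ∧ c = impC (impC (impC a botC) botC) a) ∨
    (∃ x u a b, SubC x u a b ∧ c = impC (allC x a) b) ∨
    (∃ x a b, IsFmC a ∧ IsFmC b ∧ ¬ FreeC x a ∧ c = impC (allC x (impC a b)) (impC a (allC x b))) ∨
    (∃ X Y a b, SubSC X Y a b ∧ c = impC (AllC X a) b) ∨
    (∃ X a b, IsFmC a ∧ IsFmC b ∧ ¬ FreeSC X a ∧
      c = impC (AllC X (impC a b)) (impC a (AllC X b))) ∨
    (∃ u, IsTmC u ∧ c = eqC u u) ∨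
    (∃ x s t a b d, SubC x s a b ∧ SubC x t a d ∧ c = impC (eqC s t) (impC b d)) := by
  constructor
  · rintro ⟨φ, rfl, h⟩
    cases h with
    | k φ ψ => exact Or.inl ⟨φ.code, ψ.code, by simp, by simp, rfl⟩
    | s φ ψ χ =>
      exact Or.inr (Or.inl ⟨φ.code, ψ.code, χ.code, by simp, by simp, by simp, rfl⟩)
    | dne φ => exact Or.inr (Or.inr (Or.inl ⟨φ.code, by simp, rfl⟩))
    | @inst x t φ ψ h =>
      exact Or.inr (Or.inr (Or.inr (Or.inl ⟨x, t.code, φ.code, ψ.code, ⟨t, φ, ψ, rfl, rfl, rfl, h⟩,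
        rfl⟩)))
    | @dist x φ ψ h =>
      exact Or.inr (Or.inr (Or.inr (Or.inr (Or.inl ⟨x, φ.code, ψ.code, by simp, by simp,
        by simpa [freeC_code] using h, rfl⟩))))
    | @instS X Y φ ψ h =>
      exact Or.inr (Or.inr (Or.inr (Or.inr (Or.inr (Or.inl ⟨X, Y, φ.code, ψ.code,
        ⟨φ, ψ, rfl, rfl, h⟩, rfl⟩)))))
    | @distS X φ ψ h =>
      exact Or.inr (Or.inr (Or.inr (Or.inr (Or.inr (Or.inr (Or.inl ⟨X, φ.code, ψ.code, by simp,
        by simp, by simpa [freeSC_code] using h, rfl⟩))))))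
    | refl t =>
      exact Or.inr (Or.inr (Or.inr (Or.inr (Or.inr (Or.inr (Or.inr (Or.inl ⟨t.code, by simp,
        rfl⟩)))))))
    | @leibniz x s t φ ψ χ h1 h2 =>
      exact Or.inr (Or.inr (Or.inr (Or.inr (Or.inr (Or.inr (Or.inr (Or.inr ⟨x, s.code, t.code,
        φ.code, ψ.code, χ.code, ⟨s, φ, ψ, rfl, rfl, rfl, h1⟩, ⟨t, φ, χ, rfl, rfl, rfl, h2⟩,
        rfl⟩)))))))
  · rintro (⟨_, _, ⟨φ, rfl⟩, ⟨ψ, rfl⟩, rfl⟩ | ⟨_, _, _, ⟨φ, rfl⟩, ⟨ψ, rfl⟩, ⟨χ, rfl⟩, rfl⟩ |
      ⟨_, ⟨φ, rfl⟩, rfl⟩ | ⟨x, _, _, _, ⟨t, φ, ψ, rfl, rfl, rfl, h⟩, rfl⟩ |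
      ⟨x, _, _, ⟨φ, rfl⟩, ⟨ψ, rfl⟩, h, rfl⟩ | ⟨X, Y, _, _, ⟨φ, ψ, rfl, rfl, h⟩, rfl⟩ |
      ⟨X, _, _, ⟨φ, rfl⟩, ⟨ψ, rfl⟩, h, rfl⟩ | ⟨_, ⟨t, rfl⟩, rfl⟩ |
      ⟨x, s, t, a, b, d, ⟨s', φ, ψ, rfl, rfl, rfl, h1⟩, ⟨t', φ', χ, rfl, h3, rfl, h2⟩, rfl⟩)
    · exact ⟨_, rfl, .k φ ψ⟩
    · exact ⟨_, rfl, .s φ ψ χ⟩
    · exact ⟨_, rfl, .dne φ⟩
    · exact ⟨_, rfl, .inst h⟩
    · exact ⟨_, rfl, .dist (x := x) (by simpa [freeC_code] using h)⟩
    · exact ⟨_, rfl, .instS h⟩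
    · exact ⟨_, rfl, .distS (X := X) (by simpa [freeSC_code] using h)⟩
    · exact ⟨_, rfl, .refl t⟩
    · obtain rfl : φ = φ' := Fm.code_inj h3
      exact ⟨_, rfl, .leibniz h1 h2⟩

theorem LogAxC.ua {f : ℕ → ℕ} (hf : UG f) : UA fun n _ => LogAxC (f n) := by
  have : UA fun n _ => LogAxC n := by
    refine UA.congr ?_ fun n _ => LogAxC.iff.symm
    (repeat' with_reducible first
        | apply SentC.ua | apply ClosC.ua | apply SubSC.ua | apply SubC.ua | apply FreeSC.ua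
        | apply FreeC.ua | apply ArithC.ua | apply IsFmC.ua | apply SubTmC.ua | apply OccC.ua
        | apply IsTmC.ua | apply UA.ex | apply UA.all | apply UA.eq | apply UA.mem
        | apply UA.ne | apply UA.le | apply UA.lt | apply UA.and | apply UA.or | apply UA.iff
        | apply UA.not | apply UA.imp | apply UA.false) <;>
      (repeat' with_reducible first
        | exact UG.id | apply UG.const | apply UG.left | apply UG.right | apply UG.pair
        | apply UG.add | apply UG.mul | apply UG.beta | apply UG.succ)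
  exact this.comp hf

def MatrixC (c : ℕ) : Prop := ∃ φ : Fm, c = φ.code ∧ Matrix φ

theorem MatrixC.choice_code (n i X Z : ℕ) (φ : Fm) :
    (Fm.imp (.all n (.Ex X φ)) (.Ex Z (.all n (.Ex X (.and
      (.all i (.iff (.mem (.var i) X) (.mem (pairTm (.var i) (.var n)) Z))) φ))))).code =
    impC (allC n (ExC X φ.code)) (ExC Z (allC n (ExC X (andC
        (allC i (iffC (memC (varC i) X) (memC (pairC (varC i) (varC n)) Z))) φ.code)))) := by
  simp only [Fm.code, Fm.Ex, Fm.neg, Fm.and, Fm.iff, pairTm, Tm.code]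

theorem MatrixC.comp_code (x X : ℕ) (φ : Fm) :
    (Fm.Ex X (.all x (.iff (.mem (.var x) X) φ))).code =
      ExC X (allC x (iffC (memC (varC x) X) φ.code)) := by
  simp only [Fm.code, Fm.Ex, Fm.neg, Fm.and, Fm.iff, Tm.code]

theorem MatrixC.iff {c : ℕ} : MatrixC c ↔
    c = (Fm.neg (.eq (.succ (.var 0)) .zero)).code ∨
    c = (Fm.imp (.eq (.succ (.var 0)) (.succ (.var 1))) (.eq (.var 0) (.var 1))).code ∨
    c = (Fm.eq (.add (.var 0) .zero) (.var 0)).code ∨
    c = (Fm.eq (.add (.var 0) (.succ (.var 1))) (.succ (.add (.var 0) (.var 1)))).code ∨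
    c = (Fm.eq (.mul (.var 0) .zero) .zero).code ∨
    c = (Fm.eq (.mul (.var 0) (.succ (.var 1))) (.add (.mul (.var 0) (.var 1)) (.var 0))).code ∨
    c = (Fm.imp (.mem .zero 0)
      (.imp (.all 0 (.imp (.mem (.var 0) 0) (.mem (.succ (.var 0)) 0)))
        (.all 0 (.mem (.var 0) 0)))).code ∨
    (∃ x X a, ArithC a ∧ ¬ FreeSC X a ∧ c = ExC X (allC x (iffC (memC (varC x) X) a))) ∨
    (∃ n i X Z a, (ArithC a ∨ ∃ Y b, ArithC b ∧ a = ExC Y b) ∧ i ≠ n ∧ X ≠ Z ∧ ¬ FreeSC Z a ∧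
      c = impC (allC n (ExC X a)) (ExC Z (allC n (ExC X (andC
        (allC i (iffC (memC (varC i) X) (memC (pairC (varC i) (varC n)) Z))) a))))) := by
  constructor
  · rintro ⟨φ, rfl, h⟩
    cases h with
    | succ_ne => exact Or.inl rfl
    | succ_inj => exact Or.inr (Or.inl rfl)
    | add_zero => exact Or.inr (Or.inr (Or.inl rfl))
    | add_succ => exact Or.inr (Or.inr (Or.inr (Or.inl rfl)))
    | mul_zero => exact Or.inr (Or.inr (Or.inr (Or.inr (Or.inl rfl))))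
    | mul_succ => exact Or.inr (Or.inr (Or.inr (Or.inr (Or.inr (Or.inl rfl)))))
    | ind => exact Or.inr (Or.inr (Or.inr (Or.inr (Or.inr (Or.inr (Or.inl rfl))))))
    | @comp x X φ h1 h2 =>
      refine Or.inr (Or.inr (Or.inr (Or.inr (Or.inr (Or.inr (Or.inr (Or.inl ⟨x, X, φ.code,
        arithC_code.2 h1, ?_, MatrixC.comp_code x X φ⟩)))))))
      rw [freeSC_code]; exact h2
    | @choice n i X Z φ h1 h2 h3 h4 =>
      refine Or.inr (Or.inr (Or.inr (Or.inr (Or.inr (Or.inr (Or.inr (Or.inr ⟨n, i, X, Z, φ.code,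
        ?_, h2, h3, ?_, MatrixC.choice_code n i X Z φ⟩)))))))
      · rcases h1 with h1 | ⟨Y, θ, h1, rfl⟩
        · exact Or.inl (arithC_code.2 h1)
        · exact Or.inr ⟨Y, θ.code, arithC_code.2 h1, rfl⟩
      · rw [freeSC_code]; exact h4
  · intro h
    rcases h with h | h | h | h | h | h | h | h | h
    · exact ⟨_, h, .succ_ne⟩
    · exact ⟨_, h, .succ_inj⟩
    · exact ⟨_, h, .add_zero⟩
    · exact ⟨_, h, .add_succ⟩
    · exact ⟨_, h, .mul_zero⟩
    · exact ⟨_, h, .mul_succ⟩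
    · exact ⟨_, h, .ind⟩
    · obtain ⟨x, X, a, ⟨φ, ha, h1⟩, h2, h⟩ := h
      rw [ha] at h2 h
      rw [freeSC_code] at h2
      exact ⟨_, h.trans (MatrixC.comp_code x X φ).symm, .comp h1 h2⟩
    · obtain ⟨n, i, X, Z, a, h1, h2, h3, h4, h⟩ := h
      rcases h1 with ⟨φ, ha, h1⟩ | ⟨Y, b, ⟨θ, hb, h1⟩, ha⟩
      · rw [ha] at h4 h
        rw [freeSC_code] at h4
        exact ⟨_, h.trans (MatrixC.choice_code n i X Z φ).symm, .choice (Or.inl h1) h2 h3 h4⟩
      · have ha' : a = (Fm.Ex Y θ).code := by rw [ha, hb]; rfl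
        rw [ha'] at h4 h
        rw [freeSC_code] at h4
        exact ⟨_, h.trans (MatrixC.choice_code n i X Z (.Ex Y θ)).symm,
          .choice (Or.inr ⟨Y, θ, h1, rfl⟩) h2 h3 h4⟩

theorem MatrixC.ua {f : ℕ → ℕ} (hf : UG f) : UA fun n _ => MatrixC (f n) := by
  have : UA fun n _ => MatrixC n := by
    refine UA.congr ?_ fun n _ => MatrixC.iff.symm
    (repeat' with_reducible first
        | apply LogAxC.ua | apply SentC.ua | apply ClosC.ua | apply SubSC.ua | apply SubC.ua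
        | apply FreeSC.ua | apply FreeC.ua | apply ArithC.ua | apply IsFmC.ua
        | apply SubTmC.ua | apply OccC.ua | apply IsTmC.ua | apply UA.ex | apply UA.all
        | apply UA.eq | apply UA.mem | apply UA.ne | apply UA.le | apply UA.lt | apply UA.and
        | apply UA.or | apply UA.iff | apply UA.not | apply UA.imp | apply UA.false) <;>
      (repeat' with_reducible first
        | exact UG.id | apply UG.const | apply UG.left | apply UG.right | apply UG.pair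
        | apply UG.add | apply UG.mul | apply UG.beta | apply UG.succ)
  exact this.comp hf

/-- The set of codes of axioms of `Σ¹₁-AC₀` is arithmetical. -/
theorem ax_ua : UA fun n _ => ∃ φ ∈ Sigma11AC0, n = φ.code := by
  have : UA fun n _ => SentC n ∧ ∃ m, MatrixC m ∧ ClosC m n := by
    (repeat' with_reducible first
        | apply MatrixC.ua | apply LogAxC.ua | apply SentC.ua | apply ClosC.ua
        | apply SubSC.ua | apply SubC.ua | apply FreeSC.ua | apply FreeC.ua | apply ArithC.ua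
        | apply IsFmC.ua | apply SubTmC.ua | apply OccC.ua | apply IsTmC.ua | apply UA.ex
        | apply UA.all | apply UA.eq | apply UA.mem | apply UA.ne | apply UA.le | apply UA.lt
        | apply UA.and | apply UA.or | apply UA.iff | apply UA.not | apply UA.imp
        | apply UA.false) <;>
      (repeat' with_reducible first
        | exact UG.id | apply UG.const | apply UG.left | apply UG.right | apply UG.pair
        | apply UG.add | apply UG.mul | apply UG.beta | apply UG.succ)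
  refine this.congr fun n _ => ?_
  rw [sentC_iff]
  constructor
  · rintro ⟨⟨σ, hσ, rfl⟩, m, ⟨φ, rfl, h⟩, φ', σ', h1, h2, h3⟩
    obtain rfl : φ = φ' := Fm.code_inj h1
    obtain rfl : σ = σ' := Fm.code_inj h2
    exact ⟨σ, ⟨hσ, φ, h, h3⟩, rfl⟩
  · rintro ⟨σ, ⟨hσ, φ, h, h3⟩, rfl⟩
    exact ⟨⟨σ, hσ, rfl⟩, φ.code, ⟨φ, rfl, h⟩, φ, σ, rfl, rfl, h3⟩

/-- The set of codes of `Π¹₁` sentences is arithmetical. -/
theorem pi_ua : UA fun n _ => ∃ φ : Fm, φ.IsPi11 ∧ φ.Sentence ∧ n = φ.code := by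
  have : UA fun n _ => SentC n ∧ ∃ X a, ArithC a ∧ n = AllC X a := by
    (repeat' with_reducible first
        | apply MatrixC.ua | apply LogAxC.ua | apply SentC.ua | apply ClosC.ua
        | apply SubSC.ua | apply SubC.ua | apply FreeSC.ua | apply FreeC.ua | apply ArithC.ua
        | apply IsFmC.ua | apply SubTmC.ua | apply OccC.ua | apply IsTmC.ua | apply UA.ex
        | apply UA.all | apply UA.eq | apply UA.mem | apply UA.ne | apply UA.le | apply UA.lt
        | apply UA.and | apply UA.or | apply UA.iff | apply UA.not | apply UA.imp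
        | apply UA.false) <;>
      (repeat' with_reducible first
        | exact UG.id | apply UG.const | apply UG.left | apply UG.right | apply UG.pair
        | apply UG.add | apply UG.mul | apply UG.beta | apply UG.succ)
  refine this.congr fun n _ => ?_
  rw [sentC_iff]
  constructor
  · rintro ⟨⟨σ, hσ, rfl⟩, X, _, ⟨θ, rfl, hθ⟩, e⟩
    have e' : σ = .All X θ := Fm.code_inj e
    exact ⟨σ, ⟨X, θ, hθ, e'⟩, hσ, rfl⟩
  · rintro ⟨_, ⟨X, θ, hθ, rfl⟩, hσ, rfl⟩
    exact ⟨⟨_, hσ, rfl⟩, X, θ.code, arithC_code.2 hθ, rfl⟩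

/-! ### Proofs -/

/-- Step relation for coded proofs: entries are `⟨1, c⟩` (non-logical axiom `c`) or `⟨0, c⟩`
(logical axiom or obtained by a rule). -/
def StepQ (e : ℕ) (S : ℕ → Prop) : Prop :=
  (∃ c, e = pair 1 c) ∨ ∃ c, e = pair 0 c ∧ (LogAxC c ∨
    (∃ a k l, S (pair k (impC a c)) ∧ S (pair l a)) ∨
    (∃ a x k, S (pair k a) ∧ c = allC x a) ∨
    (∃ a X k, S (pair k a) ∧ c = AllC X a))

theorem StepQ.mono (e : ℕ) (S S' : ℕ → Prop) (h : ∀ a, S a → S' a) (hq : StepQ e S) :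
    StepQ e S' := by
  rcases hq with hq | ⟨c, rfl, hq | ⟨a, k, l, h1, h2⟩ | ⟨a, x, k, h1, h2⟩ | ⟨a, x, k, h1, h2⟩⟩
  · exact Or.inl hq
  · exact Or.inr ⟨c, rfl, Or.inl hq⟩
  · exact Or.inr ⟨c, rfl, Or.inr (Or.inl ⟨a, k, l, h _ h1, h _ h2⟩)⟩
  · exact Or.inr ⟨c, rfl, Or.inr (Or.inr (Or.inl ⟨a, x, k, h _ h1, h2⟩))⟩
  · exact Or.inr ⟨c, rfl, Or.inr (Or.inr (Or.inr ⟨a, x, k, h _ h1, h2⟩))⟩

theorem derives_list {A : Set Fm} {φ : Fm} (h : Derives A φ) : ∃ l, POK StepQ l ∧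
    (∃ k, pair k φ.code ∈ l) ∧ ∀ a, pair 1 a ∈ l → ∃ ψ ∈ A, a = ψ.code := by
  induction h with
  | @ax φ h =>
    refine ⟨[pair 1 φ.code], ⟨Or.inl ⟨_, rfl⟩, trivial⟩, ⟨1, by simp⟩, fun a ha => ?_⟩
    simp only [List.mem_singleton, Nat.pair_eq_pair, true_and] at ha
    exact ⟨φ, h, ha⟩
  | @log φ h =>
    refine ⟨[pair 0 φ.code], ⟨Or.inr ⟨_, rfl, Or.inl ⟨φ, rfl, h⟩⟩, trivial⟩, ⟨0, by simp⟩,
      fun a ha => ?_⟩
    simp at ha
  | @mp φ ψ _ _ ih1 ih2 =>
    obtain ⟨l1, h1, ⟨k1, g1⟩, u1⟩ := ih1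
    obtain ⟨l2, h2, ⟨k2, g2⟩, u2⟩ := ih2
    refine ⟨pair 0 ψ.code :: (l1 ++ l2), ⟨Or.inr ⟨_, rfl, Or.inr (Or.inl ⟨φ.code, k1, k2, ?_,
      ?_⟩)⟩, POK.append StepQ.mono h1 h2⟩, ⟨0, by simp⟩, fun a ha => ?_⟩
    · exact List.mem_append_left _ g1
    · exact List.mem_append_right _ g2
    · rcases List.mem_cons.1 ha with ha | ha
      · simp at ha
      · rcases List.mem_append.1 ha with ha | ha
        · exact u1 a ha
        · exact u2 a ha
  | @gen x φ _ ih =>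
    obtain ⟨l1, h1, ⟨k1, g1⟩, u1⟩ := ih
    refine ⟨pair 0 (Fm.all x φ).code :: l1, ⟨Or.inr ⟨_, rfl, Or.inr (Or.inr (Or.inl ⟨φ.code, x,
      k1, g1, rfl⟩))⟩, h1⟩, ⟨0, by simp⟩, fun a ha => ?_⟩
    rcases List.mem_cons.1 ha with ha | ha
    · simp at ha
    · exact u1 a ha
  | @Gen X φ _ ih =>
    obtain ⟨l1, h1, ⟨k1, g1⟩, u1⟩ := ih
    refine ⟨pair 0 (Fm.All X φ).code :: l1, ⟨Or.inr ⟨_, rfl, Or.inr (Or.inr (Or.inr ⟨φ.code, X,
      k1, g1, rfl⟩))⟩, h1⟩, ⟨0, by simp⟩, fun a ha => ?_⟩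
    rcases List.mem_cons.1 ha with ha | ha
    · simp at ha
    · exact u1 a ha

theorem list_derives {A : Set Fm} : ∀ {l : List ℕ}, POK StepQ l →
    (∀ a, pair 1 a ∈ l → ∃ ψ ∈ A, a = ψ.code) → ∀ k c, pair k c ∈ l →
      ∃ φ : Fm, c = φ.code ∧ Derives A φ
  | [], _, _, _, _, h => by simp at h
  | e :: l, h, hu, k, c, hc => by
    have ih := fun k c => list_derives (A := A) h.2
      (fun a ha => hu a (List.mem_cons_of_mem _ ha)) k c
    rcases List.mem_cons.1 hc with he | hc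
    · have hs := h.1
      rw [← he] at hs
      rcases hs with ⟨d, hd⟩ | ⟨d, hd, hs⟩
      · rw [Nat.pair_eq_pair] at hd
        obtain ⟨rfl, rfl⟩ := hd
        obtain ⟨ψ, h1, rfl⟩ := hu c (by rw [← he]; simp)
        exact ⟨ψ, rfl, .ax h1⟩
      · rw [Nat.pair_eq_pair] at hd
        obtain ⟨rfl, rfl⟩ := hd
        rcases hs with ⟨φ, rfl, hq⟩ | ⟨a, k, l', h1, h2⟩ | ⟨a, x, k, h1, h2⟩ | ⟨a, X, k, h1, h2⟩
        · exact ⟨φ, rfl, .log hq⟩
        · obtain ⟨χ, e1, d1⟩ := ih _ _ h1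
          obtain ⟨φ, rfl, d2⟩ := ih _ _ h2
          cases χ with
          | imp χ1 χ2 =>
            simp only [Fm.code, Nat.pair_eq_pair, true_and] at e1
            obtain rfl : φ = χ1 := Fm.code_inj e1.1
            exact ⟨χ2, e1.2, .mp d1 d2⟩
          | _ => simp [Fm.code] at e1
        · obtain ⟨φ, rfl, d1⟩ := ih _ _ h1
          exact ⟨.all x φ, h2, .gen x d1⟩
        · obtain ⟨φ, rfl, d1⟩ := ih _ _ h1
          exact ⟨.All X φ, h2, .Gen X d1⟩
    · exact ih k c hc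

/-- The list coded by a number. -/
def lst (p : ℕ) : List ℕ := List.ofFn fun k : Fin p.unpair.2 => Nat.beta p.unpair.1 k

theorem lst_surj (l : List ℕ) : ∃ p, lst p = l := by
  obtain ⟨s, hs⟩ := exists_beta (fun i => l.getD i 0) l.length
  refine ⟨pair s l.length, ?_⟩
  unfold lst
  apply List.ext_getElem
  · simp
  · intro i h1 h2
    simp only [List.getElem_ofFn, Nat.unpair_pair]
    exact (hs i (by omega)).trans (List.getD_eq_getElem _ _ h2)

theorem mem_lst {p e : ℕ} : e ∈ lst p ↔ ∃ i, i < p.unpair.2 ∧ Nat.beta p.unpair.1 i = e := by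
  unfold lst
  rw [List.mem_ofFn]
  constructor
  · rintro ⟨i, h⟩; exact ⟨i, i.2, h⟩
  · rintro ⟨i, hi, h⟩; exact ⟨⟨i, hi⟩, h⟩

theorem POK_lst {Q : ℕ → (ℕ → Prop) → Prop} {p : ℕ} : POK Q (lst p) ↔
    ∀ i, i < p.unpair.2 → Q (Nat.beta p.unpair.1 i) fun a => ∃ j, i < j ∧ j < p.unpair.2 ∧
      Nat.beta p.unpair.1 j = a := by
  have e : ∀ j, j < p.unpair.2 → (lst p).getD j 0 = Nat.beta p.unpair.1 j := by
    intro j hj
    unfold lst
    rw [List.getD_eq_getElem _ _ (by simpa using hj)]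
    simp
  have hl : (lst p).length = p.unpair.2 := by simp [lst]
  rw [POK_iff]
  rw [hl]
  refine forall_congr' fun i => ?_
  refine imp_congr_right fun hi => ?_
  rw [e i hi]
  have e' : (fun a => ∃ j, i < j ∧ j < p.unpair.2 ∧ (lst p).getD j 0 = a) =
      fun a => ∃ j, i < j ∧ j < p.unpair.2 ∧ Nat.beta p.unpair.1 j = a := by
    funext a
    refine propext (exists_congr fun j => and_congr_right fun _ => and_congr_right fun hj => ?_)
    rw [e j hj]
  rw [e']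

def PrfC (p x : ℕ) : Prop := POK StepQ (lst p) ∧ ∃ k, pair k x ∈ lst p
def UseC (a p : ℕ) : Prop := pair 1 a ∈ lst p

theorem PrfC.ua : UA fun n _ => PrfC n.unpair.1 n.unpair.2 := by
  have : UA fun n _ => (∀ i, i < n.unpair.1.unpair.2 → StepQ (Nat.beta n.unpair.1.unpair.1 i)
      fun a => ∃ j, i < j ∧ j < n.unpair.1.unpair.2 ∧ Nat.beta n.unpair.1.unpair.1 j = a) ∧
      ∃ k i, i < n.unpair.1.unpair.2 ∧ Nat.beta n.unpair.1.unpair.1 i = pair k n.unpair.2 := by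
    unfold StepQ
    (repeat' with_reducible first
        | apply MatrixC.ua | apply LogAxC.ua | apply SentC.ua | apply ClosC.ua
        | apply SubSC.ua | apply SubC.ua | apply FreeSC.ua | apply FreeC.ua | apply ArithC.ua
        | apply IsFmC.ua | apply SubTmC.ua | apply OccC.ua | apply IsTmC.ua | apply UA.ex
        | apply UA.all | apply UA.eq | apply UA.mem | apply UA.ne | apply UA.le | apply UA.lt
        | apply UA.and | apply UA.or | apply UA.iff | apply UA.not | apply UA.imp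
        | apply UA.false) <;>
      (repeat' with_reducible first
        | exact UG.id | apply UG.const | apply UG.left | apply UG.right | apply UG.pair
        | apply UG.add | apply UG.mul | apply UG.beta | apply UG.succ)
  refine this.congr fun n _ => ?_
  rw [PrfC, POK_lst]
  simp only [mem_lst]

theorem UseC.ua : UA fun n _ => UseC n.unpair.1 n.unpair.2 := by
  have : UA fun n _ => ∃ i, i < n.unpair.2.unpair.2 ∧
      Nat.beta n.unpair.2.unpair.1 i = pair 1 n.unpair.1 := by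
        (repeat' with_reducible first
            | apply MatrixC.ua | apply LogAxC.ua | apply SentC.ua | apply ClosC.ua
            | apply SubSC.ua | apply SubC.ua | apply FreeSC.ua | apply FreeC.ua
            | apply ArithC.ua | apply IsFmC.ua | apply SubTmC.ua | apply OccC.ua
            | apply IsTmC.ua | apply UA.ex | apply UA.all | apply UA.eq | apply UA.mem
            | apply UA.ne | apply UA.le | apply UA.lt | apply UA.and | apply UA.or
            | apply UA.iff | apply UA.not | apply UA.imp | apply UA.false) <;>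
          (repeat' with_reducible first
            | exact UG.id | apply UG.const | apply UG.left | apply UG.right | apply UG.pair
            | apply UG.add | apply UG.mul | apply UG.beta | apply UG.succ)
  refine this.congr fun n _ => ?_
  rw [UseC, mem_lst]

theorem useC_finite (p : ℕ) : {a | UseC a p}.Finite := by
  refine ((lst p).map fun e => e.unpair.2).finite_toSet.subset fun a ha => ?_
  simp only [Set.mem_setOf_eq, List.mem_map]
  exact ⟨pair 1 a, ha, by simp⟩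

theorem prfC_correct (A : Set Fm) (φ : Fm) :
    Derives A φ ↔ ∃ p, PrfC p φ.code ∧ ∀ a, UseC a p → ∃ ψ ∈ A, a = ψ.code := by
  constructor
  · intro h
    obtain ⟨l, h1, h2, h3⟩ := derives_list h
    obtain ⟨p, rfl⟩ := lst_surj l
    exact ⟨p, ⟨h1, h2⟩, h3⟩
  · rintro ⟨p, ⟨h1, k, h2⟩, h3⟩
    obtain ⟨ψ, e, h⟩ := list_derives h1 h3 k _ h2
    rwa [Fm.code_inj e]

end Pool.Agent.H899SOA
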