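import Pool.Agent.H899SOA.Syn3

namespace Pool.Agent.H899SOA

open Nat (pair)
open Function

/-! ### Coded assignments -/

/-- The `x`-th entry of the assignment coded by `e`. -/
def get (e x : ℕ) : ℕ := (Nat.rec e (fun _ IH => IH.unpair.2) x : ℕ).unpair.1

theorem get_zero (e : ℕ) : get e 0 = e.unpair.1 := rfl

theorem get_succ (e x : ℕ) : get e (x + 1) = get e.unpair.2 x := by
  have : ∀ x, (Nat.rec e (fun _ IH => IH.unpair.2) (x + 1) : ℕ) =
      (Nat.rec e.unpair.2 (fun _ IH => IH.unpair.2) x : ℕ) := by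
    intro x
    induction x with
    | zero => rfl
    | succ x ih => show (Nat.rec e (fun _ IH => IH.unpair.2) (x + 1) : ℕ).unpair.2 = _; rw [ih]
  unfold get
  rw [this]

theorem get_update (x n : ℕ) : ∀ e : ℕ, ∃ e', get e' = update (get e) x n := by
  induction x with
  | zero =>
    intro e
    refine ⟨pair n e.unpair.2, ?_⟩
    funext i
    cases i with
    | zero => simp [get_zero]
    | succ i => simp [get_succ]
  | succ x ih =>
    intro e
    obtain ⟨e', he'⟩ := ih e.unpair.2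
    refine ⟨pair e.unpair.1 e', ?_⟩
    funext i
    cases i with
    | zero => simp [get_zero]
    | succ i =>
      rw [get_succ, Nat.unpair_pair, he']
      by_cases h : i = x
      · subst h; simp
      · rw [update_of_ne h, update_of_ne (by omega), get_succ]

theorem UG.get {f g : ℕ → ℕ} (hf : UG f) (hg : UG g) : UG fun n => get (f n) (g n) := by
  have h : Nat.Primrec (Nat.unpaired fun z n => Nat.rec (_root_.id z)
      (fun y IH => (fun m : ℕ => m.unpair.2.unpair.2.unpair.2) (Nat.pair z (Nat.pair y IH))) n) :=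
    Nat.Primrec.prec Nat.Primrec.id
      (Nat.Primrec.right.comp (Nat.Primrec.right.comp Nat.Primrec.right))
  refine (((UG.ofNatPrimrec h).comp (hf.pair hg)).left).ofEq fun n => ?_
  simp [Nat.unpaired, H899SOA.get]

def ValC (e c m : ℕ) : Prop := ∃ t : Tm, c = t.code ∧ m = t.val (get e)

theorem ValC.iff {e c m : ℕ} : ValC e c m ↔ Gen
    (fun n => (∃ x, n.unpair.2.unpair.1 = pair 0 x ∧ n.unpair.2.unpair.2 = get n.unpair.1 x) ∨
      (n.unpair.2.unpair.1 = pair 1 0 ∧ n.unpair.2.unpair.2 = 0))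
    (fun a b n => a.unpair.1 = b.unpair.1 ∧
      (n = pair a.unpair.1 (pair (pair 2 a.unpair.2.unpair.1) (a.unpair.2.unpair.2 + 1)) ∨
       n = pair a.unpair.1 (pair (pair 3 (pair a.unpair.2.unpair.1 b.unpair.2.unpair.1))
        (a.unpair.2.unpair.2 + b.unpair.2.unpair.2)) ∨
       n = pair a.unpair.1 (pair (pair 4 (pair a.unpair.2.unpair.1 b.unpair.2.unpair.1))
        (a.unpair.2.unpair.2 * b.unpair.2.unpair.2))))
    (pair e (pair c m)) := by
  constructor
  · rintro ⟨t, rfl, rfl⟩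
    induction t with
    | var x => exact .base (Or.inl ⟨x, by simp [Tm.code], by simp [Tm.val]⟩)
    | zero => exact .base (Or.inr ⟨by simp [Tm.code], by simp [Tm.val]⟩)
    | succ t ih => exact .step ih ih ⟨rfl, Or.inl (by simp [Tm.code, Tm.val])⟩
    | add s t ih1 ih2 =>
      exact .step ih1 ih2 ⟨by simp, Or.inr (Or.inl (by simp [Tm.code, Tm.val]))⟩
    | mul s t ih1 ih2 =>
      exact .step ih1 ih2 ⟨by simp, Or.inr (Or.inr (by simp [Tm.code, Tm.val]))⟩
  · intro h
    have key := h.elim (C := fun n => ValC n.unpair.1 n.unpair.2.unpair.1 n.unpair.2.unpair.2)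
      (fun n h => by
        rcases h with ⟨x, h1, h2⟩ | ⟨h1, h2⟩
        · exact ⟨.var x, h1, h2⟩
        · exact ⟨.zero, h1, h2⟩) (fun a b n ih1 ih2 h => by
        obtain ⟨h0, h⟩ := h
        obtain ⟨s, e1, e2⟩ := ih1
        obtain ⟨t, e3, e4⟩ := ih2
        rw [← h0] at e4
        rcases h with rfl | rfl | rfl <;> simp only [Nat.unpair_pair, e1, e2, e3, e4]
        · exact ⟨.succ s, rfl, rfl⟩
        · exact ⟨.add s t, rfl, rfl⟩
        · exact ⟨.mul s t, rfl, rfl⟩)
    simpa using key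

theorem ValC.ua {f g h : ℕ → ℕ} (hf : UG f) (hg : UG g) (hh : UG h) :
    UA fun n _ => ValC (f n) (g n) (h n) := by
  refine (Gen.ua ?_ ?_ (hf.pair (hg.pair hh))).congr fun n _ => ValC.iff.symm
  · (repeat' with_reducible first
        | apply MatrixC.ua | apply LogAxC.ua | apply SentC.ua | apply ClosC.ua
        | apply SubSC.ua | apply SubC.ua | apply FreeSC.ua | apply FreeC.ua | apply ArithC.ua
        | apply IsFmC.ua | apply SubTmC.ua | apply OccC.ua | apply IsTmC.ua | apply UA.ex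
        | apply UA.all | apply UA.eq | apply UA.mem | apply UA.ne | apply UA.le | apply UA.lt
        | apply UA.and | apply UA.or | apply UA.iff | apply UA.not | apply UA.imp
        | apply UA.false) <;>
      (repeat' with_reducible first
        | exact UG.id | apply UG.const | apply UG.left | apply UG.right | apply UG.pair
        | apply UG.get | apply UG.add | apply UG.mul | apply UG.beta | apply UG.succ)
  · (repeat' with_reducible first
        | apply MatrixC.ua | apply LogAxC.ua | apply SentC.ua | apply ClosC.ua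
        | apply SubSC.ua | apply SubC.ua | apply FreeSC.ua | apply FreeC.ua | apply ArithC.ua
        | apply IsFmC.ua | apply SubTmC.ua | apply OccC.ua | apply IsTmC.ua | apply UA.ex
        | apply UA.all | apply UA.eq | apply UA.mem | apply UA.ne | apply UA.le | apply UA.lt
        | apply UA.and | apply UA.or | apply UA.iff | apply UA.not | apply UA.imp
        | apply UA.false) <;>
      (repeat' with_reducible first
        | exact UG.id | apply UG.const | apply UG.left | apply UG.right | apply UG.pair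
        | apply UG.get | apply UG.add | apply UG.mul | apply UG.beta | apply UG.succ)

/-! ### Satisfaction classes -/

/-- `Z` codes a set `{n : 2n ∈ Z}` and a satisfaction class `{m : 2m + 1 ∈ Z}` for arithmetical
formulas in this set. -/
def Tarski (Z : Set ℕ) : Prop :=
  (∀ e s t a b, ValC e s a → ValC e t b →
    (pair (eqC s t) e + pair (eqC s t) e + 1 ∈ Z ↔ a = b)) ∧
  (∀ e t X a, ValC e t a → (pair (memC t X) e + pair (memC t X) e + 1 ∈ Z ↔ a + a ∈ Z)) ∧
  (∀ e, ¬ pair botC e + pair botC e + 1 ∈ Z) ∧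
  (∀ e c d, ArithC c → ArithC d → (pair (impC c d) e + pair (impC c d) e + 1 ∈ Z ↔
    (pair c e + pair c e + 1 ∈ Z → pair d e + pair d e + 1 ∈ Z))) ∧
  (∀ e c x, ArithC c → (pair (allC x c) e + pair (allC x c) e + 1 ∈ Z ↔
    ∀ e', (∀ y, y ≠ x → get e' y = get e y) → pair c e' + pair c e' + 1 ∈ Z))

theorem Tarski.ua : UA fun _ Z => Tarski Z := by
  unfold Tarski
  (repeat' with_reducible first
      | apply ValC.ua | apply MatrixC.ua | apply LogAxC.ua | apply SentC.ua | apply ClosC.ua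
      | apply SubSC.ua | apply SubC.ua | apply FreeSC.ua | apply FreeC.ua | apply ArithC.ua
      | apply IsFmC.ua | apply SubTmC.ua | apply OccC.ua | apply IsTmC.ua | apply UA.ex
      | apply UA.all | apply UA.eq | apply UA.mem | apply UA.ne | apply UA.le | apply UA.lt
      | apply UA.and | apply UA.or | apply UA.iff | apply UA.not | apply UA.imp
      | apply UA.false) <;>
    (repeat' with_reducible first
      | exact UG.id | apply UG.const | apply UG.left | apply UG.right | apply UG.pair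
      | apply UG.get | apply UG.add | apply UG.mul | apply UG.beta | apply UG.succ)

theorem Tarski.sat {Z : Set ℕ} (h : Tarski Z) : ∀ (θ : Fm), θ.IsArith → ∀ e,
    (pair θ.code e + pair θ.code e + 1 ∈ Z ↔ θ.Sat (get e) fun _ => {n | n + n ∈ Z})
  | .eq s t, _, e => h.1 e s.code t.code _ _ ⟨s, rfl, rfl⟩ ⟨t, rfl, rfl⟩
  | .mem t X, _, e => h.2.1 e t.code X _ ⟨t, rfl, rfl⟩
  | .bot, _, e => ⟨fun h' => h.2.2.1 e h', fun h' => h'.elim⟩
  | .imp φ ψ, hθ, e => by
    have := h.2.2.2.1 e φ.code ψ.code (arithC_code.2 hθ.1) (arithC_code.2 hθ.2)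
    rw [Tarski.sat h φ hθ.1, Tarski.sat h ψ hθ.2] at this
    exact this
  | .all x φ, hθ, e => by
    have := h.2.2.2.2 e φ.code x (arithC_code.2 hθ)
    refine this.trans ?_
    constructor
    · intro H n
      obtain ⟨e', he'⟩ := get_update x n e
      have := H e' fun y hy => by rw [he', update_of_ne hy]
      rw [Tarski.sat h φ hθ, he'] at this
      exact this
    · intro H e' he'
      rw [Tarski.sat h φ hθ]
      have := H (get e' x)
      have e2 : update (get e) x (get e' x) = get e' := by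
        funext y
        by_cases hy : y = x
        · subst hy; simp
        · rw [update_of_ne hy, he' y hy]
      rwa [e2] at this
  | .All _ _, hθ, _ => hθ.elim

theorem exists_Tarski (X : Set ℕ) : ∃ Z, Tarski Z ∧ {n | n + n ∈ Z} = X := by
  set Z : Set ℕ := {k | (∃ n ∈ X, k = n + n) ∨ ∃ (θ : Fm) (e : ℕ), θ.IsArith ∧
    θ.Sat (get e) (fun _ => X) ∧ k = pair θ.code e + pair θ.code e + 1} with hZ
  have h0 : ∀ n, n + n ∈ Z ↔ n ∈ X := by
    intro n
    constructor
    · rintro (⟨m, hm, h⟩ | ⟨θ, e, _, _, h⟩)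
      · rwa [show n = m by omega]
      · omega
    · exact fun h => Or.inl ⟨n, h, rfl⟩
  have h1 : ∀ θ : Fm, θ.IsArith → ∀ e, (pair θ.code e + pair θ.code e + 1 ∈ Z ↔
      θ.Sat (get e) fun _ => X) := by
    intro θ hθ e
    constructor
    · rintro (⟨m, hm, h⟩ | ⟨θ', e', _, h', h⟩)
      · omega
      · have : pair θ.code e = pair θ'.code e' := by omega
        rw [Nat.pair_eq_pair] at this
        rw [Fm.code_inj this.1, this.2]; exact h'
    · exact fun h => Or.inr ⟨θ, e, hθ, h, rfl⟩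
  refine ⟨Z, ⟨?_, ?_, ?_, ?_, ?_⟩, by ext n; exact h0 n⟩
  · rintro e _ _ _ _ ⟨s, rfl, rfl⟩ ⟨t, rfl, rfl⟩
    exact h1 (.eq s t) trivial e
  · rintro e _ Y _ ⟨t, rfl, rfl⟩
    rw [h0]
    exact h1 (.mem t Y) trivial e
  · intro e h
    exact (h1 .bot trivial e).1 h
  · rintro e _ _ ⟨φ, rfl, hφ⟩ ⟨ψ, rfl, hψ⟩
    rw [h1 φ hφ, h1 ψ hψ]
    exact h1 (.imp φ ψ) ⟨hφ, hψ⟩ e
  · rintro e _ x ⟨φ, rfl, hφ⟩
    refine (h1 (.all x φ) hφ e).trans ?_
    constructor
    · intro H e' he'
      rw [h1 φ hφ]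
      have := H (get e' x)
      have e2 : update (get e) x (get e' x) = get e' := by
        funext y
        by_cases hy : y = x
        · subst hy; simp
        · rw [update_of_ne hy, he' y hy]
      rwa [e2] at this
    · intro H n
      obtain ⟨e', he'⟩ := get_update x n e
      have := H e' fun y hy => by rw [he', update_of_ne hy]
      rw [h1 φ hφ, he'] at this
      exact this

/-- The matrix of the truth predicate. -/
def TrP (n : ℕ) (Z : Set ℕ) : Prop :=
  Tarski Z → ∀ Y c, n = AllC Y c → pair c 0 + pair c 0 + 1 ∈ Z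

theorem TrP.ua : UA fun n Z => TrP n Z := by
  unfold TrP
  refine UA.imp Tarski.ua ?_
  (repeat' with_reducible first
      | apply ValC.ua | apply MatrixC.ua | apply LogAxC.ua | apply SentC.ua | apply ClosC.ua
      | apply SubSC.ua | apply SubC.ua | apply FreeSC.ua | apply FreeC.ua | apply ArithC.ua
      | apply IsFmC.ua | apply SubTmC.ua | apply OccC.ua | apply IsTmC.ua | apply UA.ex
      | apply UA.all | apply UA.eq | apply UA.mem | apply UA.ne | apply UA.le | apply UA.lt
      | apply UA.and | apply UA.or | apply UA.iff | apply UA.not | apply UA.imp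
      | apply UA.false) <;>
    (repeat' with_reducible first
      | exact UG.id | apply UG.const | apply UG.left | apply UG.right | apply UG.pair
      | apply UG.get | apply UG.add | apply UG.mul | apply UG.beta | apply UG.succ)

theorem freeS_of_arith : ∀ {θ : Fm} {v : ℕ → ℕ} {V W : ℕ → Set ℕ},
    (∀ X, θ.FreeS X → V X = W X) → (θ.Sat v V ↔ θ.Sat v W) := fun h =>
  Fm.sat_congr _ (fun _ _ => rfl) h

theorem trP_correct {φ : Fm} (h1 : φ.IsPi11) (h2 : φ.Sentence) :
    (∀ Z, TrP φ.code Z) ↔ φ.True := by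
  obtain ⟨Y, θ, hθ, rfl⟩ := h1
  have hfree : ∀ X, θ.FreeS X → X = Y := by
    intro X hX
    by_contra hne
    exact h2.2 X ⟨fun h => hne h.symm, hX⟩
  constructor
  · intro H v V
    have h3 : (Fm.All Y θ).Sat v V ↔ (Fm.All Y θ).Sat (get 0) V := h2.sat_iff
    rw [h3]
    intro X
    obtain ⟨Z, hZ, hX⟩ := exists_Tarski X
    have := H Z hZ Y θ.code rfl
    rw [hZ.sat θ hθ, hX] at this
    refine (freeS_of_arith fun W hW => ?_).1 this
    rw [hfree W hW]; simp
  · intro H Z hZ Y' c hc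
    have hc' : Y = Y' ∧ θ.code = c := by simpa [Fm.code] using hc
    obtain ⟨rfl, rfl⟩ := hc'
    rw [hZ.sat θ hθ]
    have := H (get 0) (fun _ => ∅) {n | n + n ∈ Z}
    refine (freeS_of_arith fun W hW => ?_).1 this
    rw [hfree W hW]; simp

/-! ### Cleaning up formulas -/

/-- Replace all atomic formulas `t ∈ X` by `⊥`. -/
def Fm.killS : Fm → Fm
  | .eq s t => .eq s t
  | .mem _ _ => .bot
  | .bot => .bot
  | .imp φ ψ => .imp φ.killS ψ.killS
  | .all x φ => .all x φ.killS
  | .All X φ => .All X φ.killS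

theorem Fm.killS_arith : ∀ {φ : Fm}, φ.IsArith → φ.killS.IsArith
  | .eq _ _, h => h
  | .mem _ _, _ => trivial
  | .bot, h => h
  | .imp _ _, h => ⟨Fm.killS_arith h.1, Fm.killS_arith h.2⟩
  | .all _ φ, h => Fm.killS_arith (φ := φ) h
  | .All _ _, h => h.elim

theorem Fm.killS_freeS : ∀ {φ : Fm}, φ.IsArith → ∀ X, ¬ φ.killS.FreeS X
  | .eq _ _, _, _, h => h
  | .mem _ _, _, _, h => h
  | .bot, _, _, h => h
  | .imp _ _, h, X, h' => h'.elim (Fm.killS_freeS h.1 X) (Fm.killS_freeS h.2 X)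
  | .all _ φ, h, X, h' => Fm.killS_freeS (φ := φ) h X h'
  | .All _ _, h, _, _ => h.elim

theorem Fm.killS_sat : ∀ {φ : Fm}, φ.IsArith → ∀ v V, φ.killS.Sat v V ↔ φ.Sat v fun _ => ∅
  | .eq _ _, _, _, _ => Iff.rfl
  | .mem _ _, _, _, _ => by simp [Fm.killS]
  | .bot, _, _, _ => Iff.rfl
  | .imp _ _, h, v, V => by
      simp only [Fm.killS, Fm.sat_imp, Fm.killS_sat h.1 v V, Fm.killS_sat h.2 v V]
  | .all x φ, h, v, V => by
      simp only [Fm.killS, Fm.sat_all]
      exact forall_congr' fun n => Fm.killS_sat (φ := φ) h _ V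
  | .All _ _, h, _, _ => h.elim

/-- Quantify universally the number variables `x < n` outside `S`. -/
def Fm.close (S : ℕ → Prop) [DecidablePred S] : ℕ → Fm → Fm
  | 0, φ => φ
  | n + 1, φ => Fm.close S n (if S n then φ else .all n φ)

theorem Tm.occ_bound : ∀ t : Tm, ∃ N, ∀ x, t.Occ x → x < N
  | .var y => ⟨y + 1, fun x h => by rw [← show y = x from h]; omega⟩
  | .zero => ⟨0, fun _ h => h.elim⟩
  | .succ t => Tm.occ_bound t
  | .add s t => by
      obtain ⟨M, hM⟩ := Tm.occ_bound s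
      obtain ⟨N, hN⟩ := Tm.occ_bound t
      exact ⟨M + N, fun x h => h.elim (fun h => (hM x h).trans_le (by omega))
        fun h => (hN x h).trans_le (by omega)⟩
  | .mul s t => by
      obtain ⟨M, hM⟩ := Tm.occ_bound s
      obtain ⟨N, hN⟩ := Tm.occ_bound t
      exact ⟨M + N, fun x h => h.elim (fun h => (hM x h).trans_le (by omega))
        fun h => (hN x h).trans_le (by omega)⟩

theorem Fm.free_bound : ∀ φ : Fm, ∃ N, ∀ x, φ.Free x → x < N
  | .eq s t => by
      obtain ⟨M, hM⟩ := Tm.occ_bound s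
      obtain ⟨N, hN⟩ := Tm.occ_bound t
      exact ⟨M + N, fun x h => h.elim (fun h => (hM x h).trans_le (by omega))
        fun h => (hN x h).trans_le (by omega)⟩
  | .mem t _ => Tm.occ_bound t
  | .bot => ⟨0, fun _ h => h.elim⟩
  | .imp φ ψ => by
      obtain ⟨M, hM⟩ := Fm.free_bound φ
      obtain ⟨N, hN⟩ := Fm.free_bound ψ
      exact ⟨M + N, fun x h => h.elim (fun h => (hM x h).trans_le (by omega))
        fun h => (hN x h).trans_le (by omega)⟩
  | .all _ φ => by
      obtain ⟨M, hM⟩ := Fm.free_bound φ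
      exact ⟨M, fun x h => hM x h.2⟩
  | .All _ φ => Fm.free_bound φ

theorem Fm.close_free {S : ℕ → Prop} [DecidablePred S] : ∀ (n : ℕ) (φ : Fm) (x : ℕ),
    (Fm.close S n φ).Free x → φ.Free x ∧ (x < n → S x)
  | 0, φ, x, h => ⟨h, fun h => absurd h (by omega)⟩
  | n + 1, φ, x, h => by
    obtain ⟨h1, h2⟩ := Fm.close_free n _ x h
    by_cases hS : S n
    · rw [if_pos hS] at h1
      refine ⟨h1, fun hx => ?_⟩
      rcases Nat.lt_succ_iff_lt_or_eq.1 hx with hx | rfl
      · exact h2 hx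
      · exact hS
    · rw [if_neg hS] at h1
      refine ⟨h1.2, fun hx => ?_⟩
      rcases Nat.lt_succ_iff_lt_or_eq.1 hx with hx | rfl
      · exact h2 hx
      · exact absurd rfl h1.1

theorem Fm.close_arith {S : ℕ → Prop} [DecidablePred S] : ∀ (n : ℕ) (φ : Fm),
    φ.IsArith → (Fm.close S n φ).IsArith
  | 0, _, h => h
  | n + 1, φ, h => by
    refine Fm.close_arith n _ ?_
    split_ifs
    · exact h
    · exact h

theorem Fm.close_freeS {S : ℕ → Prop} [DecidablePred S] : ∀ (n : ℕ) (φ : Fm) (X : ℕ),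
    (Fm.close S n φ).FreeS X → φ.FreeS X
  | 0, _, _, h => h
  | n + 1, φ, X, h => by
    have := Fm.close_freeS n _ X h
    split_ifs at this
    · exact this
    · exact this

theorem Fm.close_sat {S : ℕ → Prop} [DecidablePred S] {P : (ℕ → ℕ) → Set ℕ → Prop}
    (hP : ∀ v w Z, (∀ x, S x → v x = w x) → (P v Z ↔ P w Z)) : ∀ (n : ℕ) (φ : Fm),
    (∀ v V, φ.Sat v V ↔ P v (V 0)) → ∀ v V, (Fm.close S n φ).Sat v V ↔ P v (V 0)
  | 0, _, h => h
  | n + 1, φ, h => by
    refine Fm.close_sat hP n _ ?_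
    intro v V
    split_ifs with hS
    · exact h v V
    · simp only [Fm.sat_all, h]
      constructor
      · intro H
        refine (hP _ _ _ fun x hx => ?_).1 (H 0)
        rw [update_of_ne]; rintro rfl; exact hS hx
      · intro H m
        refine (hP _ _ _ fun x hx => ?_).2 H
        rw [update_of_ne]; rintro rfl; exact hS hx

/-- A defining formula with prescribed free variables. -/
theorem Ar.formula {P : (ℕ → ℕ) → Set ℕ → Prop} (h : Ar P) (S : ℕ → Prop) [DecidablePred S]
    (hP : ∀ v w Z, (∀ x, S x → v x = w x) → (P v Z ↔ P w Z)) :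
    ∃ φ : Fm, φ.IsArith ∧ (∀ x, φ.Free x → S x) ∧ (∀ X, φ.FreeS X → X = 0) ∧
      ∀ v V, φ.Sat v V ↔ P v (V 0) := by
  obtain ⟨φ, h1, h2, h3⟩ := h
  obtain ⟨N, hN⟩ := φ.free_bound
  refine ⟨Fm.close S N φ, Fm.close_arith N φ h1, fun x hx => ?_,
    fun X hX => h2 X (Fm.close_freeS N φ X hX), Fm.close_sat hP N φ h3⟩
  obtain ⟨g1, g2⟩ := Fm.close_free N φ x hx
  exact g2 (hN x g1)

/-- A defining formula without set variables and with prescribed free number variables. -/
theorem Ar.formula' {P : (ℕ → ℕ) → Prop} (h : Ar fun v _ => P v) (S : ℕ → Prop)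
    [DecidablePred S] (hP : ∀ v w, (∀ x, S x → v x = w x) → (P v ↔ P w)) :
    ∃ φ : Fm, φ.IsArith ∧ (∀ x, φ.Free x → S x) ∧ (∀ X, ¬ φ.FreeS X) ∧
      ∀ v V, φ.Sat v V ↔ P v := by
  have h' : Ar fun v _ => P v := by
    obtain ⟨φ, h1, h2, h3⟩ := h
    exact ⟨φ.killS, Fm.killS_arith h1, fun X hX => absurd hX (Fm.killS_freeS h1 X),
      fun v V => (Fm.killS_sat h1 v V).trans (h3 v _)⟩
  obtain ⟨φ, h1, h2, h3⟩ := h
  obtain ⟨N, hN⟩ := φ.killS.free_bound
  have h4 : ∀ v V, φ.killS.Sat v V ↔ (fun v (_ : Set ℕ) => P v) v (V 0) := fun v V =>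
    (Fm.killS_sat h1 v V).trans (h3 v _)
  refine ⟨Fm.close S N φ.killS, Fm.close_arith N _ (Fm.killS_arith h1), fun x hx => ?_,
    fun X hX => Fm.killS_freeS h1 X (Fm.close_freeS N _ X hX), fun v V =>
      Fm.close_sat (P := fun v _ => P v) (fun v w _ h => hP v w h) N _ h4 v V⟩
  obtain ⟨g1, g2⟩ := Fm.close_free N _ x hx
  exact g2 (hN x g1)

theorem UA.bin {R : ℕ → ℕ → Set ℕ → Prop} (h : UA fun n Z => R n.unpair.1 n.unpair.2 Z)
    (i j : ℕ) : Ar fun v Z => R (v i) (v j) Z := by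
  refine (((Ar.pair i j (i + j + 1)).and (h (i + j + 1))).ex (i + j + 1)).congr fun v Z => ?_
  simp only [update_self, ne_eq, show ¬ (i = i + j + 1) by omega, show ¬ (j = i + j + 1) by omega,
    not_false_eq_true, update_of_ne]
  simp

/-- An arithmetisation exists. -/
theorem exists_arithmetization : Nonempty Arithmetization := by
  obtain ⟨prf, p1, p2, p3, p4⟩ := Ar.formula' (P := fun v => PrfC (v 1) (v 2))
    (PrfC.ua.bin (R := fun a b _ => PrfC a b) 1 2) (fun x => x = 1 ∨ x = 2)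
    (fun v w h => by rw [h 1 (by simp), h 2 (by simp)])
  obtain ⟨use, u1, u2, u3, u4⟩ := Ar.formula' (P := fun v => UseC (v 0) (v 1))
    (UseC.ua.bin (R := fun a b _ => UseC a b) 0 1) (fun x => x = 0 ∨ x = 1)
    (fun v w h => by rw [h 0 (by simp), h 1 (by simp)])
  obtain ⟨pi, q1, q2, q3, q4⟩ := Ar.formula'
    (P := fun v => ∃ φ : Fm, φ.IsPi11 ∧ φ.Sentence ∧ v 2 = φ.code) (pi_ua 2) (fun x => x = 2)
    (fun v w h => by rw [h 2 rfl])
  obtain ⟨tr, t1, t2, t3, t4⟩ := Ar.formula (P := fun v Z => TrP (v 2) Z) (TrP.ua 2)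
    (fun x => x = 2) (fun v w Z h => by rw [h 2 rfl])
  refine ⟨⟨prf, use, pi, 0, tr, p1, p2, p3, u1, u2, u3, q1, q2, q3, t1, t2, t3, ?_, ?_, ?_, ?_⟩⟩
  · intro p
    have : {a | use.Holds a p 0} = {a | UseC a p} := by
      ext a
      simp only [Set.mem_setOf_eq, Fm.Holds, u4]
      rfl
    rw [this]
    exact useC_finite p
  · intro A _ φ
    rw [prfC_correct]
    simp only [Fm.Holds, p4, u4]
    rfl
  · intro n
    simp only [Fm.Holds, q4]
    rfl
  · intro φ h1 h2
    rw [← trP_correct h1 h2]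
    simp only [Fm.Holds, Fm.sat_All, t4, update_self]
    rfl

/-- An arithmetical definition of the axioms of `Σ¹₁-AC₀`. -/
theorem exists_ax : ∃ ax : Fm, ax.IsArith ∧ (∀ x, ax.Free x → x = 0) ∧ (∀ X, ¬ ax.FreeS X) ∧
    ∀ n, ax.Holds n 0 0 ↔ ∃ φ ∈ Sigma11AC0, n = φ.code := by
  obtain ⟨ax, h1, h2, h3, h4⟩ := Ar.formula'
    (P := fun v => ∃ φ ∈ Sigma11AC0, v 0 = φ.code) (ax_ua 0) (fun x => x = 0)
    (fun v w h => by rw [h 0 rfl])
  exact ⟨ax, h1, h2, h3, fun n => by simp only [Fm.Holds, h4]; rfl⟩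

end Pool.Agent.H899SOA
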